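import Mathlib

/-! Blow-up: from one finite counterexample to a linear gap for all large numbers of points. -/

namespace DeepFlat
open Finset Filter Topology

abbrev E4 := EuclideanSpace ℝ (Fin 4)

/-- every line p + R u lies in a closed half-space with fewer than a third of the points of X -/
def Third (X : Finset E4) : Prop :=
  ∀ p u : E4, u ≠ 0 → ∃ (a : E4) (β : ℝ), a ≠ 0 ∧ (∀ t : ℝ, inner ℝ a (p + t • u) ≤ β) ∧
    3 * (X.filter (fun x => inner ℝ a x ≤ β)).card < X.card

/-- normal form of Third: unit normal, hyperplane through the line -/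
theorem Third.unit {X : Finset E4} (h : Third X) (p u : E4) (hu : u ≠ 0) :
    ∃ a : E4, ‖a‖ = 1 ∧ inner ℝ a u = (0 : ℝ) ∧
      3 * (X.filter (fun x => inner ℝ a x ≤ (inner ℝ a p : ℝ))).card < X.card := by
  obtain ⟨a, β, ha, hL, hc⟩ := h p u hu
  have hn : 0 < ‖a‖ := norm_pos_iff.mpr ha
  have hau : (inner ℝ a u : ℝ) = 0 := by
    by_contra hne
    have h1 := hL ((β - inner ℝ a p + 1) / inner ℝ a u)
    rw [inner_add_right, inner_smul_right] at h1
    field_simp at h1
    linarith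
  have hap : (inner ℝ a p : ℝ) ≤ β := by
    have := hL 0
    simpa using this
  refine ⟨‖a‖⁻¹ • a, ?_, ?_, ?_⟩
  · rw [norm_smul, norm_inv, norm_norm]; field_simp
  · rw [inner_smul_left, hau]; simp
  · refine lt_of_le_of_lt ?_ hc
    refine Nat.mul_le_mul_left 3 (Finset.card_le_card ?_)
    intro x hx
    rw [Finset.mem_filter] at hx ⊢
    refine ⟨hx.1, ?_⟩
    have h2 := hx.2
    rw [inner_smul_left, inner_smul_left] at h2
    simp only [conj_trivial] at h2
    have h3 : (inner ℝ a x : ℝ) ≤ inner ℝ a p := by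
      have := mul_le_mul_of_nonneg_left h2 hn.le
      rwa [← mul_assoc, ← mul_assoc, mul_inv_cancel₀ hn.ne', one_mul, one_mul] at this
    linarith

/-- uniform margin -/
theorem Third.margin {X : Finset E4} (h : Third X) (hX : 0 < X.card) :
    ∃ ε : ℝ, 0 < ε ∧ ∀ p u : E4, u ≠ 0 → ∃ a : E4, ‖a‖ = 1 ∧ inner ℝ a u = (0 : ℝ) ∧
      3 * (X.filter (fun x => inner ℝ a x ≤ (inner ℝ a p : ℝ) + ε)).card < X.card := by
  by_contra hcon
  push Not at hcon
  -- bad lines in normal form
  have hbad : ∀ j : ℕ, ∃ p u : E4, ‖u‖ = 1 ∧ inner ℝ u p = (0 : ℝ) ∧ ∀ a : E4, ‖a‖ = 1 →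
      inner ℝ a u = (0 : ℝ) →
      X.card ≤ 3 * (X.filter (fun x => inner ℝ a x ≤ (inner ℝ a p : ℝ) + 1 / ((j : ℝ) + 1))).card := by
    intro j
    obtain ⟨p, u, hu, hpu⟩ := hcon (1 / ((j : ℝ) + 1)) (by positivity)
    have hn : ‖u‖ ≠ 0 := norm_ne_zero_iff.mpr hu
    refine ⟨p - (inner ℝ u p / (‖u‖ * ‖u‖)) • u, ‖u‖⁻¹ • u, ?_, ?_, ?_⟩
    · rw [norm_smul, norm_inv, norm_norm]; field_simp
    · rw [inner_smul_left, inner_sub_right, inner_smul_right, real_inner_self_eq_norm_mul_norm]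
      simp only [conj_trivial]
      field_simp
      ring
    · intro a ha hau
      have hau' : (inner ℝ a u : ℝ) = 0 := by
        rw [inner_smul_right] at hau
        rcases mul_eq_zero.mp hau with h0 | h0
        · exact absurd h0 (inv_ne_zero hn)
        · exact h0
      have := hpu a ha hau'
      have e : (inner ℝ a (p - (inner ℝ u p / (‖u‖ * ‖u‖)) • u) : ℝ) = inner ℝ a p := by
        rw [inner_sub_right, inner_smul_right, hau']; ring
      rw [e]; exact this
  choose p u hu hup hb using hbad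
  obtain ⟨R, hR⟩ : ∃ R : ℝ, ∀ x ∈ X, ‖x‖ ≤ R := by
    obtain ⟨R, hR⟩ := (X.finite_toSet.isBounded).exists_norm_le
    exact ⟨R, fun x hx => hR x hx⟩
  have hR0 : 0 ≤ R := by
    obtain ⟨x, hx⟩ := Finset.card_pos.mp hX
    exact le_trans (norm_nonneg x) (hR x hx)
  have hp : ∀ j, ‖p j‖ ≤ R + 2 := by
    intro j
    by_contra hc
    push Not at hc
    have hpos : 0 < ‖p j‖ := by linarith
    have hb' := hb j (-(‖p j‖⁻¹ • p j)) (by rw [norm_neg, norm_smul, norm_inv, norm_norm]; field_simp)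
      (by rw [inner_neg_left, inner_smul_left, real_inner_comm, hup j]; simp)
    have hemp : X.filter (fun x => inner ℝ (-(‖p j‖⁻¹ • p j)) x ≤
        (inner ℝ (-(‖p j‖⁻¹ • p j)) (p j) : ℝ) + 1 / ((j : ℝ) + 1)) = ∅ := by
      rw [Finset.filter_eq_empty_iff]
      intro x hx hle
      have e1 : (inner ℝ (-(‖p j‖⁻¹ • p j)) (p j) : ℝ) = -‖p j‖ := by
        rw [inner_neg_left, inner_smul_left, real_inner_self_eq_norm_mul_norm]
        simp only [conj_trivial]
        field_simp
      have e2 : -R ≤ (inner ℝ (-(‖p j‖⁻¹ • p j)) x : ℝ) := by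
        have h1 := abs_real_inner_le_norm (-(‖p j‖⁻¹ • p j)) x
        rw [norm_neg, norm_smul, norm_inv, norm_norm, inv_mul_cancel₀ hpos.ne', one_mul] at h1
        have h2 := neg_le_of_abs_le h1
        have h3 := hR x hx
        linarith
      have e3 : 1 / ((j : ℝ) + 1) ≤ 1 := by
        rw [div_le_one (by positivity)]
        have : (0 : ℝ) ≤ (j : ℝ) := Nat.cast_nonneg j
        linarith
      rw [e1] at hle
      linarith
    rw [hemp] at hb'
    simp at hb'
    rw [hb'] at hX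
    simp at hX
  -- compactness
  have hcomp : IsCompact (Metric.closedBall (0 : E4) (R + 2) ×ˢ Metric.sphere (0 : E4) 1) :=
    (isCompact_closedBall _ _).prod (isCompact_sphere _ _)
  have hmem : ∀ j, (p j, u j) ∈ Metric.closedBall (0 : E4) (R + 2) ×ˢ Metric.sphere (0 : E4) 1 := by
    intro j
    refine ⟨?_, ?_⟩
    · simpa using hp j
    · simpa using hu j
  obtain ⟨⟨p0, u0⟩, hlim, φ, hφ, hconv⟩ := hcomp.tendsto_subseq hmem
  have hconvp : Tendsto (fun j => p (φ j)) atTop (𝓝 p0) :=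
    (continuous_fst.tendsto (p0, u0)).comp hconv
  have hconvu : Tendsto (fun j => u (φ j)) atTop (𝓝 u0) :=
    (continuous_snd.tendsto (p0, u0)).comp hconv
  have hu0 : ‖u0‖ = 1 := by simpa using hlim.2
  obtain ⟨a, ha, hau, hc⟩ := h.unit p0 u0 (by intro h0; rw [h0] at hu0; simp at hu0)
  -- approximating normals
  set b : ℕ → E4 := fun j => a - (inner ℝ (u (φ j)) a : ℝ) • u (φ j) with hbdef
  have hbt : Tendsto b atTop (𝓝 a) := by
    have h1 : Tendsto (fun j => a - (inner ℝ (u (φ j)) a : ℝ) • u (φ j)) atTop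
        (𝓝 (a - (inner ℝ u0 a : ℝ) • u0)) :=
      tendsto_const_nhds.sub ((hconvu.inner tendsto_const_nhds).smul hconvu)
    rw [real_inner_comm] at hau
    rw [hau, zero_smul, sub_zero] at h1
    exact h1
  have hbn : Tendsto (fun j => ‖b j‖) atTop (𝓝 1) := by
    have := hbt.norm
    rwa [ha] at this
  set c : ℕ → E4 := fun j => ‖b j‖⁻¹ • b j with hcdef
  have hct : Tendsto c atTop (𝓝 a) := by
    have h1 := (hbn.inv₀ one_ne_zero).smul hbt
    simpa using h1
  have hbu : ∀ j, (inner ℝ (b j) (u (φ j)) : ℝ) = 0 := by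
    intro j
    simp only [hbdef]
    rw [inner_sub_left, inner_smul_left, real_inner_self_eq_norm_mul_norm, hu (φ j),
      real_inner_comm a]
    simp
  -- eventually: unit normals and all the points outside stay outside
  have hev1 : ∀ᶠ j in atTop, ‖c j‖ = 1 := by
    have : ∀ᶠ j in atTop, 0 < ‖b j‖ := hbn.eventually (lt_mem_nhds one_pos)
    filter_upwards [this] with j hj
    simp only [hcdef]
    rw [norm_smul, norm_inv, norm_norm, inv_mul_cancel₀ hj.ne']
  have hev2 : ∀ᶠ j in atTop, ∀ x ∈ X, (inner ℝ a p0 : ℝ) < inner ℝ a x →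
      (inner ℝ (c j) (p (φ j)) : ℝ) + 1 / ((φ j : ℝ) + 1) < inner ℝ (c j) x := by
    rw [Filter.eventually_all_finset]
    intro x hx
    by_cases hax : (inner ℝ a p0 : ℝ) < inner ℝ a x
    · have l1 : Tendsto (fun j => (inner ℝ (c j) (p (φ j)) : ℝ) + 1 / ((φ j : ℝ) + 1)) atTop
          (𝓝 (inner ℝ a p0 + 0)) := by
        refine (hct.inner hconvp).add ?_
        exact tendsto_one_div_add_atTop_nhds_zero_nat.comp hφ.tendsto_atTop
      have l2 : Tendsto (fun j => (inner ℝ (c j) x : ℝ)) atTop (𝓝 (inner ℝ a x)) :=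
        hct.inner tendsto_const_nhds
      rw [add_zero] at l1
      filter_upwards [l1.eventually_lt l2 hax] with j hj _
      exact hj
    · exact Filter.Eventually.of_forall (fun j h' => absurd h' hax)
  obtain ⟨j, h1, h2⟩ := (hev1.and hev2).exists
  have h3 := hb (φ j) (c j) h1 (by
    simp only [hcdef]
    rw [inner_smul_left, hbu j]; simp)
  have h4 : (X.filter (fun x => inner ℝ (c j) x ≤ (inner ℝ (c j) (p (φ j)) : ℝ) +
      1 / ((φ j : ℝ) + 1))).card ≤ (X.filter (fun x => inner ℝ a x ≤ (inner ℝ a p0 : ℝ))).card := by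
    refine Finset.card_le_card ?_
    intro x hx
    rw [Finset.mem_filter] at hx ⊢
    refine ⟨hx.1, ?_⟩
    by_contra hlt
    push Not at hlt
    exact absurd (h2 x hx.1 hlt) (not_lt.mpr hx.2)
  omega

/-- the blown up set -/
theorem Third.blowup {X : Finset E4} (h : Third X) (hX : 0 < X.card) (n : ℕ) :
    ∃ Y : Finset E4, Y.card = n ∧ ∀ p u : E4, u ≠ 0 → ∃ a : E4, a ≠ 0 ∧
      inner ℝ a u = (0 : ℝ) ∧
      ∃ c : ℕ, 3 * c < X.card ∧
        (Y.filter (fun x => inner ℝ a x ≤ (inner ℝ a p : ℝ))).card ≤ (n / X.card + 1) * c := by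
  classical
  obtain ⟨ε, hε, hm⟩ := h.margin hX
  set T := n / X.card + 1 with hT
  -- minimal distance
  obtain ⟨δ, hδ, hsep⟩ : ∃ δ : ℝ, 0 < δ ∧ ∀ x ∈ X, ∀ y ∈ X, x ≠ y → δ < ‖x - y‖ := by
    have hfin : ∀ᶠ δ in 𝓝[>] (0 : ℝ), ∀ x ∈ X, ∀ y ∈ X, x ≠ y → δ < ‖x - y‖ := by
      rw [Filter.eventually_all_finset]
      intro x hx
      rw [Filter.eventually_all_finset]
      intro y hy
      by_cases hxy : x = y
      · exact Filter.Eventually.of_forall (fun _ h' => absurd hxy h')
      · have : (0 : ℝ) < ‖x - y‖ := norm_pos_iff.mpr (sub_ne_zero.mpr hxy)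
        have h1 : ∀ᶠ δ in 𝓝[>] (0 : ℝ), δ < ‖x - y‖ :=
          (gt_mem_nhds this).filter_mono nhdsWithin_le_nhds
        filter_upwards [h1] with δ hδ _
        exact hδ
    obtain ⟨δ, h1, h2⟩ := (hfin.and self_mem_nhdsWithin).exists
    exact ⟨δ, h2, h1⟩
  obtain ⟨e, he⟩ : ∃ e : E4, ‖e‖ = 1 := ⟨EuclideanSpace.single 0 1, by simp⟩
  set η : ℝ := min ε δ / (T : ℝ) with hη
  have hTpos : (0 : ℝ) < (T : ℝ) := by rw [hT]; positivity
  have hηpos : 0 < η := div_pos (lt_min hε hδ) hTpos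
  have hηT : ∀ i : ℕ, i < T → (i : ℝ) * η ≤ min ε δ := by
    intro i hi
    have h1 : (i : ℝ) ≤ (T : ℝ) := by exact_mod_cast hi.le
    calc (i : ℝ) * η ≤ (T : ℝ) * η := mul_le_mul_of_nonneg_right h1 hηpos.le
      _ = min ε δ := by rw [hη]; field_simp
  let f : E4 × ℕ → E4 := fun q => q.1 + ((q.2 : ℝ) * η) • e
  have hinj : Set.InjOn f ((X ×ˢ Finset.range T : Finset (E4 × ℕ)) : Set (E4 × ℕ)) := by
    rintro ⟨x, i⟩ hx ⟨y, j⟩ hy hxy
    simp only [Finset.coe_product, Set.mem_prod, Finset.mem_coe, Finset.mem_range] at hx hy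
    simp only [f] at hxy
    have hxy' : x - y = (((j : ℝ) - (i : ℝ)) * η) • e := by
      have : x - y = ((j : ℝ) * η) • e - ((i : ℝ) * η) • e := by
        rw [sub_eq_sub_iff_add_eq_add, hxy]
        abel
      rw [this, ← sub_smul]; congr 1; ring
    have hxe : x = y := by
      by_contra hne
      have h1 := hsep x hx.1 y hy.1 hne
      rw [hxy', norm_smul, he, mul_one, Real.norm_eq_abs] at h1
      have h2 : |((j : ℝ) - (i : ℝ)) * η| ≤ δ := by
        rw [abs_le]
        have hi := hηT i hx.2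
        have hj := hηT j hy.2
        have hi0 : 0 ≤ (i : ℝ) * η := by positivity
        have hj0 : 0 ≤ (j : ℝ) * η := by positivity
        have hmd : min ε δ ≤ δ := min_le_right _ _
        constructor <;> nlinarith
      linarith
    rw [hxe, sub_self] at hxy'
    have h0 : ((j : ℝ) - (i : ℝ)) * η = 0 := by
      rcases smul_eq_zero.mp hxy'.symm with h0 | h0
      · exact h0
      · rw [h0] at he; simp at he
    have hij : (j : ℝ) = i := by
      rcases mul_eq_zero.mp h0 with h0 | h0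
      · linarith
      · exact absurd h0 hηpos.ne'
    have hij' : j = i := by exact_mod_cast hij
    rw [hxe, hij']
  set Z := (X ×ˢ Finset.range T).image f with hZ
  have hZc : Z.card = X.card * T := by
    rw [hZ, Finset.card_image_of_injOn hinj, Finset.card_product, Finset.card_range]
  have hn : n ≤ Z.card := by
    rw [hZc, hT]
    have := Nat.lt_div_mul_add (a := n) hX
    nlinarith [Nat.div_add_mod n X.card, Nat.mod_lt n hX]
  obtain ⟨Y, hYZ, hYc⟩ := Finset.exists_subset_card_eq hn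
  refine ⟨Y, hYc, fun p u hu => ?_⟩
  obtain ⟨a, ha, hau, hc⟩ := hm p u hu
  refine ⟨a, by intro h0; rw [h0] at ha; simp at ha, hau, _, hc, ?_⟩
  set W := X.filter (fun x => inner ℝ a x ≤ (inner ℝ a p : ℝ) + ε) with hW
  have hsub : Y.filter (fun x => inner ℝ a x ≤ (inner ℝ a p : ℝ)) ⊆
      (W ×ˢ Finset.range T).image f := by
    intro y hy
    rw [Finset.mem_filter] at hy
    have hyZ := hYZ hy.1
    rw [hZ, Finset.mem_image] at hyZ
    obtain ⟨⟨x, i⟩, hxi, rfl⟩ := hyZ
    rw [Finset.mem_product, Finset.mem_range] at hxi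
    rw [Finset.mem_image]
    refine ⟨(x, i), ?_, rfl⟩
    rw [Finset.mem_product, Finset.mem_range, hW, Finset.mem_filter]
    refine ⟨⟨hxi.1, ?_⟩, hxi.2⟩
    have h1 := hy.2
    simp only [f] at h1
    rw [inner_add_right, inner_smul_right] at h1
    have h2 : |(inner ℝ a e : ℝ)| ≤ 1 := by
      have := abs_real_inner_le_norm a e
      rwa [ha, he, one_mul] at this
    have h3 := neg_le_of_abs_le h2
    have h4 := hηT i hxi.2
    have h5 : min ε δ ≤ ε := min_le_left _ _
    have h6 : 0 ≤ (i : ℝ) * η := by positivity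
    simp only at *
    nlinarith
  calc (Y.filter (fun x => inner ℝ a x ≤ (inner ℝ a p : ℝ))).card
      ≤ ((W ×ˢ Finset.range T).image f).card := Finset.card_le_card hsub
    _ ≤ (W ×ˢ Finset.range T).card := Finset.card_image_le
    _ = T * W.card := by rw [Finset.card_product, Finset.card_range, mul_comm]

end DeepFlat
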