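import Mathlib

/-! Working definitions for the deep flats counterexample (d = 4, k = 1).
The set has 24 m points; the n-th one (1 ≤ n ≤ 24 m) has homogeneous coordinates
P m n i = (2^20)^(16^n * rk m n i), where rk m n = (0,1,2,3,4) outside the middle block 7m < n ≤ 14m
and rk m n = (0,2,1,3,4) in the middle block. -/

namespace DeepFlat

open Finset

/-- rank of the coordinate i for the point n -/
def rk (m n : ℕ) (i : Fin 5) : ℕ :=
  if i = 1 then (if 7 * m < n ∧ n ≤ 14 * m then 2 else 1)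
  else if i = 2 then (if 7 * m < n ∧ n ≤ 14 * m then 1 else 2)
  else i.val

/-- the homogeneous coordinates of the point n -/
def P (m n : ℕ) (i : Fin 5) : ℝ := (2 ^ 20 : ℝ) ^ (16 ^ n * rk m n i)

/-- indices n at which the item i is, up to the slack 1, a winner for the vector A -/
noncomputable def MS (m : ℕ) (A : Fin 5 → ℝ) (i : Fin 5) : Finset ℕ :=
  (Icc 1 (24 * m)).filter
    (fun n => ∀ j, A j + (16 : ℝ) ^ n * (rk m n j : ℝ) ≤ A i + (16 : ℝ) ^ n * (rk m n i : ℝ) + 1)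

/-- mass of item i for the vector A -/
noncomputable def M (m : ℕ) (A : Fin 5 → ℝ) (i : Fin 5) : ℕ := (MS m A i).card

/-- raise the entries a and b of A by X -/
noncomputable def shift (A : Fin 5 → ℝ) (a b : Fin 5) (X : ℝ) : Fin 5 → ℝ :=
  fun i => if i = a ∨ i = b then A i + X else A i

/-- the condition along the path of shifts of the pair a, b -/
def HPath (m : ℕ) (A : Fin 5 → ℝ) (a b : Fin 5) : Prop :=
  ∀ X : ℝ, 0 ≤ X →
    8 * m ≤ M m (shift A a b X) a ∨ 8 * m ≤ M m (shift A a b X) b ∨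
    ∀ k, k ≠ a → k ≠ b →
      8 * m ≤ M m (shift A a b X) a + M m (shift A a b X) k ∧
      8 * m ≤ M m (shift A a b X) b + M m (shift A a b X) k

/-- case K: items s 1, s 2, s 3 and the pair s 0, s 4 each have a third of the mass -/
def KCase (m : ℕ) (A : Fin 5 → ℝ) (s : Equiv.Perm (Fin 5)) : Prop :=
  8 * m ≤ M m A (s 1) ∧ 8 * m ≤ M m A (s 2) ∧ 8 * m ≤ M m A (s 3) ∧
  8 * m ≤ M m A (s 0) + M m A (s 4)

/-- case T0: the pair s 0, s 1 is (nearly) absent -/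
def T0Case (m : ℕ) (A : Fin 5 → ℝ) (s : Equiv.Perm (Fin 5)) : Prop :=
  HPath m A (s 0) (s 1) ∧ 8 * m ≤ M m A (s 3) ∧ 8 * m ≤ M m A (s 4) ∧
  8 * m ≤ M m A (s 2) + M m A (s 0) ∧ 8 * m ≤ M m A (s 2) + M m A (s 1)

/-- case Tm: pairs s 0, s 1 and s 3, s 4, middle item s 2 -/
def TmCase (m : ℕ) (A : Fin 5 → ℝ) (s : Equiv.Perm (Fin 5)) : Prop :=
  HPath m A (s 0) (s 1) ∧ HPath m A (s 3) (s 4) ∧ 8 * m ≤ M m A (s 2) ∧
  8 * m ≤ M m A (s 0) + M m A (s 3) ∧ 8 * m ≤ M m A (s 0) + M m A (s 4) ∧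
  8 * m ≤ M m A (s 1) + M m A (s 3) ∧ 8 * m ≤ M m A (s 1) + M m A (s 4)

/-- number of points with nonnegative value of the functional b -/
noncomputable def cnt (m : ℕ) (b : Fin 5 → ℝ) : ℕ :=
  ((Icc 1 (24 * m)).filter (fun n => 0 ≤ ∑ i, b i * P m n i)).card

/-- deepness in the normal form: B i = y i * b i, with sum B i = 0 and sum B i * t i = 0 -/
def Deep (m : ℕ) (y t : Fin 5 → ℝ) : Prop :=
  ∀ B : Fin 5 → ℝ, B ≠ 0 → ∑ i, B i = 0 → ∑ i, B i * t i = 0 →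
    8 * m ≤ cnt m (fun i => B i / y i)

/-! ### Thresholds -/

/-- number of indices n in [1, 24 m] with 16^n ≤ y -/
noncomputable def lev (m : ℕ) (y : ℝ) : ℕ := ((Icc 1 (24 * m)).filter (fun n => (16 : ℝ) ^ n ≤ y)).card

/-- the largest entry of A -/
noncomputable def top (A : Fin 5 → ℝ) : ℝ := Finset.univ.sup' Finset.univ_nonempty A

/-- threshold of item i -/
noncomputable def thr (m : ℕ) (A : Fin 5 → ℝ) (i : Fin 5) : ℕ := lev m (top A - A i + 1)

/-- model masses for given thresholds s: the index n is won by the best ranked item i with s i < n -/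
def mu (m : ℕ) (s : Fin 5 → ℕ) (i : Fin 5) : ℕ :=
  if i = 0 then min (24 * m) (min (s 1) (min (s 2) (min (s 3) (s 4)))) - s 0
  else if i = 1 then
    (min (7 * m) (min (s 2) (min (s 3) (s 4))) - s 1) +
    (min (14 * m) (min (s 3) (s 4)) - max (7 * m) (s 1)) +
    (min (24 * m) (min (s 2) (min (s 3) (s 4))) - max (14 * m) (s 1))
  else if i = 2 then
    (min (7 * m) (min (s 3) (s 4)) - s 2) +
    (min (14 * m) (min (s 1) (min (s 3) (s 4))) - max (7 * m) (s 2)) +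
    (min (24 * m) (min (s 3) (s 4)) - max (14 * m) (s 2))
  else if i = 3 then min (24 * m) (s 4) - s 3
  else 24 * m - s 4

/-- combinatorial form of HPath for the thresholds s; a is the heavier item of the pair, r the mutual threshold -/
def Good (m : ℕ) (s : Fin 5 → ℕ) (a b : Fin 5) : Prop :=
  8 * m ≤ mu m s a + 10 ∨ 8 * m ≤ mu m s b + 10 ∨
    ∀ k, k ≠ a → k ≠ b → 8 * m ≤ mu m s a + mu m s k + 10 ∧ 8 * m ≤ mu m s b + mu m s k + 10

def CPath (m : ℕ) (s : Fin 5 → ℕ) (a b : Fin 5) (r : ℕ) : Prop :=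
  s a ≤ s b ∧ r ≤ s b ∧ (s a + 2 ≤ s b → s b ≤ r + 1) ∧
  (∀ v, 1 ≤ v → v ≤ s a → ∃ s' : Fin 5 → ℕ, s' a = v ∧ max r v ≤ s' b ∧ s' b ≤ max r v + 1 ∧
    (∀ j, j ≠ a → j ≠ b → s' j = s j) ∧ Good m s' a b) ∧
  (∀ l, 1 ≤ l → l ≤ 24 * m → ∃ s' : Fin 5 → ℕ, s' a = 0 ∧ s' b = r ∧
    (∀ j, j ≠ a → j ≠ b → max (s j) l ≤ s' j ∧ s' j ≤ max (s j) l + 1) ∧ Good m s' a b)

end DeepFlat
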