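import Mathlib
import Pool.Agent.Lib.MP_5d7aef_co.Defs

/-! Statements of the modules of the deep flats counterexample. Each is proved in its own file. -/

namespace DeepFlat

open Finset

/-- Module L (file Levels.lean). -/
def LevelsStmt : Prop :=
  (∀ (m : ℕ) (A : Fin 5 → ℝ), (∃ z, thr m A z = 0) ∧ (∀ i, thr m A i ≤ 24 * m)) ∧
  (∀ (m : ℕ) (A : Fin 5 → ℝ) (i : Fin 5),
    M m A i ≤ mu m (thr m A) i + 5 ∧ mu m (thr m A) i ≤ M m A i + 5) ∧
  (∀ (m : ℕ) (A : Fin 5 → ℝ) (a b : Fin 5), a ≠ b → HPath m A a b →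
    ∃ r, CPath m (thr m A) a b r ∨ CPath m (thr m A) b a r)

/-- Module Pl (file Planar.lean). -/
def PlanarStmt : Prop :=
  ∀ (m : ℕ) (y t : Fin 5 → ℝ), 1 ≤ m → (∀ i, 0 < y i) → (∃ i j, t i ≠ t j) → Deep m y t →
    ∃ (A : Fin 5 → ℝ) (s : Equiv.Perm (Fin 5)), KCase m A s ∨ T0Case m A s ∨ TmCase m A s

/-- Module C (file Comb.lean): the three cases are impossible for large m. -/
def CombStmt : Prop :=
  ∃ m : ℕ, 1 ≤ m ∧ ∀ (A : Fin 5 → ℝ) (s : Equiv.Perm (Fin 5)),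
    ¬ KCase m A s ∧ ¬ T0Case m A s ∧ ¬ TmCase m A s

/-- Module G (file Geo.lean): from the normal form to the statement on lines in R^4. -/
def GeoStmt : Prop :=
  ∀ m : ℕ, 1 ≤ m →
    (∀ (y t : Fin 5 → ℝ), (∀ i, 0 < y i) → (∃ i j, t i ≠ t j) → ¬ Deep m y t) →
    ∃ X : Finset (EuclideanSpace ℝ (Fin 4)), X.card = 24 * m ∧
      ∀ L : AffineSubspace ℝ (EuclideanSpace ℝ (Fin 4)),
        (L : Set (EuclideanSpace ℝ (Fin 4))).Nonempty → Module.finrank ℝ L.direction = 1 →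
        ∃ (a : EuclideanSpace ℝ (Fin 4)) (β : ℝ), a ≠ 0 ∧ (∀ x ∈ L, inner ℝ a x ≤ β) ∧
          3 * (X.filter (fun x => inner ℝ a x ≤ β)).card < X.card

end DeepFlat
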