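import Mathlib
import Pool.Agent.Lib.MP_5d7aef_co.Stmts

namespace DeepFlat
open Finset

theorem mu0 (m : ℕ) (s : Fin 5 → ℕ) : mu m s 0 = min (24 * m) (min (s 1) (min (s 2) (min (s 3) (s 4)))) - s 0 := by
  simp [mu]
theorem mu1 (m : ℕ) (s : Fin 5 → ℕ) : mu m s 1 = (min (7 * m) (min (s 2) (min (s 3) (s 4))) - s 1) +
    (min (14 * m) (min (s 3) (s 4)) - max (7 * m) (s 1)) +
    (min (24 * m) (min (s 2) (min (s 3) (s 4))) - max (14 * m) (s 1)) := by
  simp [mu]
theorem mu2 (m : ℕ) (s : Fin 5 → ℕ) : mu m s 2 = (min (7 * m) (min (s 3) (s 4)) - s 2) +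
    (min (14 * m) (min (s 1) (min (s 3) (s 4))) - max (7 * m) (s 2)) +
    (min (24 * m) (min (s 3) (s 4)) - max (14 * m) (s 2)) := by
  simp [mu]
theorem mu3 (m : ℕ) (s : Fin 5 → ℕ) : mu m s 3 = min (24 * m) (s 4) - s 3 := by
  simp [mu]
theorem mu4 (m : ℕ) (s : Fin 5 → ℕ) : mu m s 4 = 24 * m - s 4 := by
  simp [mu]

theorem blk (L H c x y : ℕ) :
    (min H c - max L x) + (min H (min x c) - max L y) = min H c - max L (min x y) := by
  omega

theorem blk0 (H c x y : ℕ) :
    (min H c - x) + (min H (min x c) - y) = min H c - min x y := by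
  omega

theorem blk3 (a b c h z : ℕ) (h1 : a ≤ b) (h2 : b ≤ c) :
    (min a h - z) + (min b h - max a z) + (min c h - max b z) = min c h - z := by
  omega

/-- items 1 and 2 together: everything between min (s 1) (s 2) and h -/
theorem mu12 (m : ℕ) (s : Fin 5 → ℕ) :
    mu m s 1 + mu m s 2 = min (24 * m) (min (s 3) (s 4)) - min (s 1) (s 2) := by
  rw [mu1, mu2]
  generalize min (s 3) (s 4) = h
  generalize s 1 = x1
  generalize s 2 = x2
  have e1 := blk0 (7*m) h x2 x1
  have e2 := blk (7*m) (14*m) h x1 x2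
  have e3 := blk (14*m) (24*m) h x2 x1
  have e4 := blk3 (7*m) (14*m) (24*m) h (min x1 x2) (by omega) (by omega)
  rw [min_comm x2 x1] at e1 e3
  generalize min (7 * m) (min x2 h) - x1 = u1 at *
  generalize min (14 * m) h - max (7 * m) x1 = u2 at *
  generalize min (24 * m) (min x2 h) - max (14 * m) x1 = u3 at *
  generalize min (7 * m) h - x2 = u4 at *
  generalize min (14 * m) (min x1 h) - max (7 * m) x2 = u5 at *
  generalize min (24 * m) h - max (14 * m) x2 = u6 at *
  generalize min (7 * m) h - min x1 x2 = u7 at *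
  generalize min (14 * m) h - max (7 * m) (min x1 x2) = u8 at *
  generalize min (24 * m) h - max (14 * m) (min x1 x2) = u9 at *
  generalize min (24 * m) h - min x1 x2 = u10 at *
  omega

theorem mu_sum (m : ℕ) (s : Fin 5 → ℕ) (hz : ∃ z, s z = 0) :
    mu m s 0 + mu m s 1 + mu m s 2 + mu m s 3 + mu m s 4 = 24 * m := by
  have h12 := mu12 m s
  rw [mu0, mu3, mu4]
  obtain ⟨z, hz⟩ := hz
  fin_cases z <;> simp at hz <;> omega

end DeepFlat
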