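import Mathlib
import Pool.Agent.Lib.MP_5d7aef_co.Comb0

namespace DeepFlat
open Finset

/-- the pair a, b is small, with its path condition -/
def Tiny (m : ℕ) (s : Fin 5 → ℕ) (a b : Fin 5) : Prop :=
  (∃ z, s z = 0) ∧ (∀ i, s i ≤ 24 * m) ∧ (∃ r, CPath m s a b r) ∧
  mu m s a ≤ 3000 ∧ mu m s b ≤ 3000 ∧ ∀ k, k ≠ a → k ≠ b → 8 * m ≤ mu m s k + 3000

theorem Good.at {m : ℕ} {s : Fin 5 → ℕ} {a b : Fin 5} (h : Good m s a b) (k : Fin 5) (h1 : k ≠ a) (h2 : k ≠ b) :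
    8 * m ≤ mu m s a + 10 ∨ 8 * m ≤ mu m s b + 10 ∨
    (8 * m ≤ mu m s a + mu m s k + 10 ∧ 8 * m ≤ mu m s b + mu m s k + 10) := by
  rcases h with h | h | h
  · exact Or.inl h
  · exact Or.inr (Or.inl h)
  · exact Or.inr (Or.inr (h k h1 h2))

theorem mu2_le (m : ℕ) (s : Fin 5 → ℕ) : mu m s 2 ≤ min (24 * m) (min (s 3) (s 4)) - s 2 := by
  rw [mu2]
  generalize min (s 3) (s 4) = h
  have e4 := blk3 (7*m) (14*m) (24*m) h (s 2) (by omega) (by omega)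
  have : min (14 * m) (min (s 1) h) ≤ min (14 * m) h := by omega
  omega

theorem mu1_le (m : ℕ) (s : Fin 5 → ℕ) : mu m s 1 ≤ min (24 * m) (min (s 3) (s 4)) - s 1 := by
  rw [mu1]
  generalize min (s 3) (s 4) = h
  have e4 := blk3 (7*m) (14*m) (24*m) h (s 1) (by omega) (by omega)
  have h1 : min (7 * m) (min (s 2) h) ≤ min (7 * m) h := by omega
  have h2 : min (24 * m) (min (s 2) h) ≤ min (24 * m) h := by omega
  omega

theorem mu1_h (m h : ℕ) (s : Fin 5 → ℕ) (hh : h = min (s 3) (s 4)) (h24 : h ≤ 24 * m) :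
    mu m s 1 = (min (7 * m) (min (s 2) h) - s 1) + (min (14 * m) h - max (7 * m) (s 1)) +
      (min (s 2) h - max (14 * m) (s 1)) := by
  rw [mu1, ← hh]; congr 2; omega

theorem mu2_h (m h : ℕ) (s : Fin 5 → ℕ) (hh : h = min (s 3) (s 4)) (h24 : h ≤ 24 * m) :
    mu m s 2 = (min (7 * m) h - s 2) + (min (14 * m) (min (s 1) h) - max (7 * m) (s 2)) +
      (h - max (14 * m) (s 2)) := by
  rw [mu2, ← hh]; congr 2; omega



/-- bounds for an item-1,2 mass in min-free form -/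
theorem mu2_geB (m : ℕ) (s : Fin 5 → ℕ) : min (7*m) (min (s 3) (s 4)) - s 2 ≤ mu m s 2 := by
  rw [mu2]; exact le_trans (Nat.le_add_right _ _) (Nat.le_add_right _ _)

theorem mu1_geM (m : ℕ) (s : Fin 5 → ℕ) : min (14*m) (min (s 3) (s 4)) - max (7*m) (s 1) ≤ mu m s 1 := by
  rw [mu1]; exact le_trans (Nat.le_add_left _ _) (Nat.le_add_right _ _)

/-- the three alternatives for one k -/
def G3 (m : ℕ) (s : Fin 5 → ℕ) (p q k : Fin 5) : Prop :=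
  8 * m ≤ mu m s p + 10 ∨ 8 * m ≤ mu m s q + 10 ∨
    (8 * m ≤ mu m s p + mu m s k + 10 ∧ 8 * m ≤ mu m s q + mu m s k + 10)

theorem G3.swap {m : ℕ} {s : Fin 5 → ℕ} {p q k : Fin 5} (h : G3 m s p q k) : G3 m s q p k := by
  unfold G3 at *; tauto

theorem Tiny.basic {m : ℕ} {s : Fin 5 → ℕ} {p q : Fin 5} (h : Tiny m s p q ∨ Tiny m s q p) :
    (∃ z, s z = 0) ∧ (∀ i, s i ≤ 24 * m) ∧ mu m s p ≤ 3000 ∧ mu m s q ≤ 3000 ∧
    ∀ k, k ≠ p → k ≠ q → 8 * m ≤ mu m s k + 3000 := by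
  rcases h with ⟨h1, h2, _, h4, h5, h6⟩ | ⟨h1, h2, _, h4, h5, h6⟩
  · exact ⟨h1, h2, h4, h5, h6⟩
  · exact ⟨h1, h2, h5, h4, fun k a b => h6 k b a⟩

theorem Tiny.ltest {m : ℕ} {s : Fin 5 → ℕ} {p q : Fin 5} (h : Tiny m s p q ∨ Tiny m s q p)
    (l : ℕ) (h1 : 1 ≤ l) (h2 : l ≤ 24 * m) (k : Fin 5) (hkp : k ≠ p) (hkq : k ≠ q) :
    ∃ s' : Fin 5 → ℕ, (∃ z, s' z = 0) ∧
      (∀ j, j ≠ p → j ≠ q → max (s j) l ≤ s' j ∧ s' j ≤ max (s j) l + 1) ∧ G3 m s' p q k := by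
  rcases h with ⟨_, _, ⟨r, _, _, _, _, hl⟩, _⟩ | ⟨_, _, ⟨r, _, _, _, _, hl⟩, _⟩
  · obtain ⟨s', e1, e2, e3, hG⟩ := hl l h1 h2
    exact ⟨s', ⟨_, e1⟩, e3, hG.at k hkp hkq⟩
  · obtain ⟨s', e1, e2, e3, hG⟩ := hl l h1 h2
    exact ⟨s', ⟨_, e1⟩, fun j a b => e3 j b a, G3.swap (hG.at k hkq hkp)⟩

theorem Tiny.vtest {m : ℕ} {s : Fin 5 → ℕ} {p q : Fin 5} (h : Tiny m s p q ∨ Tiny m s q p)
    (v : ℕ) (h1 : 1 ≤ v) (hp : v ≤ s p) (hq : v ≤ s q) (k : Fin 5) (hkp : k ≠ p) (hkq : k ≠ q) :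
    ∃ s' : Fin 5 → ℕ, (∃ z, s' z = 0) ∧ (s' p = v ∨ s' q = v) ∧ v ≤ s' p ∧ v ≤ s' q ∧
      (∀ j, j ≠ p → j ≠ q → s' j = s j) ∧ G3 m s' p q k := by
  have hb := Tiny.basic h
  obtain ⟨z, hz⟩ := hb.1
  have hzp : z ≠ p := by rintro rfl; omega
  have hzq : z ≠ q := by rintro rfl; omega
  rcases h with ⟨_, _, ⟨r, _, _, _, hv, _⟩, _⟩ | ⟨_, _, ⟨r, _, _, _, hv, _⟩, _⟩
  · obtain ⟨s', e1, e2, e3, e4, hG⟩ := hv v h1 hp
    exact ⟨s', ⟨z, by rw [e4 z hzp hzq, hz]⟩, Or.inl e1, e1.ge, le_trans (le_max_right _ _) e2, e4,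
      hG.at k hkp hkq⟩
  · obtain ⟨s', e1, e2, e3, e4, hG⟩ := hv v h1 hq
    exact ⟨s', ⟨z, by rw [e4 z hzq hzp, hz]⟩, Or.inr e1, le_trans (le_max_right _ _) e2, e1.ge,
      fun j a b => e4 j b a, G3.swap (hG.at k hkq hkp)⟩

theorem tiny_01 (m : ℕ) (hm : 100000 ≤ m) (s : Fin 5 → ℕ) (h : Tiny m s 0 1 ∨ Tiny m s 1 0) : False := by
  obtain ⟨hz, hs, _, _, hk⟩ := Tiny.basic h
  have k2 := hk 2 (by decide) (by decide)
  have k3 := hk 3 (by decide) (by decide)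
  have k4 := hk 4 (by decide) (by decide)
  have hsum := mu_sum m s hz
  have hs3 := hs 3
  have hs4 := hs 4
  have c4 : mu m s 4 + s 4 = 24 * m := by rw [mu4]; omega
  have c3 : mu m s 3 + s 3 = s 4 := by
    rw [mu3] at k3 ⊢; clear * - k3 hs4 hm; omega
  have u2 : mu m s 2 + s 2 ≤ s 3 := by
    have := mu2_le m s; clear * - this k2 hm; omega
  obtain ⟨s', hz', hj, hG⟩ := Tiny.ltest h (6*m) (by omega) (by omega) 2 (by decide) (by decide)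
  unfold G3 at hG
  have j2 := hj 2 (by decide) (by decide)
  have j3 := hj 3 (by decide) (by decide)
  have j4 := hj 4 (by decide) (by decide)
  have a1 : s 4 ≤ 16 * m + 3000 := by clear * - k4 c4; omega
  have a2 : s 3 ≤ 8 * m + 6000 := by clear * - k3 c3 a1; omega
  have a3 : 16 * m ≤ s 4 + 20000 := by clear * - k3 k2 u2 c3; omega
  have a4 : 8 * m ≤ s 3 + 20000 := by clear * - k2 u2; omega
  have a5 : s 2 ≤ 20000 := by clear * - k2 u2 a2; omega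
  have j2' : 6 * m ≤ s' 2 ∧ s' 2 ≤ 6 * m + 1 := by clear * - j2 a5 hm; omega
  have j3' : s 3 ≤ s' 3 ∧ s' 3 ≤ s 3 + 1 := by clear * - j3 a4 hm; omega
  have j4' : s 4 ≤ s' 4 ∧ s' 4 ≤ s 4 + 1 := by clear * - j4 a3 hm; omega
  clear j2 j3 j4 hj
  have hsum' := mu_sum m s' hz'
  have c4' : mu m s' 4 + s' 4 = 24 * m := by rw [mu4]; clear * - j4' a1 hm; omega
  have c3' : mu m s' 3 + s' 3 = s' 4 := by
    rw [mu3]; clear * - j3' j4' a1 a2 a3 hm; omega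
  have u2' : mu m s' 2 + s' 2 ≤ s' 3 := by
    have := mu2_le m s'; clear * - this j2' j3' a4 hm; omega
  have b2' : m ≤ mu m s' 2 + 1 := by
    have := mu2_geB m s'; clear * - this j2' j3' j4' a4 a3 hm; omega
  clear * - hsum' c4' c3' u2' b2' hG j2' j3' j4' a1 a2 a3 a4 hm
  omega

theorem tiny_02 (m : ℕ) (hm : 100000 ≤ m) (s : Fin 5 → ℕ) (h : Tiny m s 0 2 ∨ Tiny m s 2 0) : False := by
  obtain ⟨hz, hs, _, _, hk⟩ := Tiny.basic h
  have k1 := hk 1 (by decide) (by decide)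
  have k3 := hk 3 (by decide) (by decide)
  have k4 := hk 4 (by decide) (by decide)
  have hs3 := hs 3
  have hs4 := hs 4
  have c4 : mu m s 4 + s 4 = 24 * m := by rw [mu4]; omega
  have c3 : mu m s 3 + s 3 = s 4 := by
    rw [mu3] at k3 ⊢; clear * - k3 hs4 hm; omega
  have u1 : mu m s 1 + s 1 ≤ s 3 := by
    have := mu1_le m s; clear * - this k1 hm; omega
  obtain ⟨s', hz', hj, hG⟩ := Tiny.ltest h (6*m) (by omega) (by omega) 1 (by decide) (by decide)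
  unfold G3 at hG
  have j1 := hj 1 (by decide) (by decide)
  have j3 := hj 3 (by decide) (by decide)
  have j4 := hj 4 (by decide) (by decide)
  have a1 : s 4 ≤ 16 * m + 3000 := by clear * - k4 c4; omega
  have a2 : s 3 ≤ 8 * m + 6000 := by clear * - k3 c3 a1; omega
  have a3 : 16 * m ≤ s 4 + 20000 := by clear * - k3 k1 u1 c3; omega
  have a4 : 8 * m ≤ s 3 + 20000 := by clear * - k1 u1; omega
  have a5 : s 1 ≤ 20000 := by clear * - k1 u1 a2; omega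
  have j1' : 6 * m ≤ s' 1 ∧ s' 1 ≤ 6 * m + 1 := by clear * - j1 a5 hm; omega
  have j3' : s 3 ≤ s' 3 ∧ s' 3 ≤ s 3 + 1 := by clear * - j3 a4 hm; omega
  have j4' : s 4 ≤ s' 4 ∧ s' 4 ≤ s 4 + 1 := by clear * - j4 a3 hm; omega
  clear j1 j3 j4 hj
  have hsum' := mu_sum m s' hz'
  have c4' : mu m s' 4 + s' 4 = 24 * m := by rw [mu4]; clear * - j4' a1 hm; omega
  have c3' : mu m s' 3 + s' 3 = s' 4 := by
    rw [mu3]; clear * - j3' j4' a1 a2 a3 hm; omega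
  have u1' : mu m s' 1 + s' 1 ≤ s' 3 := by
    have := mu1_le m s'; clear * - this j1' j3' a4 hm; omega
  have b1' : m ≤ mu m s' 1 + 20000 := by
    have := mu1_geM m s'; clear * - this j1' j3' j4' a2 a4 a3 hm; omega
  clear * - hsum' c4' c3' u1' b1' hG j1' j3' j4' a1 a2 a3 a4 hm
  omega

theorem tiny_12 (m : ℕ) (hm : 100000 ≤ m) (s : Fin 5 → ℕ) (h : Tiny m s 1 2 ∨ Tiny m s 2 1) : False := by
  obtain ⟨hz, hs, _, _, hk⟩ := Tiny.basic h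
  have k0 := hk 0 (by decide) (by decide)
  have k3 := hk 3 (by decide) (by decide)
  have k4 := hk 4 (by decide) (by decide)
  have hs4 := hs 4
  rw [mu0] at k0
  rw [mu3] at k3
  rw [mu4] at k4
  have q1 : 4 * m ≤ s 1 := by clear * - k0 hm; omega
  have q2 : 4 * m ≤ s 2 := by clear * - k0 hm; omega
  obtain ⟨s', hz', e1, e2, e3, hj, hG⟩ := Tiny.vtest h (4*m) (by omega) q1 q2 0 (by decide) (by decide)
  unfold G3 at hG
  have j3 := hj 3 (by decide) (by decide)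
  have j4 := hj 4 (by decide) (by decide)
  have h12 := mu12 m s'
  have hx : min (s' 1) (s' 2) = 4 * m := by clear * - e1 e2 e3; omega
  rw [hx, j3, j4] at h12
  have hx0 : mu m s' 0 ≤ 4 * m := by
    rw [mu0]; clear * - hx; omega
  have a1 : s 3 ≤ 8 * m + 6000 := by clear * - k3 k4 hs4 hm; omega
  have h12' : mu m s' 1 + mu m s' 2 ≤ 4 * m + 6000 := by clear * - h12 a1 hm; omega
  clear * - h12' hx0 hG hm
  omega

end DeepFlat
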