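import Mathlib
import Pool.Agent.Lib.MP_5d7aef_co.Comb1

/-! Case T0 (a small pair): the remaining pairs. -/

namespace DeepFlat
open Finset

theorem tiny_13 (m : ℕ) (hm : 100000 ≤ m) (s : Fin 5 → ℕ) (h : Tiny m s 1 3 ∨ Tiny m s 3 1) : False := by
  obtain ⟨hz, hs, k1, k3, hk⟩ := Tiny.basic h
  have k0 := hk 0 (by decide) (by decide)
  have k2 := hk 2 (by decide) (by decide)
  have k4 := hk 4 (by decide) (by decide)
  have hs4 := hs 4
  have hsum := mu_sum m s hz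
  have c4 : mu m s 4 + s 4 = 24 * m := by rw [mu4]; omega
  have g0 : 8 * m ≤ s 1 + 3000 ∧ 8 * m ≤ s 2 + 3000 := by
    rw [mu0] at k0; clear * - k0 hm; omega
  obtain ⟨hh, hhd⟩ : ∃ h, h = min (s 3) (s 4) := ⟨_, rfl⟩
  have hh24 : hh ≤ 24 * m := by clear * - hhd hs4; omega
  have h12 := mu12 m s
  rw [← hhd] at h12
  have a0 : 16 * m ≤ hh + 6000 := by
    clear * - h12 k2 g0 hh24; omega
  have f1 := mu1_h m hh s hhd hh24
  have f2 := mu2_h m hh s hhd hh24
  have a1 : s 4 ≤ 16 * m + 3000 := by clear * - k4 c4; omega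
  have a2 : hh ≤ 16 * m + 3000 := by clear * - hhd a1; omega
  have a3 : s 2 ≤ 8 * m + 6000 := by
    have := mu2_le m s; rw [← hhd] at this; clear * - this k2 a2 hm; omega
  have a4 : 14 * m ≤ s 1 + 3000 := by
    clear * - f1 k1 a0 hm; omega
  have a5 : 12 * m ≤ s 3 := by clear * - a0 hhd hm; omega
  obtain ⟨s', hz', e1, e2, e3, hj, hG⟩ := Tiny.vtest h (12*m) (by omega) (by clear * - a4 hm; omega) a5 2 (by decide) (by decide)
  unfold G3 at hG
  have j0 := hj 0 (by decide) (by decide)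
  have j2 := hj 2 (by decide) (by decide)
  have j4 := hj 4 (by decide) (by decide)
  have hsum' := mu_sum m s' hz'
  have m0 : mu m s' 0 + 3000 ≥ 8 * m := by
    have q4 : 12 * m ≤ s 4 := by clear * - a0 hhd hm; omega
    rw [mu0]; rw [mu0] at k0; rw [j0, j2, j4]
    clear * - e2 e3 k0 hm a3 q4; omega
  have c4' : mu m s' 4 + s 4 = 24 * m := by rw [mu4, j4]; omega
  obtain ⟨h', hhd'⟩ : ∃ h, h = min (s' 3) (s' 4) := ⟨_, rfl⟩
  have hh24' : h' ≤ 24 * m := by rw [j4] at hhd'; clear * - hhd' hs4; omega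
  have f2' := mu2_h m h' s' hhd' hh24'
  rw [j2] at f2'
  rw [j4] at hhd'
  have up2 : mu m s' 2 ≤ 6 * m + 12000 := by
    clear * - f2' e1 e2 e3 hhd' a1 a2 a3 g0 hm; omega
  have lo2 : 4 * m ≤ mu m s' 2 + 6000 := by
    clear * - f2' e1 e2 e3 hhd' a0 hhd a1 a2 a3 g0 hm; omega
  clear * - hsum' m0 c4' up2 lo2 hG hm a1
  omega

theorem tiny_23 (m : ℕ) (hm : 100000 ≤ m) (s : Fin 5 → ℕ) (h : Tiny m s 2 3 ∨ Tiny m s 3 2) : False := by
  obtain ⟨hz, hs, k2, k3, hk⟩ := Tiny.basic h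
  have k0 := hk 0 (by decide) (by decide)
  have k1 := hk 1 (by decide) (by decide)
  have k4 := hk 4 (by decide) (by decide)
  have hs4 := hs 4
  have c4 : mu m s 4 + s 4 = 24 * m := by rw [mu4]; omega
  have g0 : 8 * m ≤ s 1 + 3000 ∧ 8 * m ≤ s 2 + 3000 := by
    rw [mu0] at k0; clear * - k0 hm; omega
  obtain ⟨hh, hhd⟩ : ∃ h, h = min (s 3) (s 4) := ⟨_, rfl⟩
  have hh24 : hh ≤ 24 * m := by clear * - hhd hs4; omega
  have h12 := mu12 m s
  rw [← hhd] at h12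
  have a0 : 16 * m ≤ hh + 6000 := by
    clear * - h12 k1 g0 hh24; omega
  have f1 := mu1_h m hh s hhd hh24
  have f2 := mu2_h m hh s hhd hh24
  have a1 : s 4 ≤ 16 * m + 3000 := by clear * - k4 c4; omega
  have a2 : hh ≤ 16 * m + 3000 := by clear * - hhd a1; omega
  have a3 : s 1 ≤ 8 * m + 6000 := by
    have := mu1_le m s; rw [← hhd] at this; clear * - this k1 a2 hm; omega
  have a4 : hh ≤ s 2 + 3000 := by
    clear * - f2 k2 a0 hm; omega
  have a5 : 14 * m ≤ s 3 := by clear * - a0 hhd hm; omega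
  obtain ⟨s', hz', e1, e2, e3, hj, hG⟩ := Tiny.vtest h (14*m) (by omega) (by clear * - a4 a0 hm; omega) a5 1 (by decide) (by decide)
  unfold G3 at hG
  have j0 := hj 0 (by decide) (by decide)
  have j1 := hj 1 (by decide) (by decide)
  have j4 := hj 4 (by decide) (by decide)
  have hsum' := mu_sum m s' hz'
  have m0 : mu m s' 0 + 3000 ≥ 8 * m := by
    have q4 : 12 * m ≤ s 4 := by clear * - a0 hhd hm; omega
    rw [mu0]; rw [mu0] at k0; rw [j0, j1, j4]
    clear * - e2 e3 k0 hm a3 q4; omega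
  have c4' : mu m s' 4 + s 4 = 24 * m := by rw [mu4, j4]; omega
  obtain ⟨h', hhd'⟩ : ∃ h, h = min (s' 3) (s' 4) := ⟨_, rfl⟩
  have hh24' : h' ≤ 24 * m := by rw [j4] at hhd'; clear * - hhd' hs4; omega
  have f1' := mu1_h m h' s' hhd' hh24'
  rw [j1] at f1'
  rw [j4] at hhd'
  have up1 : mu m s' 1 ≤ 6 * m + 12000 := by
    clear * - f1' e1 e2 e3 hhd' a1 a2 a3 g0 hm; omega
  have lo1 : 6 * m ≤ mu m s' 1 + 6000 := by
    clear * - f1' e1 e2 e3 hhd' a0 hhd a1 a2 a3 g0 hm; omega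
  clear * - hsum' m0 c4' up1 lo1 hG hm a1
  omega

theorem tiny_34 (m : ℕ) (hm : 100000 ≤ m) (s : Fin 5 → ℕ) (h : Tiny m s 3 4 ∨ Tiny m s 4 3) : False := by
  obtain ⟨hz, hs, k3, k4, hk⟩ := Tiny.basic h
  have k0 := hk 0 (by decide) (by decide)
  have k1 := hk 1 (by decide) (by decide)
  have k2 := hk 2 (by decide) (by decide)
  have hs4 := hs 4
  have hsum := mu_sum m s hz
  have c4 : 24 * m ≤ s 4 + 3000 := by rw [mu4] at k4; clear * - k4; omega
  have c3 : 24 * m ≤ s 3 + 6000 := by rw [mu3] at k3; clear * - k3 c4; omega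
  have g0 : 8 * m ≤ s 1 + 3000 ∧ 8 * m ≤ s 2 + 3000 := by
    rw [mu0] at k0; clear * - k0 hm; omega
  obtain ⟨hh, hhd⟩ : ∃ h, h = min (s 3) (s 4) := ⟨_, rfl⟩
  have hh24 : hh ≤ 24 * m := by clear * - hhd hs4; omega
  have a0 : 24 * m ≤ hh + 6000 := by clear * - hhd c3 c4; omega
  have h12 := mu12 m s
  rw [← hhd] at h12
  have f2 := mu2_h m hh s hhd hh24
  have u2 : mu m s 2 ≤ 8 * m + 6000 := by clear * - hsum k0 k1; omega
  have v12 : min (s 1) (s 2) ≤ 8 * m + 6000 := by clear * - h12 k1 k2 hh24 hm; omega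
  obtain ⟨s', hz', e1, e2, e3, hj, hG⟩ := Tiny.vtest h (20*m) (by omega) (by clear * - c3 hm; omega)
    (by clear * - c4 hm; omega) 2 (by decide) (by decide)
  unfold G3 at hG
  have j0 := hj 0 (by decide) (by decide)
  have j1 := hj 1 (by decide) (by decide)
  have j2 := hj 2 (by decide) (by decide)
  have hsum' := mu_sum m s' hz'
  have m0 : mu m s' 0 + 3000 ≥ 8 * m := by
    rw [mu0]; rw [mu0] at k0; rw [j0, j1, j2]
    clear * - e2 e3 k0 hm v12; omega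
  obtain ⟨h', hhd'⟩ : ∃ h, h = min (s' 3) (s' 4) := ⟨_, rfl⟩
  have hx : h' = 20 * m := by clear * - hhd' e1 e2 e3; omega
  have h12' := mu12 m s'
  rw [← hhd', hx, j1, j2] at h12'
  have f2' := mu2_h m h' s' hhd' (by omega)
  rw [j1, j2, hx] at f2'
  have lo12 : 12 * m ≤ mu m s' 1 + mu m s' 2 + 6000 := by clear * - h12' v12; omega
  have s2b : s 2 ≤ 17 * m := by
    clear * - f2 k2 a0 hh24 hm; omega
  have up2 : mu m s' 2 + 4 * m ≤ mu m s 2 + 6000 := by
    clear * - f2' f2 a0 hh24 s2b hm; omega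
  clear * - hsum' m0 lo12 up2 u2 hG hm
  omega

end DeepFlat
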