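import Mathlib
import Pool.Agent.Lib.MP_5d7aef_co.Comb1

/-! Case T0 (a small pair): the pairs 03, 04, 14, 24, where the mutual threshold r matters. -/

namespace DeepFlat
open Finset

theorem aux12 (m hh s1 s2 M1 M2 : ℕ) (hm : 100000 ≤ m) (a2 : hh ≤ 16 * m + 3000) (a0 : 16 * m ≤ hh + 6000)
    (f1 : M1 = (min (7 * m) (min s2 hh) - s1) + (min (14 * m) hh - max (7 * m) s1) +
      (min s2 hh - max (14 * m) s1))
    (f2 : M2 = (min (7 * m) hh - s2) + (min (14 * m) (min s1 hh) - max (7 * m) s2) +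
      (hh - max (14 * m) s2)) (k1 : 8 * m ≤ M1 + 3000) (k2 : 8 * m ≤ M2 + 3000) (u2 : M2 ≤ hh - s2) :
    s2 ≤ m + 6000 ∧ s1 ≤ 9000 := by
  have b0 : s2 ≤ 8 * m + 6000 := by clear * - u2 k2 a2 hm; omega
  have e1 : min s2 hh - max (14 * m) s1 = 0 := by clear * - b0 hm; omega
  have e2 : min (14 * m) hh = 14 * m := by clear * - a0 hm; omega
  rw [e1, e2] at f1
  have b1 : s1 ≤ 6 * m + 3000 ∧ s1 + m ≤ s2 + 3000 := by
    clear * - f1 k1 hm; omega
  have e3 : min (14 * m) (min s1 hh) - max (7 * m) s2 = 0 := by clear * - b1 hm; omega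
  rw [e3] at f2
  have b2 : s2 ≤ m + 6000 := by clear * - f2 k2 a2 hm; omega
  exact ⟨b2, by omega⟩

theorem tiny_03 (m : ℕ) (hm : 100000 ≤ m) (s : Fin 5 → ℕ) (h : Tiny m s 0 3 ∨ Tiny m s 3 0) : False := by
  obtain ⟨hz, hs, k0, k3, hk⟩ := Tiny.basic h
  have k1 := hk 1 (by decide) (by decide)
  have k2 := hk 2 (by decide) (by decide)
  have k4 := hk 4 (by decide) (by decide)
  have hs4 := hs 4
  have c4 : mu m s 4 + s 4 = 24 * m := by rw [mu4]; omega
  obtain ⟨hh, hhd⟩ : ∃ h, h = min (s 3) (s 4) := ⟨_, rfl⟩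
  have hh24 : hh ≤ 24 * m := by clear * - hhd hs4; omega
  have h12 := mu12 m s
  rw [← hhd] at h12
  have a0 : 16 * m ≤ hh + 6000 := by clear * - h12 k1 k2 hh24 hm; omega
  have f1 := mu1_h m hh s hhd hh24
  have f2 := mu2_h m hh s hhd hh24
  have a1 : s 4 ≤ 16 * m + 3000 := by clear * - k4 c4; omega
  have a2 : hh ≤ 16 * m + 3000 := by clear * - hhd a1; omega
  have u2 := mu2_le m s
  rw [← hhd] at u2
  have u2' : mu m s 2 ≤ hh - s 2 := by clear * - u2; omega
  obtain ⟨b2, b1⟩ := aux12 m hh (s 1) (s 2) _ _ hm a2 a0 f1 f2 k1 k2 u2'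
  have a3 : 16 * m ≤ s 3 + 6000 := by clear * - a0 hhd; omega
  have a4 : 16 * m ≤ s 4 + 6000 := by clear * - a0 hhd; omega
  -- the v-test at 12 m
  have vt : ∀ s' : Fin 5 → ℕ, 12 * m ≤ s' 0 → 12 * m ≤ s' 3 → s' 3 ≤ 12 * m + 1 →
      (∀ j, j ≠ 0 → j ≠ 3 → s' j = s j) → G3 m s' 0 3 1 → False := by
    intro s' q0 q3 q3' hj hG
    unfold G3 at hG
    have j1 := hj 1 (by decide) (by decide)
    have j2 := hj 2 (by decide) (by decide)
    have j4 := hj 4 (by decide) (by decide)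
    have m0 : mu m s' 0 = 0 := by rw [mu0, j1]; clear * - q0 b1 hm; omega
    have m3 : mu m s' 3 ≤ 4 * m + 3000 := by rw [mu3, j4]; clear * - q3 a1 hm; omega
    have f1' := mu1_h m (s' 3) s' (by rw [j4]; clear * - q3' a4 hm; omega) (by clear * - q3' hm; omega)
    rw [j1, j2] at f1'
    have m1 : mu m s' 1 ≤ 6 * m + 6010 := by clear * - f1' q3' b2 hm; omega
    clear * - m0 m3 m1 hG hm
    omega
  rcases h with h | h
  · obtain ⟨_, _, ⟨r, hle, hr, hrb, hv, hl⟩, _⟩ := h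
    by_cases hB : 12 * m ≤ s 0 ∧ r ≤ 12 * m
    · obtain ⟨s', e1, e2, e3, e4, hG⟩ := hv (12 * m) (by omega) hB.1
      have hx : max r (12 * m) = 12 * m := by omega
      rw [hx] at e2 e3
      exact vt s' (by omega) e2 e3 e4 (hG.at 1 (by decide) (by decide))
    · have hr12 : 12 * m ≤ r := by
        clear * - hB hrb a3 hm
        by_cases q : 12 * m ≤ s 0
        · omega
        · have := hrb (by omega)
          omega
      obtain ⟨s', e1, e2, e3, hG⟩ := hl (4 * m) (by omega) (by omega)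
      have hG := hG.at 2 (by decide) (by decide)
      have j1 := e3 1 (by decide) (by decide)
      have j2 := e3 2 (by decide) (by decide)
      have j4 := e3 4 (by decide) (by decide)
      have j1' : 4 * m ≤ s' 1 ∧ s' 1 ≤ 4 * m + 1 := by clear * - j1 b1 hm; omega
      have j2' : 4 * m ≤ s' 2 ∧ s' 2 ≤ 4 * m + 1 := by clear * - j2 b2 hm; omega
      have j4' : s 4 ≤ s' 4 ∧ s' 4 ≤ s 4 + 1 := by clear * - j4 a4 hm; omega
      have m0 : mu m s' 0 ≤ 4 * m + 1 := by rw [mu0]; clear * - j1'; omega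
      have m3 : mu m s' 3 ≤ s 4 + 1 - r := by rw [mu3, e2]; clear * - j4'; omega
      obtain ⟨h', hhd'⟩ : ∃ h, h = min (s' 3) (s' 4) := ⟨_, rfl⟩
      rw [e2] at hhd'
      have hh24' : h' ≤ 24 * m := by clear * - hhd' j4' a1 hm; omega
      have f2' := mu2_h m h' s' (by rw [e2]; exact hhd') hh24'
      have z2 : min (14 * m) (min (s' 1) h') - max (7 * m) (s' 2) = 0 := by clear * - j1' hm; omega
      rw [z2] at f2'
      have m2 : mu m s' 2 ≤ 3 * m + (h' - 14 * m) := by clear * - f2' j2'; omega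
      have hh' : h' ≤ r := by clear * - hhd'; omega
      have hh'' : h' ≤ s 4 + 1 := by clear * - hhd' j4'; omega
      clear * - m0 m3 m2 hh' hh'' hG hm a1 hr12 a4
      omega
  · obtain ⟨_, _, ⟨r, hle, hr, hrb, hv, hl⟩, _⟩ := h
    obtain ⟨s', e1, e2, e3, e4, hG⟩ := hv (12 * m) (by omega) (by omega)
    exact vt s' (le_trans (le_max_right _ _) e2) e1.ge (by omega) (fun j a b => e4 j b a)
      (G3.swap (hG.at 1 (by decide) (by decide)))

theorem tiny_04 (m : ℕ) (hm : 100000 ≤ m) (s : Fin 5 → ℕ) (h : Tiny m s 0 4 ∨ Tiny m s 4 0) : False := by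
  obtain ⟨hz, hs, k0, k4, hk⟩ := Tiny.basic h
  have k1 := hk 1 (by decide) (by decide)
  have k2 := hk 2 (by decide) (by decide)
  have k3 := hk 3 (by decide) (by decide)
  have hs4 := hs 4
  have c4 : 24 * m ≤ s 4 + 3000 := by rw [mu4] at k4; clear * - k4; omega
  have c3 : mu m s 3 + s 3 = s 4 := by rw [mu3] at k3 ⊢; clear * - k3 hs4 hm; omega
  have a2 : s 3 ≤ 16 * m + 3000 := by clear * - c3 k3 hs4; omega
  have hhd : s 3 = min (s 3) (s 4) := by clear * - c3; omega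
  have h12 := mu12 m s
  rw [← hhd] at h12
  have a0 : 16 * m ≤ s 3 + 6000 := by clear * - h12 k1 k2 a2 hm; omega
  have f1 := mu1_h m (s 3) s hhd (by omega)
  have f2 := mu2_h m (s 3) s hhd (by omega)
  have u2 := mu2_le m s
  rw [← hhd] at u2
  have u2' : mu m s 2 ≤ s 3 - s 2 := by clear * - u2; omega
  obtain ⟨b2, b1⟩ := aux12 m (s 3) (s 1) (s 2) _ _ hm a2 a0 f1 f2 k1 k2 u2'
  have vt : ∀ s' : Fin 5 → ℕ, 20 * m ≤ s' 0 → 20 * m ≤ s' 4 → s' 4 ≤ 22 * m + 1 →
      (∀ j, j ≠ 0 → j ≠ 4 → s' j = s j) → G3 m s' 0 4 3 → False := by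
    intro s' q0 q3 q3' hj hG
    unfold G3 at hG
    have j1 := hj 1 (by decide) (by decide)
    have j3 := hj 3 (by decide) (by decide)
    have m0 : mu m s' 0 = 0 := by rw [mu0, j1]; clear * - q0 b1 hm; omega
    have m4 : mu m s' 4 ≤ 4 * m := by rw [mu4]; clear * - q3; omega
    have m3 : mu m s' 3 ≤ 6 * m + 6001 := by rw [mu3, j3]; clear * - q3' a0; omega
    clear * - m0 m3 m4 hG hm
    omega
  rcases h with h | h
  · obtain ⟨_, _, ⟨r, hle, hr, hrb, hv, hl⟩, _⟩ := h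
    by_cases hB : 20 * m ≤ s 0 ∧ r ≤ 22 * m
    · obtain ⟨s', e1, e2, e3, e4, hG⟩ := hv (20 * m) (by omega) hB.1
      exact vt s' (by omega) (le_trans (le_max_right _ _) e2) (by clear * - e3 hB; omega) e4
        (hG.at 3 (by decide) (by decide))
    · have hr12 : 22 * m ≤ r := by
        clear * - hB hrb c4 hm
        by_cases q : 20 * m ≤ s 0
        · omega
        · have := hrb (by omega)
          omega
      obtain ⟨s', e1, e2, e3, hG⟩ := hl (4 * m) (by omega) (by omega)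
      have hG := hG.at 2 (by decide) (by decide)
      have j1 := e3 1 (by decide) (by decide)
      have j2 := e3 2 (by decide) (by decide)
      have j3 := e3 3 (by decide) (by decide)
      have j1' : 4 * m ≤ s' 1 ∧ s' 1 ≤ 4 * m + 1 := by clear * - j1 b1 hm; omega
      have j2' : 4 * m ≤ s' 2 ∧ s' 2 ≤ 4 * m + 1 := by clear * - j2 b2 hm; omega
      have j3' : s 3 ≤ s' 3 ∧ s' 3 ≤ s 3 + 1 := by clear * - j3 a0 hm; omega
      have m0 : mu m s' 0 ≤ 4 * m + 1 := by rw [mu0]; clear * - j1'; omega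
      have m4 : mu m s' 4 ≤ 2 * m := by rw [mu4, e2]; clear * - hr12; omega
      have f2' := mu2_h m (s' 3) s' (by rw [e2]; clear * - j3' a2 hr12 hm; omega) (by clear * - j3' a2 hm; omega)
      have z2 : min (14 * m) (min (s' 1) (s' 3)) - max (7 * m) (s' 2) = 0 := by clear * - j1' hm; omega
      rw [z2] at f2'
      have m2 : mu m s' 2 ≤ 5 * m + 3001 := by clear * - f2' j2' j3' a2; omega
      clear * - m0 m4 m2 hG hm
      omega
  · obtain ⟨_, _, ⟨r, hle, hr, hrb, hv, hl⟩, _⟩ := h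
    obtain ⟨s', e1, e2, e3, e4, hG⟩ := hv (20 * m) (by omega) (by omega)
    exact vt s' (le_trans (le_max_right _ _) e2) e1.ge (by omega) (fun j a b => e4 j b a)
      (G3.swap (hG.at 3 (by decide) (by decide)))

theorem tiny_14 (m : ℕ) (hm : 100000 ≤ m) (s : Fin 5 → ℕ) (h : Tiny m s 1 4 ∨ Tiny m s 4 1) : False := by
  obtain ⟨hz, hs, k1, k4, hk⟩ := Tiny.basic h
  have k0 := hk 0 (by decide) (by decide)
  have k2 := hk 2 (by decide) (by decide)
  have k3 := hk 3 (by decide) (by decide)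
  have hs4 := hs 4
  have c4 : 24 * m ≤ s 4 + 3000 := by rw [mu4] at k4; clear * - k4; omega
  have c3 : mu m s 3 + s 3 = s 4 := by rw [mu3] at k3 ⊢; clear * - k3 hs4 hm; omega
  have a2 : s 3 ≤ 16 * m + 3000 := by clear * - c3 k3 hs4; omega
  have hhd : s 3 = min (s 3) (s 4) := by clear * - c3; omega
  have g0 : 8 * m ≤ s 1 + 3000 ∧ 8 * m ≤ s 2 + 3000 := by
    rw [mu0] at k0; clear * - k0 hm; omega
  have h12 := mu12 m s
  rw [← hhd] at h12
  have a0 : 16 * m ≤ s 3 + 6000 := by clear * - h12 k2 g0 a2 hm; omega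
  have f1 := mu1_h m (s 3) s hhd (by omega)
  have u2 := mu2_le m s
  rw [← hhd] at u2
  have b2 : s 2 ≤ 8 * m + 6000 := by clear * - u2 k2 a2 hm; omega
  have b1 : 14 * m ≤ s 1 + 3000 := by clear * - f1 k1 a0 hm; omega
  have vt : ∀ s' : Fin 5 → ℕ, 20 * m ≤ s' 1 → 20 * m ≤ s' 4 → 2 * s' 4 ≤ 45 * m + 4 →
      (∀ j, j ≠ 1 → j ≠ 4 → s' j = s j) → G3 m s' 1 4 3 → False := by
    intro s' q0 q3 q3' hj hG
    unfold G3 at hG
    have j3 := hj 3 (by decide) (by decide)
    have m4 : mu m s' 4 ≤ 4 * m := by rw [mu4]; clear * - q3; omega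
    have m3 : 2 * mu m s' 3 ≤ 13 * m + 12010 := by rw [mu3, j3]; clear * - q3' a0; omega
    have u1 := mu1_le m s'
    rw [j3] at u1
    have m1 : mu m s' 1 = 0 := by clear * - u1 q0 a2 hm; omega
    clear * - m1 m3 m4 hG hm
    omega
  rcases h with h | h
  · obtain ⟨_, _, ⟨r, hle, hr, hrb, hv, hl⟩, _⟩ := h
    by_cases hB : 20 * m ≤ s 1 ∧ 2 * r ≤ 45 * m
    · obtain ⟨s', e1, e2, e3, e4, hG⟩ := hv (20 * m) (by omega) hB.1
      exact vt s' (by omega) (le_trans (le_max_right _ _) e2) (by clear * - e3 hB; omega) e4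
        (hG.at 3 (by decide) (by decide))
    · have hr12 : 45 * m ≤ 2 * r := by
        clear * - hB hrb c4 hm
        by_cases q : 20 * m ≤ s 1
        · omega
        · have := hrb (by omega)
          omega
      obtain ⟨s', e1, e2, e3, e4, hG⟩ := hv (12 * m) (by omega) (by clear * - b1 hm; omega)
      have hG := hG.at 2 (by decide) (by decide)
      have j2 := e4 2 (by decide) (by decide)
      have j3 := e4 3 (by decide) (by decide)
      have e2' : r ≤ s' 4 := le_trans (le_max_left _ _) e2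
      have m4 : 2 * mu m s' 4 ≤ 3 * m := by rw [mu4]; clear * - e2' hr12; omega
      have hx : s 3 = min (s' 3) (s' 4) := by rw [j3]; clear * - a2 e2' hr12 hm; omega
      have f2' := mu2_h m (s 3) s' hx (by omega)
      have f1' := mu1_h m (s 3) s' hx (by omega)
      rw [e1, j2] at f2' f1'
      have m2 : mu m s' 2 ≤ 6 * m + 6000 := by clear * - f2' g0 a2 hm; omega
      have m1 : mu m s' 1 ≤ 2 * m := by clear * - f1' b2 hm; omega
      clear * - m1 m4 m2 hG hm
      omega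
  · obtain ⟨_, _, ⟨r, hle, hr, hrb, hv, hl⟩, _⟩ := h
    obtain ⟨s', e1, e2, e3, e4, hG⟩ := hv (20 * m) (by omega) (by omega)
    exact vt s' (le_trans (le_max_right _ _) e2) e1.ge (by omega) (fun j a b => e4 j b a)
      (G3.swap (hG.at 3 (by decide) (by decide)))

theorem tiny_24 (m : ℕ) (hm : 100000 ≤ m) (s : Fin 5 → ℕ) (h : Tiny m s 2 4 ∨ Tiny m s 4 2) : False := by
  obtain ⟨hz, hs, k2, k4, hk⟩ := Tiny.basic h
  have k0 := hk 0 (by decide) (by decide)
  have k1 := hk 1 (by decide) (by decide)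
  have k3 := hk 3 (by decide) (by decide)
  have hs4 := hs 4
  have c4 : 24 * m ≤ s 4 + 3000 := by rw [mu4] at k4; clear * - k4; omega
  have c3 : mu m s 3 + s 3 = s 4 := by rw [mu3] at k3 ⊢; clear * - k3 hs4 hm; omega
  have a2 : s 3 ≤ 16 * m + 3000 := by clear * - c3 k3 hs4; omega
  have hhd : s 3 = min (s 3) (s 4) := by clear * - c3; omega
  have g0 : 8 * m ≤ s 1 + 3000 ∧ 8 * m ≤ s 2 + 3000 := by
    rw [mu0] at k0; clear * - k0 hm; omega
  have h12 := mu12 m s
  rw [← hhd] at h12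
  have a0 : 16 * m ≤ s 3 + 6000 := by clear * - h12 k1 g0 a2 hm; omega
  have f2 := mu2_h m (s 3) s hhd (by omega)
  have u1 := mu1_le m s
  rw [← hhd] at u1
  have b1 : s 1 ≤ 8 * m + 6000 := by clear * - u1 k1 a2 hm; omega
  have b2 : s 3 ≤ s 2 + 3000 := by clear * - f2 k2 a0 hm; omega
  have vt : ∀ s' : Fin 5 → ℕ, 20 * m ≤ s' 2 → 20 * m ≤ s' 4 → 2 * s' 4 ≤ 45 * m + 4 →
      (∀ j, j ≠ 2 → j ≠ 4 → s' j = s j) → G3 m s' 2 4 3 → False := by
    intro s' q0 q3 q3' hj hG
    unfold G3 at hG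
    have j3 := hj 3 (by decide) (by decide)
    have m4 : mu m s' 4 ≤ 4 * m := by rw [mu4]; clear * - q3; omega
    have m3 : 2 * mu m s' 3 ≤ 13 * m + 12010 := by rw [mu3, j3]; clear * - q3' a0; omega
    have u2 := mu2_le m s'
    rw [j3] at u2
    have m2 : mu m s' 2 = 0 := by clear * - u2 q0 a2 hm; omega
    clear * - m2 m3 m4 hG hm
    omega
  rcases h with h | h
  · obtain ⟨_, _, ⟨r, hle, hr, hrb, hv, hl⟩, _⟩ := h
    by_cases hB : 20 * m ≤ s 2 ∧ 2 * r ≤ 45 * m
    · obtain ⟨s', e1, e2, e3, e4, hG⟩ := hv (20 * m) (by omega) hB.1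
      exact vt s' (by omega) (le_trans (le_max_right _ _) e2) (by clear * - e3 hB; omega) e4
        (hG.at 3 (by decide) (by decide))
    · have hr12 : 45 * m ≤ 2 * r := by
        clear * - hB hrb c4 hm
        by_cases q : 20 * m ≤ s 2
        · omega
        · have := hrb (by omega)
          omega
      obtain ⟨s', e1, e2, e3, e4, hG⟩ := hv (14 * m) (by omega) (by clear * - b2 a0 hm; omega)
      have hG := hG.at 1 (by decide) (by decide)
      have j1 := e4 1 (by decide) (by decide)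
      have j3 := e4 3 (by decide) (by decide)
      have e2' : r ≤ s' 4 := le_trans (le_max_left _ _) e2
      have m4 : 2 * mu m s' 4 ≤ 3 * m := by rw [mu4]; clear * - e2' hr12; omega
      have hx : s 3 = min (s' 3) (s' 4) := by rw [j3]; clear * - a2 e2' hr12 hm; omega
      have f2' := mu2_h m (s 3) s' hx (by omega)
      have f1' := mu1_h m (s 3) s' hx (by omega)
      rw [e1, j1] at f2' f1'
      have m1 : mu m s' 1 ≤ 6 * m + 6000 := by clear * - f1' g0 a2 hm; omega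
      have m2 : mu m s' 2 ≤ 2 * m + 3000 := by clear * - f2' a2 b1 hm; omega
      clear * - m1 m4 m2 hG hm
      omega
  · obtain ⟨_, _, ⟨r, hle, hr, hrb, hv, hl⟩, _⟩ := h
    obtain ⟨s', e1, e2, e3, e4, hG⟩ := hv (20 * m) (by omega) (by omega)
    exact vt s' (le_trans (le_max_right _ _) e2) e1.ge (by omega) (fun j a b => e4 j b a)
      (G3.swap (hG.at 3 (by decide) (by decide)))

end DeepFlat
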