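import Mathlib
import Pool.Agent.Lib.MP_5d7aef_co.Comb1

/-! Case Tm (nontiny): common facts and the two kinds of tests. -/

namespace DeepFlat
open Finset

/-- the pairs a, b and c, d, the middle item e; all masses at least 2000 -/
def TmC (m : ℕ) (s : Fin 5 → ℕ) (a b e c d : Fin 5) : Prop :=
  (∃ z, s z = 0) ∧ (∀ i, s i ≤ 24 * m) ∧
  (∃ r, CPath m s a b r ∨ CPath m s b a r) ∧ (∃ r, CPath m s c d r ∨ CPath m s d c r) ∧
  8 * m ≤ mu m s e + 5 ∧ 8 * m ≤ mu m s a + mu m s c + 10 ∧ 8 * m ≤ mu m s a + mu m s d + 10 ∧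
  8 * m ≤ mu m s b + mu m s c + 10 ∧ 8 * m ≤ mu m s b + mu m s d + 10 ∧ ∀ i, 2000 ≤ mu m s i

/-- basic facts in the nontiny case: item 0 is on top, s 1, s 2 < s 3 < s 4 -/
theorem nontiny_facts {m : ℕ} {s : Fin 5 → ℕ} (hz : ∃ z, s z = 0)
    (hs : ∀ i, s i ≤ 24 * m) (h : ∀ i, 2000 ≤ mu m s i) :
    s 0 = 0 ∧ mu m s 0 = min (s 1) (s 2) ∧ s 1 + mu m s 1 ≤ s 3 ∧ s 2 + mu m s 2 ≤ s 3 ∧
    s 3 + mu m s 3 = s 4 ∧ s 4 + mu m s 4 = 24 * m ∧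
    mu m s 1 + mu m s 2 + min (s 1) (s 2) = s 3 := by
  have k0 := h 0
  have k1 := h 1
  have k2 := h 2
  have k3 := h 3
  have k4 := h 4
  have s4 := hs 4
  have e4 := mu4 m s
  have e3 := mu3 m s
  have f3 : s 3 + mu m s 3 = s 4 := by clear * - e3 k3 s4; omega
  have f4 : s 4 + mu m s 4 = 24 * m := by clear * - e4 s4; omega
  have f1 : s 1 + mu m s 1 ≤ s 3 := by have := mu1_le m s; clear * - this k1; omega
  have f2 : s 2 + mu m s 2 ≤ s 3 := by have := mu2_le m s; clear * - this k2; omega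
  have f12 : mu m s 1 + mu m s 2 + min (s 1) (s 2) = s 3 := by
    have := mu12 m s; clear * - this f1 f2 f3 f4 k1 k2; omega
  have e0 := mu0 m s
  have g0 : mu m s 0 = min (s 1) (s 2) - s 0 := by clear * - e0 f1 f2 f3 f4; omega
  have s0 : s 0 = 0 := by
    obtain ⟨z, hz⟩ := hz
    fin_cases z
    · exact hz
    all_goals (simp at hz; clear * - hz k0 g0 f1 f2 f3 f4; omega)
  exact ⟨s0, by rw [g0, s0]; rfl, f1, f2, f3, f4, f12⟩

/-- test for a pair 0, w (item 0 on top): all the others are unavailable up to l -/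
theorem TmC.ltest {m : ℕ} {s : Fin 5 → ℕ} (h0 : s 0 = 0) (w : Fin 5) (hw : 2 ≤ s w)
    (hP : ∃ r, CPath m s 0 w r ∨ CPath m s w 0 r) (l : ℕ) (h1 : 1 ≤ l) (h2 : l ≤ 24 * m) :
    ∃ s' : Fin 5 → ℕ, s' 0 = 0 ∧ s w ≤ s' w + 1 ∧ s' w ≤ s w ∧
      (∀ j, j ≠ 0 → j ≠ w → max (s j) l ≤ s' j ∧ s' j ≤ max (s j) l + 1) ∧ Good m s' 0 w := by
  obtain ⟨r, hP | hP⟩ := hP
  · obtain ⟨hle, hr, hrb, _, hl⟩ := hP
    obtain ⟨s', e1, e2, e3, hG⟩ := hl l h1 h2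
    exact ⟨s', e1, by rw [e2]; exact hrb (by omega), by rw [e2]; exact hr, e3, hG⟩
  · exfalso; have := hP.1; omega

/-- test for a pair y, z with y heavier: the threshold of y is lowered to v -/
theorem TmC.vtest {m : ℕ} {s : Fin 5 → ℕ} (y z : Fin 5) (hyz : s y + 2 ≤ s z)
    (hP : ∃ r, CPath m s y z r ∨ CPath m s z y r) (v : ℕ) (h1 : 1 ≤ v) (h2 : v ≤ s y) :
    ∃ s' : Fin 5 → ℕ, s' y = v ∧ s z ≤ s' z + 1 ∧ s' z ≤ s z + 1 ∧
      (∀ j, j ≠ y → j ≠ z → s' j = s j) ∧ Good m s' y z := by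
  obtain ⟨r, hP | hP⟩ := hP
  · obtain ⟨hle, hr, hrb, hv, _⟩ := hP
    obtain ⟨s', e1, e2, e3, e4, hG⟩ := hv v h1 h2
    have := hrb hyz
    exact ⟨s', e1, by omega, by omega, e4, hG⟩
  · exfalso; have := hP.1; omega

end DeepFlat
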