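import Mathlib
import Pool.Agent.Lib.MP_5d7aef_co.Comb2

/-! Case Tm, types with middle item 0. -/

namespace DeepFlat
open Finset

theorem tm_12_0_34 (m : ℕ) (_hm : 100000 ≤ m) (s : Fin 5 → ℕ) : ¬ TmC m s 1 2 0 3 4 := by
  rintro ⟨hz, hs, _, hP', ge, g13, g14, g23, g24, hall⟩
  obtain ⟨f00, f0, f1, f2, f3, f4, f12⟩ := nontiny_facts hz hs hall
  have k1 := hall 1
  have k2 := hall 2
  have k3 := hall 3
  have k4 := hall 4
  have hsum := mu_sum m s hz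
  have r12 : mu m s 1 ≤ mu m s 2 + 30 ∧ mu m s 2 ≤ mu m s 1 + 30 := by
    clear * - hsum ge g13 g14 g23 g24; omega
  have r34 : mu m s 3 ≤ mu m s 4 + 30 ∧ mu m s 4 ≤ mu m s 3 + 30 := by
    clear * - hsum ge g13 g14 g23 g24; omega
  have rq : mu m s 1 + mu m s 4 ≤ 8 * m + 30 ∧ mu m s 2 + mu m s 4 ≤ 8 * m + 30 := by
    clear * - hsum ge g13 g14 g23 g24; omega
  have y2 : s 3 + 2 ≤ s 4 := by clear * - f3 k3; omega
  obtain ⟨v, hv⟩ : ∃ v, v = s 3 - 1000 := ⟨_, rfl⟩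
  have v1 : 1 ≤ v := by clear * - hv f1 k1; omega
  have v2 : v ≤ s 3 := by clear * - hv; omega
  obtain ⟨s', e1, e2, e3, ej, hG⟩ := TmC.vtest 3 4 y2 hP' v v1 v2
  have j1 : s' 1 = s 1 := ej 1 (by decide) (by decide)
  have j2 : s' 2 = s 2 := ej 2 (by decide) (by decide)
  have h12 := mu12 m s'
  rw [j1, j2] at h12
  have u12 : mu m s' 1 + mu m s' 2 + 1000 ≤ mu m s 1 + mu m s 2 := by
    clear * - h12 e1 hv f12 f1 f2 k1 k2; omega
  have u3 : mu m s' 3 ≤ mu m s 3 + 1002 := by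
    rw [mu3, e1]; clear * - e3 hv f3 f4 f1 k1; omega
  have u4 : mu m s' 4 ≤ mu m s 4 + 1 := by
    rw [mu4]; clear * - e2 f4; omega
  have G1 := hG.at 1 (by decide) (by decide)
  have G2 := hG.at 2 (by decide) (by decide)
  clear * - G1 G2 u12 u3 u4 r12 r34 rq k1 k2 k3 k4
  omega

theorem tm_0core (m : ℕ) (hm : 100000 ≤ m) (s : Fin 5 → ℕ) (z w : Fin 5)
    (hzw : (z = 3 ∧ w = 4) ∨ (z = 4 ∧ w = 3)) : ¬ TmC m s 1 z 0 2 w := by
  rintro ⟨hz, hs, hP, hP', ge, g12, g1w, gz2, gzw, hall⟩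
  obtain ⟨f00, f0, f1, f2, f3, f4, f12⟩ := nontiny_facts hz hs hall
  have k1 := hall 1
  have k2 := hall 2
  have k3 := hall 3
  have k4 := hall 4
  have kz := hall z
  have kw := hall w
  have hsum := mu_sum m s hz
  have hsum2 : mu m s 0 + mu m s 1 + mu m s 2 + mu m s z + mu m s w = 24 * m := by
    rcases hzw with ⟨rfl, rfl⟩ | ⟨rfl, rfl⟩
    · exact hsum
    · clear * - hsum; omega
  have z1 : z ≠ 1 ∧ z ≠ 2 ∧ z ≠ 0 := by rcases hzw with ⟨rfl, rfl⟩ | ⟨rfl, rfl⟩ <;> decide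
  have w1 : w ≠ 1 ∧ w ≠ 2 ∧ w ≠ 0 := by rcases hzw with ⟨rfl, rfl⟩ | ⟨rfl, rfl⟩ <;> decide
  have r1z : mu m s 1 ≤ mu m s z + 30 ∧ mu m s z ≤ mu m s 1 + 30 := by
    clear * - hsum2 ge g12 g1w gz2 gzw; omega
  have r2w : mu m s 2 ≤ mu m s w + 30 ∧ mu m s w ≤ mu m s 2 + 30 := by
    clear * - hsum2 ge g12 g1w gz2 gzw; omega
  have r12 : mu m s 1 + mu m s 2 ≤ 8 * m + 30 ∧ mu m s z + mu m s 2 ≤ 8 * m + 30 ∧
      8 * m ≤ mu m s 1 + mu m s 2 + 10 := by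
    clear * - hsum2 ge g12 g1w gz2 gzw; omega
  have r0 : mu m s 0 ≤ 8 * m + 30 := by
    clear * - hsum2 ge g12 g1w gz2 gzw; omega
  have y1 : s 1 + 2 ≤ s z := by
    rcases hzw with ⟨rfl, rfl⟩ | ⟨rfl, rfl⟩
    · clear * - f1 k1; omega
    · clear * - f1 k1 f3; omega
  have y2 : s 2 + 2 ≤ s w := by
    rcases hzw with ⟨rfl, rfl⟩ | ⟨rfl, rfl⟩
    · clear * - f2 k2 f3; omega
    · clear * - f2 k2; omega
  have s3 : 16 * m ≤ s 3 + 50 ∧ s 3 ≤ 16 * m + 100 := by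
    clear * - f12 f0 r0 r12 ge; omega
  have h34 : s 3 = min (s 3) (s 4) := by clear * - f3; omega
  have a1 := mu1_h m (s 3) s h34 (by clear * - f3 f4; omega)
  have a2 := mu2_h m (s 3) s h34 (by clear * - f3 f4; omega)
  rcases Nat.lt_or_ge (mu m s 1 + 2000) (6 * m) with hx | hx
  · have b2 : s 2 < 14 * m := by
      clear * - a2 hx r12 s3 hm; omega
    have b3 : s 2 + 1000 ≤ s 1 := by
      clear * - a2 hx r12 s3 b2 f0 ge r0 hm; omega
    have b4 : 7 * m + 1000 ≤ s 1 ∧ s 1 ≤ 14 * m ∧ 7 * m ≤ s 2 := by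
      clear * - a1 k1 b3 f0 ge b2 hm s3; omega
    have c1 : mu m s 1 = 14 * m - s 1 := by
      clear * - a1 b4 b2 b3 s3 hm; omega
    have c2 : mu m s 2 = s 1 - s 2 + (s 3 - 14 * m) := by
      clear * - a2 b4 b2 b3 s3 hm; omega
    obtain ⟨s', e1, e2, e3, ej, hG⟩ := TmC.vtest 1 z y1 hP (s 1 - 500) (by clear * - b3; omega) (by omega)
    have j2 : s' 2 = s 2 := ej 2 (by decide) (Ne.symm z1.2.1)
    have jh : min (s' 3) (s' 4) ≤ s 3 + 1 := by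
      rcases hzw with ⟨rfl, rfl⟩ | ⟨rfl, rfl⟩
      · clear * - e3; omega
      · have := ej 3 (by decide) (by decide)
        clear * - this; omega
    have jh' : s 3 ≤ min (s' 3) (s' 4) + 1 := by
      rcases hzw with ⟨rfl, rfl⟩ | ⟨rfl, rfl⟩
      · have := ej 4 (by decide) (by decide)
        clear * - this e2 h34; omega
      · have := ej 3 (by decide) (by decide)
        clear * - this e2 h34 f3 k3; omega
    have h24 : min (s' 3) (s' 4) ≤ 24 * m := by clear * - jh f3 f4 k3 k4; omega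
    have d1 := mu1_h m _ s' rfl h24
    have d2 := mu2_h m _ s' rfl h24
    rw [e1, j2] at d1 d2
    generalize min (s' 3) (s' 4) = h' at d1 d2 jh jh' h24
    have u1 : mu m s' 1 ≤ mu m s 1 + 500 := by
      clear * - d1 c1 b2 b3 b4 jh jh' s3 hm; omega
    have u2 : mu m s' 2 + 499 ≤ mu m s 2 := by
      clear * - d2 c2 b2 b3 b4 jh jh' s3 hm; omega
    have uz : mu m s' z ≤ mu m s z + 1 := by
      rcases hzw with ⟨rfl, rfl⟩ | ⟨rfl, rfl⟩
      · have c := ej 4 (by decide) (by decide)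
        rw [mu3, c]; clear * - f3 e2; omega
      · rw [mu4]; clear * - f4 e2; omega
    have G := hG.at 2 (by decide) (Ne.symm z1.2.1)
    clear * - G u1 u2 uz hx r1z r12 hm
    omega
  · have b1 : s 1 ≤ 10 * m + 2200 := by
      clear * - a1 hx s3 hm f0 ge; omega
    obtain ⟨v, hv⟩ : ∃ v, v = mu m s 0 - mu m s 2 - 1000 := ⟨_, rfl⟩
    have b2 : mu m s 2 ≤ 2 * m + 2040 := by clear * - hx r12; omega
    have v1 : 1 ≤ v ∧ 6 * m ≤ v + 3100 := by clear * - hv b2 ge hm; omega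
    have v2 : v ≤ s 2 := by clear * - hv f0; omega
    obtain ⟨s', e1, e2, e3, ej, hG⟩ := TmC.vtest 2 w y2 hP' v v1.1 v2
    have j1 : s' 1 = s 1 := ej 1 (by decide) (Ne.symm w1.1)
    have jh : min (s' 3) (s' 4) ≤ s 3 + 1 := by
      rcases hzw with ⟨rfl, rfl⟩ | ⟨rfl, rfl⟩
      · have := ej 3 (by decide) (by decide)
        clear * - this; omega
      · clear * - e3; omega
    have h24 : min (s' 3) (s' 4) ≤ 24 * m := by clear * - jh f3 f4 k3 k4; omega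
    have d2 := mu2_h m _ s' rfl h24
    rw [e1, j1] at d2
    generalize min (s' 3) (s' 4) = h' at d2 jh h24
    have u2 : mu m s' 2 + 1000 ≤ 8 * m := by
      clear * - d2 b1 v1 jh s3 hm; omega
    have u0 : mu m s' 0 ≤ v := by
      rw [mu0, e1]; clear * - s3; omega
    have uw : mu m s' w ≤ mu m s w + 1 := by
      rcases hzw with ⟨rfl, rfl⟩ | ⟨rfl, rfl⟩
      · rw [mu4]; clear * - f4 e2; omega
      · have c := ej 4 (by decide) (by decide)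
        rw [mu3, c]; clear * - f3 e2; omega
    have G := hG.at 0 (by decide) (Ne.symm w1.2.2)
    clear * - G u2 u0 uw hv b2 r2w r0 hm
    omega

theorem tm_13_0_24 (m : ℕ) (hm : 100000 ≤ m) (s : Fin 5 → ℕ) : ¬ TmC m s 1 3 0 2 4 :=
  tm_0core m hm s 3 4 (Or.inl ⟨rfl, rfl⟩)

theorem tm_14_0_23 (m : ℕ) (hm : 100000 ≤ m) (s : Fin 5 → ℕ) : ¬ TmC m s 1 4 0 2 3 :=
  tm_0core m hm s 4 3 (Or.inr ⟨rfl, rfl⟩)

end DeepFlat
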