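import Mathlib
import Pool.Agent.Lib.MP_5d7aef_co.Comb2

/-! Case Tm, types with middle item 1. -/

namespace DeepFlat
open Finset

/-- middle item 1 with a third of the mass: item 1 is available from min (s 1) (s 2) on -/
theorem e1_s1 (m : ℕ) (s : Fin 5 → ℕ) (hm : 100000 ≤ m)
    (h34 : s 3 ≤ s 4) (h24 : s 4 ≤ 24 * m) (he : 8 * m ≤ mu m s 1 + 5)
    (hmin : min (s 1) (s 2) ≤ 8 * m + 100) : s 1 ≤ s 2 := by
  by_contra hcon
  have g := mu1_h m (s 3) s (by clear * - h34; omega) (by clear * - h34 h24; omega)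
  have h2 : s 2 ≤ 8 * m + 100 := by clear * - hcon hmin; omega
  have p1 : min (7 * m) (min (s 2) (s 3)) - s 1 = 0 := by clear * - hcon; omega
  have p3 : min (s 2) (s 3) - max (14 * m) (s 1) = 0 := by clear * - h2 hm; omega
  rw [p1, p3] at g
  clear * - g he hm
  omega

/-- bound for item 2 after lowering it to v -/
theorem e1_mu2 (m v : ℕ) (s : Fin 5 → ℕ) (hm : 100000 ≤ m) (h34 : s 3 ≤ s 4) (h24 : s 4 ≤ 24 * m)
    (h3 : s 3 ≤ 16 * m + 100) (e2 : s 2 = v) (e1 : s 1 = v + 500)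
    (hv : m + 1500 ≤ v) : mu m s 2 + 1000 ≤ 8 * m := by
  have g := mu2_h m (s 3) s (by clear * - h34; omega) (by clear * - h34 h24; omega)
  have p1 : min (7 * m) (s 3) - s 2 ≤ 6 * m - 1500 := by clear * - e2 hv hm; omega
  have p3 : s 3 - max (14 * m) (s 2) ≤ 2 * m + 100 := by clear * - h3; omega
  have p1' : min (7 * m) (s 3) - s 2 ≤ 7 * m - v := by clear * - e2; omega
  have p2 : min (14 * m) (min (s 1) (s 3)) - max (7 * m) (s 2) ≤ 500 := by
    clear * - e1 e2; omega
  have p2' : v + 500 ≤ 7 * m → min (14 * m) (min (s 1) (s 3)) - max (7 * m) (s 2) = 0 := by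
    intro h; clear * - e1 e2 h; omega
  rcases Nat.lt_or_ge (7 * m) (v + 500) with hA | hA
  · clear * - g p1' p2 p3 hA hm; omega
  · have := p2' hA
    clear * - g p1 this p3 hm; omega

theorem tm_03_1_24 (m : ℕ) (hm : 100000 ≤ m) (s : Fin 5 → ℕ) : ¬ TmC m s 0 3 1 2 4 := by
  rintro ⟨hz, hs, hP, hQ, he, hac, had, hbc, hbd, h⟩
  obtain ⟨f00, f0, f1, f2, f3, f4, f12⟩ := nontiny_facts hz hs h
  have k0 := h 0
  have k1 := h 1
  have k2 := h 2
  have k3 := h 3
  have k4 := h 4
  have hs4 := hs 4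
  have hsum := mu_sum m s hz
  have b03 : mu m s 3 ≤ mu m s 0 + 30 := by clear * - hsum he hac had hbc hbd; omega
  have b30 : mu m s 0 ≤ mu m s 3 + 30 := by clear * - hsum he hac had hbc hbd; omega
  have b04 : mu m s 0 + mu m s 4 ≤ 8 * m + 30 := by clear * - hsum he hac had hbc hbd; omega
  have b34 : mu m s 3 + mu m s 4 ≤ 8 * m + 30 := by clear * - hsum he hac had hbc hbd; omega
  have b34' : 8 * m ≤ mu m s 3 + mu m s 4 + 30 := by clear * - hbd; omega
  have s3u : s 3 ≤ 16 * m + 50 := by clear * - f3 f4 b34'; omega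
  have s3l : 16 * m ≤ s 3 + 50 := by clear * - f3 f4 b34; omega
  have hmin : min (s 1) (s 2) ≤ 8 * m := by rw [← f0]; clear * - b04 k4; omega
  have h34 : s 3 ≤ s 4 := by clear * - f3; omega
  have s12 : s 1 ≤ s 2 := e1_s1 m s hm h34 hs4 he (by clear * - hmin; omega)
  have s1 : s 1 = mu m s 0 := by rw [f0]; clear * - s12; omega
  rcases Nat.lt_or_ge (mu m s 0) (m + 2000) with hB | hA
  · -- ltest
    obtain ⟨s', e0, e1, e2, ej, hG⟩ := TmC.ltest f00 3 (by clear * - s3l hm; omega) hP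
      (2 * mu m s 0 + 3000) (by omega) (by clear * - hB hm; omega)
    have j1 := ej 1 (by decide) (by decide)
    have j2 := ej 2 (by decide) (by decide)
    have j4 := ej 4 (by decide) (by decide)
    have hsum' := mu_sum m s' ⟨0, e0⟩
    have a1 : 2 * mu m s 0 + 3000 ≤ s' 1 ∧ s' 1 ≤ 2 * mu m s 0 + 3001 := by
      clear * - j1 s1; omega
    have a2 : 2 * mu m s 0 + 3000 ≤ s' 2 := by clear * - j2; omega
    have a3 : 2 * mu m s 0 + 3000 ≤ s' 3 := by clear * - e1 s3l hB hm; omega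
    have a4 : 2 * mu m s 0 + 3000 ≤ s' 4 ∧ s' 4 ≤ s 4 + 1 := by
      clear * - j4 h34 s3l hB hm; omega
    have u0 : 2 * mu m s 0 + 3000 ≤ mu m s' 0 ∧ mu m s' 0 ≤ 2 * mu m s 0 + 3001 := by
      rw [mu0 m s', e0]; clear * - a1 a2 a3 a4 hB hm; omega
    have u3 : mu m s' 3 ≤ mu m s 3 + 2 := by
      rw [mu3 m s']; clear * - a4 e1 f3; omega
    have G1 := hG.at 1 (by decide) (by decide)
    have G2 := hG.at 2 (by decide) (by decide)
    have G4 := hG.at 4 (by decide) (by decide)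
    clear * - G1 G2 G4 u0 u3 hsum' b03 b30 hB hm
    omega
  · -- vtest
    have v2 : mu m s 0 - 500 ≤ s 2 := by clear * - s1 s12; omega
    obtain ⟨s', e1, e2, e3, ej, hG⟩ := TmC.vtest 2 4 (by clear * - f2 f3 k2; omega) hQ
      (mu m s 0 - 500) (by clear * - hA; omega) v2
    have j0 := ej 0 (by decide) (by decide)
    have j1 := ej 1 (by decide) (by decide)
    have j3 := ej 3 (by decide) (by decide)
    have u0 : mu m s' 0 + 500 ≤ mu m s 0 := by
      rw [mu0 m s', e1]; clear * - hA; omega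
    have u4 : mu m s' 4 ≤ mu m s 4 + 1 := by
      rw [mu4 m s']; clear * - f4 e2; omega
    have u2 : mu m s' 2 + 1000 ≤ 8 * m := by
      rw [← f0] at hmin
      refine e1_mu2 m (mu m s 0 - 500) s' hm ?_ ?_ ?_ e1 ?_ ?_
      · rw [j3]; clear * - e2 f3 k3; omega
      · clear * - e3 f4 k4; omega
      · rw [j3]; clear * - s3u; omega
      · rw [j1, s1]; clear * - hA; omega
      · clear * - hA; omega
    have G := hG.at 0 (by decide) (by decide)
    clear * - G u0 u4 u2 b04 k0 hm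
    omega

theorem tm_04_1_23 (m : ℕ) (hm : 100000 ≤ m) (s : Fin 5 → ℕ) : ¬ TmC m s 0 4 1 2 3 := by
  rintro ⟨hz, hs, hP, hQ, he, hac, had, hbc, hbd, h⟩
  obtain ⟨f00, f0, f1, f2, f3, f4, f12⟩ := nontiny_facts hz hs h
  have k0 := h 0
  have k1 := h 1
  have k2 := h 2
  have k3 := h 3
  have k4 := h 4
  have hs4 := hs 4
  have hsum := mu_sum m s hz
  have b04 : mu m s 4 ≤ mu m s 0 + 30 := by clear * - hsum he hac had hbc hbd; omega
  have b40 : mu m s 0 ≤ mu m s 4 + 30 := by clear * - hsum he hac had hbc hbd; omega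
  have b03 : mu m s 0 + mu m s 3 ≤ 8 * m + 30 := by clear * - hsum he hac had hbc hbd; omega
  have b34 : mu m s 3 + mu m s 4 ≤ 8 * m + 30 := by clear * - hsum he hac had hbc hbd; omega
  have b34' : 8 * m ≤ mu m s 3 + mu m s 4 + 30 := by clear * - hbd; omega
  have s3u : s 3 ≤ 16 * m + 50 := by clear * - f3 f4 b34'; omega
  have s3l : 16 * m ≤ s 3 + 50 := by clear * - f3 f4 b34; omega
  have hmin : min (s 1) (s 2) ≤ 8 * m := by rw [← f0]; clear * - b03 k3; omega
  have h34 : s 3 ≤ s 4 := by clear * - f3; omega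
  have s12 : s 1 ≤ s 2 := e1_s1 m s hm h34 hs4 he (by clear * - hmin; omega)
  have s1 : s 1 = mu m s 0 := by rw [f0]; clear * - s12; omega
  rcases Nat.lt_or_ge (mu m s 0) (m + 2000) with hB | hA
  · -- ltest
    obtain ⟨s', e0, e1, e2, ej, hG⟩ := TmC.ltest f00 4 (by clear * - s3l h34 hm; omega) hP
      (2 * mu m s 0 + 3000) (by omega) (by clear * - hB hm; omega)
    have j1 := ej 1 (by decide) (by decide)
    have j2 := ej 2 (by decide) (by decide)
    have j3 := ej 3 (by decide) (by decide)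
    have hsum' := mu_sum m s' ⟨0, e0⟩
    have a1 : 2 * mu m s 0 + 3000 ≤ s' 1 ∧ s' 1 ≤ 2 * mu m s 0 + 3001 := by
      clear * - j1 s1; omega
    have a2 : 2 * mu m s 0 + 3000 ≤ s' 2 := by clear * - j2; omega
    have a3 : 2 * mu m s 0 + 3000 ≤ s' 3 := by clear * - j3; omega
    have a4 : 2 * mu m s 0 + 3000 ≤ s' 4 := by
      clear * - e1 h34 s3l hB hm; omega
    have u0 : 2 * mu m s 0 + 3000 ≤ mu m s' 0 ∧ mu m s' 0 ≤ 2 * mu m s 0 + 3001 := by
      rw [mu0 m s', e0]; clear * - a1 a2 a3 a4 hB hm; omega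
    have u4 : mu m s' 4 ≤ mu m s 4 + 2 := by
      rw [mu4 m s']; clear * - e1 f4; omega
    have G1 := hG.at 1 (by decide) (by decide)
    have G2 := hG.at 2 (by decide) (by decide)
    have G3 := hG.at 3 (by decide) (by decide)
    clear * - G1 G2 G3 u0 u4 hsum' b04 b40 hB hm
    omega
  · -- vtest
    have v2 : mu m s 0 - 500 ≤ s 2 := by clear * - s1 s12; omega
    obtain ⟨s', e1, e2, e3, ej, hG⟩ := TmC.vtest 2 3 (by clear * - f2 k2; omega) hQ
      (mu m s 0 - 500) (by clear * - hA; omega) v2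
    have j0 := ej 0 (by decide) (by decide)
    have j1 := ej 1 (by decide) (by decide)
    have j4 := ej 4 (by decide) (by decide)
    have u0 : mu m s' 0 + 500 ≤ mu m s 0 := by
      rw [mu0 m s', e1]; clear * - hA; omega
    have u3 : mu m s' 3 ≤ mu m s 3 + 1 := by
      rw [mu3 m s', j4]; clear * - f3 e2; omega
    have u2 : mu m s' 2 + 1000 ≤ 8 * m := by
      rw [← f0] at hmin
      refine e1_mu2 m (mu m s 0 - 500) s' hm ?_ ?_ ?_ e1 ?_ ?_
      · rw [j4]; clear * - e3 f3 k3; omega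
      · rw [j4]; exact hs4
      · clear * - e3 s3u; omega
      · rw [j1, s1]; clear * - hA; omega
      · clear * - hA; omega
    have G := hG.at 0 (by decide) (by decide)
    clear * - G u0 u3 u2 b03 k0 hm
    omega

theorem tm_02_1_34 (m : ℕ) (hm : 100000 ≤ m) (s : Fin 5 → ℕ) : ¬ TmC m s 0 2 1 3 4 := by
  rintro ⟨hz, hs, hP, hQ, he, hac, had, hbc, hbd, h⟩
  obtain ⟨f00, f0, f1, f2, f3, f4, f12⟩ := nontiny_facts hz hs h
  have k0 := h 0
  have k1 := h 1
  have k2 := h 2
  have k3 := h 3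
  have k4 := h 4
  have hs4 := hs 4
  have hsum := mu_sum m s hz
  have b02 : mu m s 2 ≤ mu m s 0 + 30 := by clear * - hsum he hac had hbc hbd; omega
  have b20 : mu m s 0 ≤ mu m s 2 + 30 := by clear * - hsum he hac had hbc hbd; omega
  have b24 : mu m s 2 + mu m s 4 ≤ 8 * m + 30 := by clear * - hsum he hac had hbc hbd; omega
  have b03 : mu m s 0 + mu m s 3 ≤ 8 * m + 30 := by clear * - hsum he hac had hbc hbd; omega
  have b04 : mu m s 0 + mu m s 4 ≤ 8 * m + 30 := by clear * - hsum he hac had hbc hbd; omega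
  have h34 : s 3 ≤ s 4 := by clear * - f3; omega
  have s3l : 8 * m + 2 * mu m s 0 ≤ s 3 + 70 := by clear * - f3 f4 b03 b04; omega
  have s3u : s 3 ≤ 8 * m + 2 * mu m s 0 + 70 := by clear * - f3 f4 hac had; omega
  have g2 := mu2_h m (s 3) s (by clear * - h34; omega) (by clear * - h34 hs4; omega)
  rcases Nat.lt_or_ge (s 3) (14 * m + 1000) with hB | hA
  · -- ltest
    have p3 : mu m s 0 ≤ 3 * m + 600 := by clear * - hB s3l; omega
    obtain ⟨s', e0, e1, e2, ej, hG⟩ := TmC.ltest f00 2 (by clear * - f0 k0; omega) hP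
      (7 * m + mu m s 0 + 2000) (by omega) (by clear * - p3 hm; omega)
    have j1 := ej 1 (by decide) (by decide)
    have j3 := ej 3 (by decide) (by decide)
    have j4 := ej 4 (by decide) (by decide)
    have s1 : s 1 ≤ 7 * m := by clear * - f1 he s3u p3 hm; omega
    have a1 : 7 * m + mu m s 0 + 2000 ≤ s' 1 ∧ s' 1 ≤ 7 * m + mu m s 0 + 2001 := by
      clear * - j1 s1; omega
    have a3 : s 3 ≤ s' 3 ∧ s' 3 ≤ s 3 + 1 := by clear * - j3 s3l hm; omega
    have a4 : s 4 ≤ s' 4 ∧ s' 4 ≤ s 4 + 1 := by clear * - j4 s3l h34 hm; omega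
    have q1 : min (14 * m) (min (s 1) (s 3)) - max (7 * m) (s 2) = 0 := by clear * - s1; omega
    have q2 : s 3 - max (14 * m) (s 2) ≤ 1000 := by clear * - hB; omega
    have q3 : min (7 * m) (s 3) - s 2 ≤ 7 * m - s 2 := by clear * - s1; omega
    have q4 : s 2 + mu m s 0 ≤ 7 * m + 1100 := by
      rw [q1] at g2; clear * - g2 q2 q3 k2 b20; omega
    have q5 : 7 * m - s 2 ≤ mu m s 2 := by
      have := mu2_geB m s; clear * - this h34 s3l hm; omega
    have u0 : mu m s' 0 ≤ s 2 := by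
      rw [mu0 m s']; clear * - e2; omega
    have u1 : mu m s' 1 + (7 * m + mu m s 0 + 2000) ≤ s 3 + 1 := by
      have w := mu1_le m s'
      have w' : min (24 * m) (min (s' 3) (s' 4)) ≤ s 3 + 1 := by clear * - a3; omega
      have w3 : 7 * m + mu m s 0 + 2000 ≤ s' 3 ∧ 7 * m + mu m s 0 + 2000 ≤ s' 1 := by
        clear * - a1 a3 s3l hm; omega
      have w4 : 7 * m + mu m s 0 + 2000 ≤ s 3 + 1 := by clear * - a3 w3; omega
      have key : ∀ M X T a b : ℕ, X ≤ M - a → M ≤ b → T ≤ a → T ≤ b → X + T ≤ b := by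
        intros; omega
      exact key _ _ _ _ _ w w' w3.2 w4
    have u2 : mu m s' 2 ≤ mu m s 2 + mu m s 0 + 4000 := by
      rw [mu2 m s']
      have w1 : min (7 * m) (min (s' 3) (s' 4)) - s' 2 ≤ 7 * m - s 2 + 1 := by
        clear * - e1; omega
      have w2 : min (14 * m) (min (s' 1) (min (s' 3) (s' 4))) - max (7 * m) (s' 2) ≤
          mu m s 0 + 2001 := by
        clear * - a1; omega
      have w3 : min (24 * m) (min (s' 3) (s' 4)) - max (14 * m) (s' 2) ≤ 1001 := by
        clear * - a3 hB; omega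
      clear * - w1 w2 w3 q5; omega
    have G := hG.at 1 (by decide) (by decide)
    clear * - G u0 u1 u2 q4 p3 b02 s3u hm
    omega
  · -- vtest
    obtain ⟨s', e1, e2, e3, ej, hG⟩ := TmC.vtest 3 4 (by clear * - f3 k3; omega) hQ
      (s 3 - 500) (by clear * - hA; omega) (by omega)
    have j0 := ej 0 (by decide) (by decide)
    have j1 := ej 1 (by decide) (by decide)
    have j2 := ej 2 (by decide) (by decide)
    have p3 : 3 * m ≤ mu m s 0 := by clear * - hA s3u; omega
    have u3 : mu m s' 3 ≤ mu m s 3 + 501 := by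
      rw [mu3 m s', e1]; clear * - f3 e3; omega
    have u4 : mu m s' 4 ≤ mu m s 4 + 1 := by
      rw [mu4 m s']; clear * - f4 e2; omega
    have u2 : mu m s' 2 + 500 ≤ mu m s 2 := by
      have g := mu2_h m (s 3 - 500) s' (by clear * - e1 e2 f3 k3; omega)
        (by clear * - h34 hs4; omega)
      rw [j1, j2] at g
      have w1 : min (7 * m) (s 3 - 500) - s 2 = min (7 * m) (s 3) - s 2 := by
        clear * - hA; omega
      have w2 : min (14 * m) (min (s 1) (s 3 - 500)) - max (7 * m) (s 2) =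
          min (14 * m) (min (s 1) (s 3)) - max (7 * m) (s 2) := by
        clear * - hA; omega
      have w3 : s 3 - 500 - max (14 * m) (s 2) + 500 = s 3 - max (14 * m) (s 2) := by
        clear * - hA f2 k2; omega
      clear * - g g2 w1 w2 w3; omega
    have G := hG.at 2 (by decide) (by decide)
    clear * - G u2 u3 u4 b24 b03 b04 p3 hm
    omega

end DeepFlat
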