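import Mathlib
import Pool.Agent.Lib.MP_5d7aef_co.Comb2

/-! Case Tm, types with middle item 2 and the pair 0, 3 or 0, 4. -/

namespace DeepFlat
open Finset

/-- lowering item 1 of the pair 1, z with z = 3 or 4 when item 2 has mass 8 m -/
theorem vkill1e2 (m : ℕ) (hm : 100000 ≤ m) (s : Fin 5 → ℕ) (z : Fin 5) (hz : z = 3 ∨ z = 4)
    (hP : ∃ r, CPath m s 1 z r ∨ CPath m s z 1 r)
    (f0 : mu m s 0 = min (s 1) (s 2)) (f1 : s 1 + mu m s 1 ≤ s 3)
    (f3 : s 3 + mu m s 3 = s 4) (f4 : s 4 + mu m s 4 = 24 * m)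
    (h : ∀ i, 2000 ≤ mu m s i) (he : 8 * m ≤ mu m s 2 + 5)
    (h3u : s 3 ≤ 16 * m + 100)
    (h0z : mu m s 0 + mu m s z ≤ 8 * m + 50) : False := by
  have k0 := h 0
  have k1 := h 1
  have k3 := h 3
  have k4 := h 4
  have kz := h z
  have v1 : 1 ≤ min (s 1) (s 2) - 500 := by clear * - k0 f0; omega
  have v2 : min (s 1) (s 2) - 500 ≤ s 1 := by omega
  have y2 : s 1 + 2 ≤ s z := by
    rcases hz with rfl | rfl
    · clear * - f1 k1; omega
    · clear * - f1 k1 f3; omega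
  obtain ⟨s', e1, e2, e3, ej, hG⟩ := TmC.vtest 1 z y2 hP _ v1 v2
  have j1 : s' 2 = s 2 := ej 2 (by decide) (by rcases hz with rfl | rfl <;> decide)
  have j3 : s 3 ≤ s' 3 + 1 ∧ s' 3 ≤ s 3 + 1 := by
    rcases hz with rfl | rfl
    · exact ⟨e2, e3⟩
    · rw [ej 3 (by decide) (by decide)]; constructor <;> omega
  have h34 : s 3 + 2000 ≤ s 4 := by clear * - f3 k3; omega
  -- the place of item 2
  have g2 := mu2 m s
  have hh3 : min (s 3) (s 4) = s 3 := by clear * - h34; omega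
  rw [hh3] at g2
  have p8 : min (s 1) (s 2) + 1900 ≤ 8 * m := by
    clear * - f0 h0z kz; omega
  have c2 : s 2 ≤ min (s 1) (s 2) ∨ (s 2 ≤ m + 110) := by
    rcases Nat.lt_or_ge (s 2) (s 1) with hA | hA
    · left; clear * - hA; omega
    · right
      have t2 : min (14 * m) (min (s 1) (s 3)) - max (7 * m) (s 2) = 0 := by
        clear * - hA; omega
      rw [t2] at g2
      have t3 : min (24 * m) (s 3) - max (14 * m) (s 2) ≤ 2 * m + 100 := by
        clear * - h3u; omega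
      have t1 : 6 * m ≤ min (7 * m) (s 3) - s 2 + 105 := by
        clear * - g2 t3 he; omega
      clear * - t1 hm; omega
  obtain ⟨v, hv⟩ : ∃ v, v = min (s 1) (s 2) - 500 := ⟨_, rfl⟩
  have hv1 : 1500 ≤ v ∧ v + 2000 ≤ 8 * m := by clear * - hv k0 f0 p8; omega
  have u1 : mu m s' 1 + 200 ≤ 8 * m := by
    have g1 := mu1 m s'
    rw [e1, j1, ← hv] at g1
    have hh : min (s' 3) (s' 4) ≤ 16 * m + 101 := by clear * - j3 h3u; omega
    generalize min (s' 3) (s' 4) = h' at g1 hh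
    have w3 : min (24 * m) (min (s 2) h') - max (14 * m) v = 0 := by
      clear * - c2 p8 hm; omega
    have w2 : min (14 * m) h' - max (7 * m) v ≤ 7 * m := by
      clear * - hm; omega
    have w1 : min (7 * m) (min (s 2) h') - v ≤ 500 ∨
        min (7 * m) (min (s 2) h') - v + 1390 ≤ m := by
      rcases c2 with c2 | c2
      · left; clear * - c2 hv hv1; omega
      · right; clear * - c2 hv1 hm; omega
    rw [w3] at g1
    clear * - g1 w1 w2 hm
    omega
  have u0 : mu m s' 0 + 500 ≤ mu m s 0 := by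
    rw [f0, mu0, e1]; clear * - v1; omega
  have uz : mu m s' z ≤ mu m s z + 1 := by
    rcases hz with rfl | rfl
    · have c := ej 4 (by decide) (by decide)
      rw [mu3, c]
      clear * - f3 e2 ; omega
    · rw [mu4]; clear * - f4 e2; omega
  have G := hG.at 0 (by decide) (by rcases hz with rfl | rfl <;> decide)
  clear * - G u1 u0 uz h0z hm k0
  omega

theorem tm_03_2_14 (m : ℕ) (hm : 100000 ≤ m) (s : Fin 5 → ℕ) : ¬ TmC m s 0 3 2 1 4 := by
  rintro ⟨hz, hs, hP, hQ, he, hac, had, hbc, hbd, h⟩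
  obtain ⟨f00, f0, f1, f2, f3, f4, f12⟩ := nontiny_facts hz hs h
  rw [← f0] at f12
  refine vkill1e2 m hm s 4 (Or.inr rfl) hQ f0 f1 f3 f4 h he ?_ ?_ <;>
    clear * - f3 f4 f12 he hac had hbc hbd <;> omega

theorem tm_04_2_13 (m : ℕ) (hm : 100000 ≤ m) (s : Fin 5 → ℕ) : ¬ TmC m s 0 4 2 1 3 := by
  rintro ⟨hz, hs, hP, hQ, he, hac, had, hbc, hbd, h⟩
  obtain ⟨f00, f0, f1, f2, f3, f4, f12⟩ := nontiny_facts hz hs h
  rw [← f0] at f12
  refine vkill1e2 m hm s 3 (Or.inl rfl) hQ f0 f1 f3 f4 h he ?_ ?_ <;>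
    clear * - f3 f4 f12 he hac had hbc hbd <;> omega

end DeepFlat
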