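import Mathlib
import Pool.Agent.Lib.MP_5d7aef_co.Comb2

/-! Case Tm, types with middle item 3 or 4. -/

namespace DeepFlat
open Finset

/-- item 1 keeps a part of its wins in the middle block when item 2 is lowered -/
theorem keep1 (m : ℕ) (hm : 100000 ≤ m) (s s' : Fin 5 → ℕ)
    (hmin : min (s 1) (s 2) ≤ 8 * m) (h3l : min (s 1) (s 2) + 8 * m ≤ s 3 + 100)
    (h3u : s 3 ≤ min (s 1) (s 2) + 8 * m + 100) (h34 : s 3 + 2000 ≤ s 4)
    (h1 : 2000 ≤ mu m s 1) (e1 : s' 1 = s 1) (e3 : s 3 ≤ s' 3 + 1)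
    (e4 : s 4 ≤ s' 4 + 1) : 1900 ≤ mu m s' 1 := by
  have g := mu1_geM m s'
  rw [e1] at g
  have hh : s 3 ≤ min (s' 3) (s' 4) + 1 := by clear * - e3 e4 h34; omega
  generalize min (s' 3) (s' 4) = h' at g hh
  refine le_trans ?_ g
  rcases Nat.lt_or_ge (7 * m) (s 1) with hA | hA
  · rcases Nat.lt_or_ge (14 * m) (s 2) with hB | hB
    · have : s 1 ≤ 8 * m := by clear * - hmin hB hm; omega
      clear * - this hh h3l hA hB hm; omega
    · rw [mu1] at h1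
      have hh3 : min (s 3) (s 4) = s 3 := by clear * - h34; omega
      rw [hh3] at h1
      have t1 : min (7 * m) (min (s 2) (s 3)) - s 1 = 0 := by clear * - hA; omega
      have t3 : min (24 * m) (min (s 2) (s 3)) - max (14 * m) (s 1) = 0 := by clear * - hB; omega
      rw [t1, t3] at h1
      clear * - h1 hh hA; omega
  · clear * - hA hh h3l hm; omega

/-- item 2 keeps a part of its wins outside the middle block when item 1 is lowered -/
theorem keep2 (m : ℕ) (hm : 100000 ≤ m) (s s' : Fin 5 → ℕ)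
    (hmin : min (s 1) (s 2) ≤ 8 * m) (h3l : min (s 1) (s 2) + 8 * m ≤ s 3 + 100)
    (h3u : s 3 ≤ min (s 1) (s 2) + 8 * m + 100) (h34 : s 3 + 2000 ≤ s 4)
    (h2 : 2000 ≤ mu m s 2) (e2 : s' 2 = s 2) (e3 : s 3 ≤ s' 3 + 1)
    (e4 : s 4 ≤ s' 4 + 1) : 900 ≤ mu m s' 2 := by
  by_contra hcon
  have hcon' : mu m s' 2 < 900 := not_le.mp hcon
  have hh : s 3 ≤ min (s' 3) (s' 4) + 1 := by clear * - e3 e4 h34; omega
  have hB := mu2_geB m s'
  have hT : min (24 * m) (min (s' 3) (s' 4)) - max (14 * m) (s' 2) ≤ mu m s' 2 := by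
    rw [mu2]; exact Nat.le_add_left _ _
  rw [e2] at hB hT
  generalize min (s' 3) (s' 4) = h' at hB hT hh
  have hh3 : min (s 3) (s 4) = s 3 := by clear * - h34; omega
  rw [mu2, hh3] at h2
  have b1 : 7 * m ≤ s 2 + 900 := by clear * - hB hcon' hh h3l hm; omega
  have b2 : s 3 ≤ max (14 * m) (s 2) + 901 ∨ 24 * m ≤ max (14 * m) (s 2) + 900 := by
    clear * - hT hcon' hh; omega
  have b3 : min (7 * m) (s 3) - s 2 ≤ 900 := by clear * - b1; omega
  have b4 : min (24 * m) (s 3) - max (14 * m) (s 2) ≤ 901 := by clear * - b2; omega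
  have b5 : 199 ≤ min (14 * m) (min (s 1) (s 3)) - max (7 * m) (s 2) := by
    clear * - h2 b3 b4; omega
  have b6 : 7 * m ≤ s 1 ∧ s 2 ≤ 14 * m := by clear * - b5; omega
  have b7 : 15 * m ≤ s 3 + 1100 := by clear * - b6 b1 h3l; omega
  clear * - b2 b6 b7 hm; omega

/-- lowering item 2 of the pair 2, z with z = 3 or 4 -/
theorem vkill2 (m : ℕ) (hm : 100000 ≤ m) (s : Fin 5 → ℕ) (z : Fin 5) (hz : z = 3 ∨ z = 4)
    (hP : ∃ r, CPath m s 2 z r ∨ CPath m s z 2 r)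
    (f00 : s 0 = 0) (f0 : mu m s 0 = min (s 1) (s 2)) (f2 : s 2 + mu m s 2 ≤ s 3)
    (f3 : s 3 + mu m s 3 = s 4) (f4 : s 4 + mu m s 4 = 24 * m)
    (h : ∀ i, 2000 ≤ mu m s i) (hmin : min (s 1) (s 2) + 1000 ≤ 8 * m)
    (h3l : min (s 1) (s 2) + 8 * m ≤ s 3 + 100)
    (h3u : s 3 ≤ min (s 1) (s 2) + 8 * m + 100)
    (h0z : mu m s 0 + mu m s z ≤ 8 * m + 50) : False := by
  have k0 := h 0
  have k1 := h 1
  have k2 := h 2
  have k3 := h 3
  have k4 := h 4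
  have kz := h z
  have v1 : 1 ≤ min (s 1) (s 2) - 500 := by clear * - k0 f0; omega
  have v2 : min (s 1) (s 2) - 500 ≤ s 2 := by omega
  have y2 : s 2 + 2 ≤ s z := by
    rcases hz with rfl | rfl
    · clear * - f2 k2; omega
    · clear * - f2 k2 f3; omega
  obtain ⟨s', e1, e2, e3, ej, hG⟩ := TmC.vtest 2 z y2 hP _ v1 v2
  have j0 : s' 0 = s 0 := ej 0 (by decide) (by rcases hz with rfl | rfl <;> decide)
  have j1 : s' 1 = s 1 := ej 1 (by decide) (by rcases hz with rfl | rfl <;> decide)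
  have j3 : s 3 ≤ s' 3 + 1 ∧ s' 3 ≤ s 3 + 1 := by
    rcases hz with rfl | rfl
    · exact ⟨e2, e3⟩
    · rw [ej 3 (by decide) (by decide)]; constructor <;> omega
  have j4 : s 4 ≤ s' 4 + 1 ∧ s' 4 ≤ s 4 + 1 := by
    rcases hz with rfl | rfl
    · rw [ej 4 (by decide) (by decide)]; constructor <;> omega
    · exact ⟨e2, e3⟩
  have h34 : s 3 + 2000 ≤ s 4 := by clear * - f3 k3; omega
  have K1 := keep1 m hm s s' (by omega) h3l h3u h34 k1 j1 j3.1 j4.1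
  have h12 := mu12 m s'
  have hm' : min (s' 1) (s' 2) = min (s 1) (s 2) - 500 := by
    rw [j1, e1]; omega
  rw [hm'] at h12
  have hh : min (24 * m) (min (s' 3) (s' 4)) ≤ s 3 + 1 := by clear * - j3; omega
  have u2 : mu m s' 2 + 1000 ≤ 8 * m := by
    clear * - h12 hh K1 h3u hm v1; omega
  have u0 : mu m s' 0 + 500 ≤ mu m s 0 := by
    rw [f0, mu0, e1]; clear * - v1; omega
  have uz : mu m s' z ≤ mu m s z + 1 := by
    rcases hz with rfl | rfl
    · have c := ej 4 (by decide) (by decide)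
      rw [mu3, c]
      clear * - f3 e2 ; omega
    · rw [mu4]; clear * - f4 e2; omega
  have G := hG.at 0 (by decide) (by rcases hz with rfl | rfl <;> decide)
  clear * - G u2 u0 uz h0z hm k0
  omega

/-- lowering item 1 of the pair 1, z with z = 3 or 4 -/
theorem vkill1 (m : ℕ) (hm : 100000 ≤ m) (s : Fin 5 → ℕ) (z : Fin 5) (hz : z = 3 ∨ z = 4)
    (hP : ∃ r, CPath m s 1 z r ∨ CPath m s z 1 r)
    (f00 : s 0 = 0) (f0 : mu m s 0 = min (s 1) (s 2)) (f1 : s 1 + mu m s 1 ≤ s 3)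
    (f3 : s 3 + mu m s 3 = s 4) (f4 : s 4 + mu m s 4 = 24 * m)
    (h : ∀ i, 2000 ≤ mu m s i) (hmin : min (s 1) (s 2) + 1000 ≤ 8 * m)
    (h3l : min (s 1) (s 2) + 8 * m ≤ s 3 + 100)
    (h3u : s 3 ≤ min (s 1) (s 2) + 8 * m + 100)
    (h0z : mu m s 0 + mu m s z ≤ 8 * m + 50) : False := by
  have k0 := h 0
  have k1 := h 1
  have k2 := h 2
  have k3 := h 3
  have k4 := h 4
  have kz := h z
  have v1 : 1 ≤ min (s 1) (s 2) - 500 := by clear * - k0 f0; omega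
  have v2 : min (s 1) (s 2) - 500 ≤ s 1 := by omega
  have y2 : s 1 + 2 ≤ s z := by
    rcases hz with rfl | rfl
    · clear * - f1 k1; omega
    · clear * - f1 k1 f3; omega
  obtain ⟨s', e1, e2, e3, ej, hG⟩ := TmC.vtest 1 z y2 hP _ v1 v2
  have j0 : s' 0 = s 0 := ej 0 (by decide) (by rcases hz with rfl | rfl <;> decide)
  have j1 : s' 2 = s 2 := ej 2 (by decide) (by rcases hz with rfl | rfl <;> decide)
  have j3 : s 3 ≤ s' 3 + 1 ∧ s' 3 ≤ s 3 + 1 := by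
    rcases hz with rfl | rfl
    · exact ⟨e2, e3⟩
    · rw [ej 3 (by decide) (by decide)]; constructor <;> omega
  have j4 : s 4 ≤ s' 4 + 1 ∧ s' 4 ≤ s 4 + 1 := by
    rcases hz with rfl | rfl
    · rw [ej 4 (by decide) (by decide)]; constructor <;> omega
    · exact ⟨e2, e3⟩
  have h34 : s 3 + 2000 ≤ s 4 := by clear * - f3 k3; omega
  have K1 := keep2 m hm s s' (by omega) h3l h3u h34 k2 j1 j3.1 j4.1
  have h12 := mu12 m s'
  have hm' : min (s' 1) (s' 2) = min (s 1) (s 2) - 500 := by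
    rw [j1, e1]; omega
  rw [hm'] at h12
  have hh : min (24 * m) (min (s' 3) (s' 4)) ≤ s 3 + 1 := by clear * - j3; omega
  have u2 : mu m s' 1 + 200 ≤ 8 * m := by
    clear * - h12 hh K1 h3u hm v1; omega
  have u0 : mu m s' 0 + 500 ≤ mu m s 0 := by
    rw [f0, mu0, e1]; clear * - v1; omega
  have uz : mu m s' z ≤ mu m s z + 1 := by
    rcases hz with rfl | rfl
    · have c := ej 4 (by decide) (by decide)
      rw [mu3, c]
      clear * - f3 e2 ; omega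
    · rw [mu4]; clear * - f4 e2; omega
  have G := hG.at 0 (by decide) (by rcases hz with rfl | rfl <;> decide)
  clear * - G u2 u0 uz h0z hm k0
  omega

theorem tm_01_4_23 (m : ℕ) (hm : 100000 ≤ m) (s : Fin 5 → ℕ) : ¬ TmC m s 0 1 4 2 3 := by
  rintro ⟨hz, hs, hP, hQ, he, hac, had, hbc, hbd, h⟩
  obtain ⟨f00, f0, f1, f2, f3, f4, f12⟩ := nontiny_facts hz hs h
  have k0 := h 0
  have k1 := h 1
  have k2 := h 2
  have k3 := h 3
  have k4 := h 4
  refine vkill2 m hm s 3 (Or.inl rfl) hQ f00 f0 f2 f3 f4 h ?_ ?_ ?_ ?_ <;>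
    rw [← f0] at * <;> clear * - f3 f4 f12 he hac had hbc hbd k0 k1 k2 k3 k4 hm <;> omega

theorem tm_02_4_13 (m : ℕ) (hm : 100000 ≤ m) (s : Fin 5 → ℕ) : ¬ TmC m s 0 2 4 1 3 := by
  rintro ⟨hz, hs, hP, hQ, he, hac, had, hbc, hbd, h⟩
  obtain ⟨f00, f0, f1, f2, f3, f4, f12⟩ := nontiny_facts hz hs h
  have k0 := h 0
  have k1 := h 1
  have k2 := h 2
  have k3 := h 3
  have k4 := h 4
  refine vkill1 m hm s 3 (Or.inl rfl) hQ f00 f0 f1 f3 f4 h ?_ ?_ ?_ ?_ <;>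
    rw [← f0] at * <;> clear * - f3 f4 f12 he hac had hbc hbd k0 k1 k2 k3 k4 hm <;> omega

theorem tm_01_3_24 (m : ℕ) (hm : 100000 ≤ m) (s : Fin 5 → ℕ) : ¬ TmC m s 0 1 3 2 4 := by
  rintro ⟨hz, hs, hP, hQ, he, hac, had, hbc, hbd, h⟩
  obtain ⟨f00, f0, f1, f2, f3, f4, f12⟩ := nontiny_facts hz hs h
  have k0 := h 0
  have k1 := h 1
  have k2 := h 2
  have k3 := h 3
  have k4 := h 4
  refine vkill2 m hm s 4 (Or.inr rfl) hQ f00 f0 f2 f3 f4 h ?_ ?_ ?_ ?_ <;>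
    rw [← f0] at * <;> clear * - f3 f4 f12 he hac had hbc hbd k0 k1 k2 k3 k4 hm <;> omega

theorem tm_02_3_14 (m : ℕ) (hm : 100000 ≤ m) (s : Fin 5 → ℕ) : ¬ TmC m s 0 2 3 1 4 := by
  rintro ⟨hz, hs, hP, hQ, he, hac, had, hbc, hbd, h⟩
  obtain ⟨f00, f0, f1, f2, f3, f4, f12⟩ := nontiny_facts hz hs h
  have k0 := h 0
  have k1 := h 1
  have k2 := h 2
  have k3 := h 3
  have k4 := h 4
  refine vkill1 m hm s 4 (Or.inr rfl) hQ f00 f0 f1 f3 f4 h ?_ ?_ ?_ ?_ <;>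
    rw [← f0] at * <;> clear * - f3 f4 f12 he hac had hbc hbd k0 k1 k2 k3 k4 hm <;> omega

theorem tm_03_4_12 (m : ℕ) (hm : 100000 ≤ m) (s : Fin 5 → ℕ) : ¬ TmC m s 0 3 4 1 2 := by
  rintro ⟨hz, hs, hP, hQ, he, hac, had, hbc, hbd, h⟩
  obtain ⟨f00, f0, f1, f2, f3, f4, f12⟩ := nontiny_facts hz hs h
  have k0 := h 0
  have k1 := h 1
  have k2 := h 2
  have k3 := h 3
  have k4 := h 4
  have w0 : mu m s 0 + 1000 ≤ 8 * m - 900 := by
    clear * - f3 f4 f12 he hac had hbc hbd k0 k1 k2 k3 k4 hm f0; omega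
  obtain ⟨s', e0, e1, e2, ej, hG⟩ := TmC.ltest f00 3 (by omega) hP (mu m s 0 + 1000) (by omega)
    (by omega)
  have j1 := ej 1 (by decide) (by decide)
  have j2 := ej 2 (by decide) (by decide)
  have j4 := ej 4 (by decide) (by decide)
  have h12 := mu12 m s'
  have hh : min (24 * m) (min (s' 3) (s' 4)) ≤ s 3 := by clear * - e2; omega
  have hmm : mu m s 0 + 1000 ≤ min (s' 1) (s' 2) := by clear * - j1 j2; omega
  have hmu : min (s' 1) (s' 2) ≤ mu m s 0 + 1001 := by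
    clear * - j1 j2 f0; omega
  have u0 : mu m s' 0 ≤ mu m s 0 + 1001 := by
    rw [mu0]; clear * - hmu; omega
  have u3 : mu m s' 3 ≤ mu m s 3 + 2 := by
    rw [mu3]
    have : s' 4 ≤ s 4 + 1 := by clear * - j4 f3 f12 f0 k1 k2 k3; omega
    clear * - this e1 f3; omega
  have G1 := hG.at 1 (by decide) (by decide)
  have G2 := hG.at 2 (by decide) (by decide)
  rw [← f0] at *
  have u12 : mu m s' 1 + mu m s' 2 + 1000 ≤ mu m s 1 + mu m s 2 := by
    clear * - h12 hh hmm f12 k1 k2; omega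
  clear * - u12 u3 u0 w0 G1 G2 f3 f4 f12 he hac had hbc hbd k0 k1 k2 k3 k4 hm
  omega

theorem tm_04_3_12 (m : ℕ) (hm : 100000 ≤ m) (s : Fin 5 → ℕ) : ¬ TmC m s 0 4 3 1 2 := by
  rintro ⟨hz, hs, hP, hQ, he, hac, had, hbc, hbd, h⟩
  obtain ⟨f00, f0, f1, f2, f3, f4, f12⟩ := nontiny_facts hz hs h
  have k0 := h 0
  have k1 := h 1
  have k2 := h 2
  have k3 := h 3
  have k4 := h 4
  have w0 : mu m s 0 + 1000 ≤ 8 * m - 900 := by
    clear * - f3 f4 f12 he hac had hbc hbd k0 k1 k2 k3 k4 hm f0; omega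
  obtain ⟨s', e0, e1, e2, ej, hG⟩ := TmC.ltest f00 4 (by omega) hP (mu m s 0 + 1000) (by omega)
    (by omega)
  have j1 := ej 1 (by decide) (by decide)
  have j2 := ej 2 (by decide) (by decide)
  have j3 := ej 3 (by decide) (by decide)
  have h12 := mu12 m s'
  have hh : min (24 * m) (min (s' 3) (s' 4)) ≤ s 3 + 1 := by
    clear * - j3 f12 f0 k1 k2; omega
  have hmm : mu m s 0 + 1000 ≤ min (s' 1) (s' 2) := by clear * - j1 j2; omega
  have hmu : min (s' 1) (s' 2) ≤ mu m s 0 + 1001 := by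
    clear * - j1 j2 f0; omega
  have u0 : mu m s' 0 ≤ mu m s 0 + 1001 := by
    rw [mu0]; clear * - hmu; omega
  have u4 : mu m s' 4 ≤ mu m s 4 + 2 := by
    rw [mu4]
    clear * - e1 f4; omega
  have G1 := hG.at 1 (by decide) (by decide)
  have G2 := hG.at 2 (by decide) (by decide)
  rw [← f0] at *
  have u12 : mu m s' 1 + mu m s' 2 + 999 ≤ mu m s 1 + mu m s 2 := by
    clear * - h12 hh hmm f12 k1 k2; omega
  clear * - u12 u4 u0 w0 G1 G2 f3 f4 f12 he hac had hbc hbd k0 k1 k2 k3 k4 hm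
  omega

end DeepFlat
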