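import Mathlib
import Pool.Agent.Lib.MP_5d7aef_co.CombE34

/-! Case Tm, type 01|2|34. -/

namespace DeepFlat
open Finset

theorem tm_01_2_34 (m : ℕ) (hm : 100000 ≤ m) (s : Fin 5 → ℕ) : ¬ TmC m s 0 1 2 3 4 := by
  rintro ⟨hz, hs, _, hP', ge, g03, g04, g13, g14, hall⟩
  obtain ⟨f00, f0, f1, f2, f3, f4, f12⟩ := nontiny_facts hz hs hall
  have k0 := hall 0
  have k1 := hall 1
  have k2 := hall 2
  have k3 := hall 3
  have k4 := hall 4
  have hsum := mu_sum m s hz
  have r01 : mu m s 0 ≤ mu m s 1 + 30 ∧ mu m s 1 ≤ mu m s 0 + 30 := by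
    clear * - hsum ge g03 g04 g13 g14; omega
  have r34 : mu m s 3 ≤ mu m s 4 + 30 ∧ mu m s 4 ≤ mu m s 3 + 30 := by
    clear * - hsum ge g03 g04 g13 g14; omega
  have rq : mu m s 0 + mu m s 4 ≤ 8 * m + 30 := by
    clear * - hsum ge g03 g04 g13 g14; omega
  have r2 : mu m s 2 ≤ 8 * m + 30 := by
    clear * - hsum ge g03 g04 g13 g14; omega
  have y2 : s 3 + 2 ≤ s 4 := by clear * - f3 k3; omega
  obtain ⟨q, hq⟩ : ∃ q, q = mu m s 4 := ⟨_, rfl⟩
  rcases Nat.lt_or_ge (q + 3000) (4 * m) with hc | hc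
  · have v1 : 1 ≤ s 3 - q - 3000 := by clear * - hc f2 ge hm; omega
    have v2 : s 3 - q - 3000 ≤ s 3 := by omega
    obtain ⟨s', e1, e2, e3, ej, hG⟩ := TmC.vtest 3 4 y2 hP' _ v1 v2
    have j0 : s' 0 = s 0 := ej 0 (by decide) (by decide)
    have hz' : ∃ z, s' z = 0 := ⟨0, by rw [j0, f00]⟩
    have hsum' := mu_sum m s' hz'
    have u3 : mu m s' 3 + s' 3 = min (24 * m) (s' 4) := by
      rw [mu3]; clear * - e1 e2 f3 f4 k3 k4 ; omega
    have u4 : mu m s' 4 = 24 * m - s' 4 := mu4 m s'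
    have u3' : mu m s' 3 ≤ mu m s 3 + q + 3001 ∧ mu m s 3 + q + 2999 ≤ mu m s' 3 := by
      clear * - u3 e1 e2 e3 f3 f4 k3 k4 f2 ge hc hm; omega
    have u4' : mu m s' 4 ≤ q + 1 := by
      clear * - u4 e2 f4 hq; omega
    have G0 := hG.at 0 (by decide) (by decide)
    have G1 := hG.at 1 (by decide) (by decide)
    have G2 := hG.at 2 (by decide) (by decide)
    clear * - G0 G1 G2 hsum' u3' u4' hc hq r34 hm
    omega
  · have p4 : mu m s 0 ≤ 4 * m + 3030 := by clear * - hc hq rq; omega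
    obtain ⟨v, hv⟩ : ∃ v, v = min (s 3) (14 * m) - 500 := ⟨_, rfl⟩
    have v1 : 1 ≤ v := by clear * - hv f2 ge hm; omega
    have v2 : v ≤ s 3 := by clear * - hv; omega
    obtain ⟨s', e1, e2, e3, ej, hG⟩ := TmC.vtest 3 4 y2 hP' v v1 v2
    have j1 : s' 1 = s 1 := ej 1 (by decide) (by decide)
    have j2 : s' 2 = s 2 := ej 2 (by decide) (by decide)
    have hs3 : s 3 = mu m s 1 + mu m s 2 + mu m s 0 := by rw [f0]; exact f12.symm
    have u3 : mu m s' 3 + 500 ≤ 8 * m := by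
      rw [mu3, e1]
      clear * - e3 hv f3 f4 hs3 r01 r34 rq r2 ge hc hq hm k0 k4; omega
    have u4 : mu m s' 4 ≤ q + 1 := by
      rw [mu4]; clear * - e2 f4 hq; omega
    have u1 : mu m s' 1 + 500 ≤ mu m s 1 := by
      have h34 : min (s 3) (s 4) = s 3 := by clear * - y2; omega
      have h34' : min (s' 3) (s' 4) = v := by clear * - e1 e2 y2 v2; omega
      have a := mu1_h m (s 3) s h34.symm (by clear * - y2 f4; omega)
      have b := mu1_h m v s' h34'.symm (by clear * - hv; omega)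
      rw [j1, j2] at b
      have c1 : min (7 * m) (min (s 2) v) - s 1 ≤ min (7 * m) (min (s 2) (s 3)) - s 1 := by
        clear * - v2; omega
      have c3 : min (s 2) v - max (14 * m) (s 1) = 0 := by clear * - hv; omega
      rcases Nat.lt_or_ge (min (14 * m) (s 3)) (max (7 * m) (s 1) + 500) with hd | hd
      · exfalso
        have d1 : 7 * m < s 1 := by clear * - hd hs3 ge hm; omega
        have d2 : s 2 = mu m s 0 := by clear * - f0 d1 p4 hm; omega
        clear * - a d1 d2 p4 hd k1 hm; omega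
      · have c2 : min (14 * m) v - max (7 * m) (s 1) + 500 ≤ min (14 * m) (s 3) - max (7 * m) (s 1) := by
          clear * - hv hd; omega
        clear * - a b c1 c2 c3; omega
    have G1 := hG.at 1 (by decide) (by decide)
    clear * - G1 u1 u3 u4 r01 rq hq hc hm k0 k4
    omega

end DeepFlat
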