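import Mathlib
import Pool.Agent.Lib.MP_5d7aef_co.Defs
import Pool.Agent.Lib.MP_5d7aef_co.Stmts

/-! Module L of the deep flats counterexample (helper3): thresholds and masses. -/

set_option autoImplicit false

namespace DeepFlat

open Finset

theorem lev_le (m : ℕ) (y : ℝ) : lev m y ≤ 24 * m := by
  unfold lev
  refine (Finset.card_filter_le _ _).trans ?_
  simp

/-- the levels form an initial segment -/
theorem le_lev_iff {m n : ℕ} (y : ℝ) (h1 : 1 ≤ n) (h2 : n ≤ 24 * m) :
    n ≤ lev m y ↔ (16 : ℝ) ^ n ≤ y := by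
  constructor
  · intro h
    by_contra hy
    push Not at hy
    have hsub : (Icc 1 (24 * m)).filter (fun k => (16 : ℝ) ^ k ≤ y) ⊆ Icc 1 (n - 1) := by
      intro k hk
      rw [Finset.mem_filter, Finset.mem_Icc] at hk
      rw [Finset.mem_Icc]
      refine ⟨hk.1.1, ?_⟩
      by_contra hkn
      have hle : n ≤ k := by omega
      have : (16 : ℝ) ^ n ≤ (16 : ℝ) ^ k := pow_le_pow_right₀ (by norm_num) hle
      linarith [hk.2]
    have hcard := Finset.card_le_card hsub
    rw [Nat.card_Icc] at hcard
    unfold lev at h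
    omega
  · intro h
    have hsub : Icc 1 n ⊆ (Icc 1 (24 * m)).filter (fun k => (16 : ℝ) ^ k ≤ y) := by
      intro k hk
      rw [Finset.mem_Icc] at hk
      rw [Finset.mem_filter, Finset.mem_Icc]
      refine ⟨⟨hk.1, by omega⟩, ?_⟩
      exact (pow_le_pow_right₀ (by norm_num) hk.2).trans h
    have hcard := Finset.card_le_card hsub
    rw [Nat.card_Icc] at hcard
    unfold lev
    omega

theorem lev_lt_iff {m n : ℕ} (y : ℝ) (h1 : 1 ≤ n) (h2 : n ≤ 24 * m) :
    lev m y < n ↔ y < (16 : ℝ) ^ n := by
  rw [← not_le, le_lev_iff y h1 h2, not_le]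

theorem lev_mono (m : ℕ) {y y' : ℝ} (h : y ≤ y') : lev m y ≤ lev m y' := by
  unfold lev
  apply Finset.card_le_card
  intro k hk
  rw [Finset.mem_filter] at hk ⊢
  exact ⟨hk.1, hk.2.trans h⟩

theorem lev_one (m : ℕ) : lev m 1 = 0 := by
  by_contra h
  have h1 : 1 ≤ lev m 1 := by omega
  have h2 : 1 ≤ 24 * m := h1.trans (lev_le m 1)
  have := (le_lev_iff (m := m) (n := 1) 1 le_rfl h2).1 h1
  norm_num at this

theorem lev_pow {m v : ℕ} (h1 : 1 ≤ v) (h2 : v ≤ 24 * m) : lev m ((16 : ℝ) ^ v) = v := by
  apply le_antisymm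
  · by_contra h
    push Not at h
    have h3 : v + 1 ≤ lev m ((16 : ℝ) ^ v) := h
    have h4 : v + 1 ≤ 24 * m := h3.trans (lev_le _ _)
    have h5 := (le_lev_iff (m := m) (n := v + 1) _ (by omega) h4).1 h3
    rw [pow_succ] at h5
    have : (0 : ℝ) < 16 ^ v := by positivity
    linarith
  · exact (le_lev_iff _ h1 h2).2 le_rfl

/-- adding `16 ^ l` to a nonnegative number: the level becomes `max` up to one. -/
theorem lev_add {m l : ℕ} {y : ℝ} (hy : 0 ≤ y) (h1 : 1 ≤ l) (h2 : l ≤ 24 * m) :
    max (lev m (y + 1)) l ≤ lev m (y + 16 ^ l) ∧ lev m (y + 16 ^ l) ≤ max (lev m (y + 1)) l + 1 := by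
  have hl : (1 : ℝ) ≤ 16 ^ l := one_le_pow₀ (by norm_num)
  constructor
  · apply max_le
    · exact lev_mono m (by linarith)
    · rw [le_lev_iff _ h1 h2]
      linarith
  · by_contra h
    push Not at h
    set n := lev m (y + 16 ^ l) with hn
    have hn2 : n ≤ 24 * m := lev_le _ _
    have h3 := (le_lev_iff (m := m) (n := n) (y + 16 ^ l) (by omega) hn2).1 le_rfl
    have hle1 : lev m (y + 1) < n - 1 := by
      have := le_max_left (lev m (y + 1)) l
      omega
    have hle2 : l ≤ n - 1 := by
      have := le_max_right (lev m (y + 1)) l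
      omega
    have h4 := (lev_lt_iff (m := m) (n := n - 1) (y + 1) (by omega) (by omega)).1 hle1
    have h5 : (16 : ℝ) ^ l ≤ 16 ^ (n - 1) := pow_le_pow_right₀ (by norm_num) hle2
    have h6 : (16 : ℝ) ^ n = 16 * 16 ^ (n - 1) := by
      rw [← pow_succ']
      congr 1
      omega
    have : (0 : ℝ) < 16 ^ (n - 1) := by positivity
    linarith

theorem le_top (A : Fin 5 → ℝ) (i : Fin 5) : A i ≤ top A :=
  Finset.le_sup' A (Finset.mem_univ i)

theorem exists_top (A : Fin 5 → ℝ) : ∃ z, A z = top A := by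
  obtain ⟨z, _, hz⟩ := Finset.exists_mem_eq_sup' (s := Finset.univ) Finset.univ_nonempty A
  exact ⟨z, hz.symm⟩

theorem top_eq {A : Fin 5 → ℝ} {c : ℝ} (h : ∀ i, A i ≤ c) (z : Fin 5) (hz : A z = c) :
    top A = c := by
  apply le_antisymm
  · exact Finset.sup'_le _ _ (fun i _ => h i)
  · rw [← hz]; exact le_top A z

theorem rk_le (m n : ℕ) (i : Fin 5) : rk m n i ≤ 4 := by
  fin_cases i <;> simp [rk] <;> split_ifs <;> norm_num

theorem rk_inj (m n : ℕ) (i j : Fin 5) (h : rk m n i = rk m n j) : i = j := by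
  by_cases hm : 7 * m < n ∧ n ≤ 14 * m
  · fin_cases i <;> fin_cases j <;> simp [rk, hm] at h ⊢
  · fin_cases i <;> fin_cases j <;> simp [rk, hm] at h ⊢

/-- winners away from the thresholds -/
theorem mem_MS_iff (m : ℕ) (A : Fin 5 → ℝ) (i : Fin 5) (n : ℕ) (h1 : 1 ≤ n) (h2 : n ≤ 24 * m)
    (hne : ∀ j, n ≠ thr m A j) :
    n ∈ MS m A i ↔ (thr m A i < n ∧ ∀ j, rk m n i < rk m n j → n ≤ thr m A j) := by
  have hle : ∀ j, n ≤ thr m A j → (16 : ℝ) * 16 ^ n ≤ top A - A j + 1 := by
    intro j hj
    have h3 : n + 1 ≤ thr m A j := by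
      have := hne j
      omega
    have h4 : n + 1 ≤ 24 * m := h3.trans (lev_le _ _)
    have h5 := (le_lev_iff (m := m) (n := n + 1) (top A - A j + 1) (by omega) h4).1 h3
    rw [pow_succ'] at h5
    exact h5
  have hlt : ∀ j, thr m A j < n → top A - A j + 1 < (16 : ℝ) ^ n := by
    intro j hj
    exact (lev_lt_iff (top A - A j + 1) h1 h2).1 hj
  have h16 : (16 : ℝ) ≤ 16 ^ n := by
    calc (16 : ℝ) = 16 ^ 1 := by norm_num
      _ ≤ 16 ^ n := pow_le_pow_right₀ (by norm_num) h1
  have hpos : (0 : ℝ) < 16 ^ n := by positivity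
  constructor
  · intro h
    unfold MS at h
    rw [Finset.mem_filter] at h
    obtain ⟨_, h⟩ := h
    constructor
    · by_contra hc
      push Not at hc
      have h3 := hle i hc
      obtain ⟨z, hz⟩ := exists_top A
      have h4 := h z
      rw [hz] at h4
      have h5 : ((rk m n i : ℕ) : ℝ) ≤ 4 := by exact_mod_cast rk_le m n i
      have h6 : (0 : ℝ) ≤ ((rk m n z : ℕ) : ℝ) := Nat.cast_nonneg _
      nlinarith
    · intro j hj
      by_contra hc
      push Not at hc
      have h3 := hlt j hc
      have h4 := h j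
      have h5 : ((rk m n i : ℕ) : ℝ) + 1 ≤ ((rk m n j : ℕ) : ℝ) := by exact_mod_cast hj
      have h6 := le_top A i
      nlinarith
  · rintro ⟨h3, h4⟩
    unfold MS
    rw [Finset.mem_filter, Finset.mem_Icc]
    refine ⟨⟨h1, h2⟩, ?_⟩
    intro j
    have h5 := hlt i h3
    rcases lt_trichotomy (rk m n i) (rk m n j) with h | h | h
    · have h6 := hle j (h4 j h)
      have h7 : ((rk m n j : ℕ) : ℝ) ≤ 4 := by exact_mod_cast rk_le m n j
      have h8 : (0 : ℝ) ≤ ((rk m n i : ℕ) : ℝ) := Nat.cast_nonneg _
      nlinarith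
    · rw [rk_inj m n i j h]
      linarith
    · have h6 : ((rk m n j : ℕ) : ℝ) + 1 ≤ ((rk m n i : ℕ) : ℝ) := by exact_mod_cast h
      have h7 := le_top A j
      nlinarith

/-- the model set -/
noncomputable def WS (m : ℕ) (s : Fin 5 → ℕ) (i : Fin 5) : Finset ℕ :=
  (Icc 1 (24 * m)).filter (fun n => s i < n ∧ ∀ j, rk m n i < rk m n j → n ≤ s j)

theorem card_three (S : Finset ℕ) (a b c d e f : ℕ) (h : S = Ioc a b ∪ (Ioc c d ∪ Ioc e f))
    (h1 : b ≤ c) (h2 : d ≤ e) (h3 : b ≤ e) : S.card = (b - a) + (d - c) + (f - e) := by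
  rw [h, Finset.card_union_of_disjoint, Finset.card_union_of_disjoint]
  · simp only [Nat.card_Ioc]
    omega
  · rw [Finset.disjoint_left]
    intro x hx hy
    rw [Finset.mem_Ioc] at hx hy
    omega
  · rw [Finset.disjoint_left]
    intro x hx hy
    rw [Finset.mem_union, Finset.mem_Ioc, Finset.mem_Ioc] at hy
    rw [Finset.mem_Ioc] at hx
    omega

theorem card_WS (m : ℕ) (s : Fin 5 → ℕ) (i : Fin 5) : (WS m s i).card = mu m s i := by
  fin_cases i
  · have : WS m s 0 = Ioc (s 0) (min (24 * m) (min (s 1) (min (s 2) (min (s 3) (s 4))))) := by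
      ext n
      simp only [WS, Finset.mem_filter, Finset.mem_Icc, Finset.mem_Ioc, Fin.forall_fin_succ]
      by_cases hm : 7 * m < n ∧ n ≤ 14 * m
      · simp [rk, hm]
        omega
      · simp [rk, hm]
        omega
    simp only [Fin.zero_eta, this, Nat.card_Ioc, mu, if_true]
  · have : WS m s 1 = Ioc (s 1) (min (7 * m) (min (s 2) (min (s 3) (s 4)))) ∪
        (Ioc (max (7 * m) (s 1)) (min (14 * m) (min (s 3) (s 4))) ∪
         Ioc (max (14 * m) (s 1)) (min (24 * m) (min (s 2) (min (s 3) (s 4))))) := by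
      ext n
      simp only [WS, Finset.mem_filter, Finset.mem_Icc, Finset.mem_Ioc, Finset.mem_union,
        Fin.forall_fin_succ]
      by_cases hm : 7 * m < n ∧ n ≤ 14 * m
      · simp [rk, hm]
        omega
      · simp [rk, hm]
        omega
    rw [show ((⟨1, by norm_num⟩ : Fin 5)) = 1 from rfl,
      card_three _ _ _ _ _ _ _ this (by omega) (by omega) (by omega)]
    simp [mu]
    try omega
  · have : WS m s 2 = Ioc (s 2) (min (7 * m) (min (s 3) (s 4))) ∪
        (Ioc (max (7 * m) (s 2)) (min (14 * m) (min (s 1) (min (s 3) (s 4)))) ∪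
         Ioc (max (14 * m) (s 2)) (min (24 * m) (min (s 3) (s 4)))) := by
      ext n
      simp only [WS, Finset.mem_filter, Finset.mem_Icc, Finset.mem_Ioc, Finset.mem_union,
        Fin.forall_fin_succ]
      by_cases hm : 7 * m < n ∧ n ≤ 14 * m
      · simp [rk, hm]
        omega
      · simp [rk, hm]
        omega
    rw [show ((⟨2, by norm_num⟩ : Fin 5)) = 2 from rfl,
      card_three _ _ _ _ _ _ _ this (by omega) (by omega) (by omega)]
    simp [mu]
    try omega
  · have : WS m s 3 = Ioc (s 3) (min (24 * m) (s 4)) := by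
      ext n
      simp only [WS, Finset.mem_filter, Finset.mem_Icc, Finset.mem_Ioc, Fin.forall_fin_succ]
      by_cases hm : 7 * m < n ∧ n ≤ 14 * m
      · simp [rk, hm]
        omega
      · simp [rk, hm]
        omega
    rw [show ((⟨3, by norm_num⟩ : Fin 5)) = 3 from rfl, this, Nat.card_Ioc]
    simp [mu]
  · have : WS m s 4 = Ioc (s 4) (24 * m) := by
      ext n
      simp only [WS, Finset.mem_filter, Finset.mem_Icc, Finset.mem_Ioc, Fin.forall_fin_succ]
      by_cases hm : 7 * m < n ∧ n ≤ 14 * m
      · simp [rk, hm]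
        omega
      · simp [rk, hm]
        omega
    rw [show ((⟨4, by norm_num⟩ : Fin 5)) = 4 from rfl, this, Nat.card_Ioc]
    simp [mu]

theorem M_mu (m : ℕ) (A : Fin 5 → ℝ) (i : Fin 5) :
    M m A i ≤ mu m (thr m A) i + 5 ∧ mu m (thr m A) i ≤ M m A i + 5 := by
  set T : Finset ℕ := Finset.univ.image (thr m A) with hT
  have hTc : T.card ≤ 5 := by
    refine (Finset.card_image_le).trans ?_
    simp
  have hmem : ∀ n, n ∉ T → ∀ j, n ≠ thr m A j := by
    intro n hn j hj
    exact hn (by rw [hT, hj]; exact Finset.mem_image_of_mem _ (Finset.mem_univ _))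
  have h1 : MS m A i ⊆ WS m (thr m A) i ∪ T := by
    intro n hn
    rw [Finset.mem_union]
    by_cases hnT : n ∈ T
    · exact Or.inr hnT
    · left
      have hn' := hn
      unfold MS at hn'
      rw [Finset.mem_filter, Finset.mem_Icc] at hn'
      have h2 := (mem_MS_iff m A i n hn'.1.1 hn'.1.2 (hmem n hnT)).1 hn
      unfold WS
      rw [Finset.mem_filter, Finset.mem_Icc]
      exact ⟨hn'.1, h2⟩
  have h2 : WS m (thr m A) i ⊆ MS m A i ∪ T := by
    intro n hn
    rw [Finset.mem_union]
    by_cases hnT : n ∈ T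
    · exact Or.inr hnT
    · left
      unfold WS at hn
      rw [Finset.mem_filter, Finset.mem_Icc] at hn
      exact (mem_MS_iff m A i n hn.1.1 hn.1.2 (hmem n hnT)).2 hn.2
  have h3 := (Finset.card_le_card h1).trans (Finset.card_union_le _ _)
  have h4 := (Finset.card_le_card h2).trans (Finset.card_union_le _ _)
  rw [card_WS] at h3 h4
  unfold M
  omega

theorem good_of (m : ℕ) (A : Fin 5 → ℝ) (a b : Fin 5) (X : ℝ) (hX : 0 ≤ X) (h : HPath m A a b) :
    Good m (thr m (shift A a b X)) a b := by
  have hM := fun i => (M_mu m (shift A a b X) i).1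
  rcases h X hX with h1 | h1 | h1
  · left
    have := hM a
    omega
  · right; left
    have := hM b
    omega
  · right; right
    intro k hka hkb
    have h2 := h1 k hka hkb
    have h3 := hM a
    have h4 := hM b
    have h5 := hM k
    omega

theorem cpath_of (m : ℕ) (A : Fin 5 → ℝ) (a b : Fin 5) (hle : A b ≤ A a)
    (h : HPath m A a b) : CPath m (thr m A) a b (lev m (A a - A b + 1)) := by
  have hsa : ∀ X, shift A a b X a = A a + X := fun X => by simp [shift]
  have hsb : ∀ X, shift A a b X b = A b + X := fun X => by simp [shift]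
  have hsj : ∀ X j, j ≠ a → j ≠ b → shift A a b X j = A j := fun X j h1 h2 => by
    simp [shift, h1, h2]
  have hta := le_top A a
  refine ⟨?_, ?_, ?_, ?_, ?_⟩
  · exact lev_mono m (by linarith)
  · exact lev_mono m (by linarith)
  · intro h1
    by_contra hc
    push Not at hc
    set n := thr m A b with hn
    have hn2 : n ≤ 24 * m := lev_le _ _
    have h2 := (le_lev_iff (m := m) (n := n) (top A - A b + 1) (by omega) hn2).1 le_rfl
    have h3 := (lev_lt_iff (m := m) (n := n - 1) (top A - A a + 1) (by omega) (by omega)).1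
      (by show thr m A a < n - 1; omega)
    have h4 := (lev_lt_iff (m := m) (n := n - 1) (A a - A b + 1) (by omega) (by omega)).1
      (by omega)
    have h6 : (16 : ℝ) ^ n = 16 * 16 ^ (n - 1) := by
      rw [← pow_succ']
      congr 1
      omega
    have : (0 : ℝ) < 16 ^ (n - 1) := by positivity
    linarith
  · intro v hv1 hv2
    have hv3 : v ≤ 24 * m := hv2.trans (lev_le _ _)
    have hv4 := (le_lev_iff (m := m) (n := v) (top A - A a + 1) hv1 hv3).1 hv2
    have hv5 : (16 : ℝ) ≤ 16 ^ v := by
      calc (16 : ℝ) = 16 ^ 1 := by norm_num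
        _ ≤ 16 ^ v := pow_le_pow_right₀ (by norm_num) hv1
    set X : ℝ := top A - A a + 1 - 16 ^ v with hX
    have hX0 : 0 ≤ X := by linarith
    obtain ⟨z, hz⟩ := exists_top A
    have hza : z ≠ a := by
      intro h1
      rw [h1] at hz
      linarith
    have hzb : z ≠ b := by
      intro h1
      rw [h1] at hz
      linarith
    have htop : top (shift A a b X) = top A := by
      apply top_eq (z := z)
      · intro i
        by_cases hia : i = a
        · rw [hia, hsa]; linarith
        · by_cases hib : i = b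
          · rw [hib, hsb]; linarith
          · rw [hsj X i hia hib]; exact le_top A i
      · rw [hsj X z hza hzb, hz]
    have hsb' : thr m (shift A a b X) b = lev m (A a - A b + 16 ^ v) := by
      unfold thr
      rw [htop, hsb]
      congr 1
      rw [hX]; ring
    have hadd := lev_add (m := m) (l := v) (y := A a - A b) (by linarith) hv1 hv3
    refine ⟨thr m (shift A a b X), ?_, ?_, ?_, ?_, good_of m A a b X hX0 h⟩
    · unfold thr
      rw [htop, hsa]
      have : top A - (A a + X) + 1 = 16 ^ v := by rw [hX]; ring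
      rw [this, lev_pow hv1 hv3]
    · rw [hsb']; exact hadd.1
    · rw [hsb']; exact hadd.2
    · intro j hja hjb
      unfold thr
      rw [htop, hsj X j hja hjb]
  · intro l hl1 hl2
    have hl3 : (1 : ℝ) ≤ 16 ^ l := one_le_pow₀ (by norm_num)
    set X : ℝ := top A - A a + 16 ^ l - 1 with hX
    have hX0 : 0 ≤ X := by linarith
    have htop : top (shift A a b X) = top A + 16 ^ l - 1 := by
      apply top_eq (z := a)
      · intro i
        by_cases hia : i = a
        · rw [hia, hsa]; linarith
        · by_cases hib : i = b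
          · rw [hib, hsb]; linarith
          · rw [hsj X i hia hib]
            have := le_top A i
            linarith
      · rw [hsa, hX]; ring
    refine ⟨thr m (shift A a b X), ?_, ?_, ?_, good_of m A a b X hX0 h⟩
    · unfold thr
      rw [htop, hsa]
      have : top A + 16 ^ l - 1 - (A a + X) + 1 = 1 := by rw [hX]; ring
      rw [this, lev_one]
    · unfold thr
      rw [htop, hsb]
      congr 1
      rw [hX]; ring
    · intro j hja hjb
      have hadd := lev_add (m := m) (l := l) (y := top A - A j)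
        (by have := le_top A j; linarith) hl1 hl2
      have h7 : thr m (shift A a b X) j = lev m (top A - A j + 16 ^ l) := by
        unfold thr
        rw [htop, hsj X j hja hjb]
        congr 1
        ring
      rw [h7]
      exact hadd

theorem levels : LevelsStmt := by
  refine ⟨?_, fun m A i => M_mu m A i, ?_⟩
  · intro m A
    refine ⟨?_, fun i => lev_le _ _⟩
    obtain ⟨z, hz⟩ := exists_top A
    refine ⟨z, ?_⟩
    unfold thr
    rw [hz, sub_self, zero_add, lev_one]
  · intro m A a b _ h
    rcases le_total (A b) (A a) with h1 | h1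
    · exact ⟨_, Or.inl (cpath_of m A a b h1 h)⟩
    · refine ⟨_, Or.inr (cpath_of m A b a h1 ?_)⟩
      intro X hX
      have hsw : shift A b a X = shift A a b X := by
        funext i
        simp only [shift]
        congr 1
        exact propext Or.comm
      rw [hsw]
      rcases h X hX with h2 | h2 | h2
      · exact Or.inr (Or.inl h2)
      · exact Or.inl h2
      · right; right
        intro k hk1 hk2
        exact ⟨(h2 k hk2 hk1).2, (h2 k hk2 hk1).1⟩

end DeepFlat
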