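import Mathlib
import Pool.Agent.Lib.MP_5d7aef_co.Levels
import Pool.Agent.Lib.MP_5d7aef_co.Comb3
import Pool.Agent.Lib.MP_5d7aef_co.Comb4
import Pool.Agent.Lib.MP_5d7aef_co.CombE0a
import Pool.Agent.Lib.MP_5d7aef_co.CombE1
import Pool.Agent.Lib.MP_5d7aef_co.CombE2
import Pool.Agent.Lib.MP_5d7aef_co.CombE2a
import Pool.Agent.Lib.MP_5d7aef_co.CombE34

/-! Module C: the three cases are impossible for large m. -/

namespace DeepFlat
open Finset

theorem fin5 (a : Fin 5) : a = 0 ∨ a = 1 ∨ a = 2 ∨ a = 3 ∨ a = 4 := by
  revert a; decide

theorem TmC.swap_ab {m : ℕ} {s : Fin 5 → ℕ} {a b e c d : Fin 5} (h : TmC m s a b e c d) :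
    TmC m s b a e c d := by
  obtain ⟨h1, h2, ⟨r, h3⟩, h4, h5, h6, h7, h8, h9, h10⟩ := h
  exact ⟨h1, h2, ⟨r, h3.symm⟩, h4, h5, h8, h9, h6, h7, h10⟩

theorem TmC.swap_cd {m : ℕ} {s : Fin 5 → ℕ} {a b e c d : Fin 5} (h : TmC m s a b e c d) :
    TmC m s a b e d c := by
  obtain ⟨h1, h2, h3, ⟨r, h4⟩, h5, h6, h7, h8, h9, h10⟩ := h
  exact ⟨h1, h2, h3, ⟨r, h4.symm⟩, h5, h7, h6, h9, h8, h10⟩

theorem TmC.swap_pairs {m : ℕ} {s : Fin 5 → ℕ} {a b e c d : Fin 5} (h : TmC m s a b e c d) :
    TmC m s c d e a b := by
  obtain ⟨h1, h2, h3, h4, h5, h6, h7, h8, h9, h10⟩ := h
  refine ⟨h1, h2, h4, h3, h5, ?_, ?_, ?_, ?_, h10⟩
  · rw [add_comm (mu m s c)]; exact h6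
  · rw [add_comm (mu m s c)]; exact h8
  · rw [add_comm (mu m s d)]; exact h7
  · rw [add_comm (mu m s d)]; exact h9

theorem tiny_false (m : ℕ) (hm : 100000 ≤ m) (s : Fin 5 → ℕ) (a b : Fin 5) (hab : a ≠ b)
    (h : Tiny m s a b ∨ Tiny m s b a) : False := by
  rcases fin5 a with rfl | rfl | rfl | rfl | rfl
  · rcases fin5 b with rfl | rfl | rfl | rfl | rfl
    · exact absurd rfl hab
    · exact tiny_01 m hm s h
    · exact tiny_02 m hm s h
    · exact tiny_03 m hm s h
    · exact tiny_04 m hm s h
  · rcases fin5 b with rfl | rfl | rfl | rfl | rfl
    · exact tiny_01 m hm s h.symm
    · exact absurd rfl hab
    · exact tiny_12 m hm s h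
    · exact tiny_13 m hm s h
    · exact tiny_14 m hm s h
  · rcases fin5 b with rfl | rfl | rfl | rfl | rfl
    · exact tiny_02 m hm s h.symm
    · exact tiny_12 m hm s h.symm
    · exact absurd rfl hab
    · exact tiny_23 m hm s h
    · exact tiny_24 m hm s h
  · rcases fin5 b with rfl | rfl | rfl | rfl | rfl
    · exact tiny_03 m hm s h.symm
    · exact tiny_13 m hm s h.symm
    · exact tiny_23 m hm s h.symm
    · exact absurd rfl hab
    · exact tiny_34 m hm s h
  · rcases fin5 b with rfl | rfl | rfl | rfl | rfl
    · exact tiny_04 m hm s h.symm
    · exact tiny_14 m hm s h.symm
    · exact tiny_24 m hm s h.symm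
    · exact tiny_34 m hm s h.symm
    · exact absurd rfl hab

theorem tmc_false (m : ℕ) (hm : 100000 ≤ m) (s : Fin 5 → ℕ) (a b e c d : Fin 5)
    (hea : e ≠ a) (heb : e ≠ b) (hec : e ≠ c) (hed : e ≠ d) (hab : a ≠ b) (hac : a ≠ c) (had : a ≠ d) (hbc : b ≠ c) (hbd : b ≠ d) (hcd : c ≠ d)
    (hT : TmC m s a b e c d) : False := by
  rcases fin5 e with rfl | rfl | rfl | rfl | rfl
  · skip
    rcases fin5 a with rfl | rfl | rfl | rfl | rfl
    · exact absurd rfl hea
    · skip
      rcases fin5 b with rfl | rfl | rfl | rfl | rfl
      · exact absurd rfl heb
      · exact absurd rfl hab
      · skip
        rcases fin5 c with rfl | rfl | rfl | rfl | rfl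
        · exact absurd rfl hec
        · exact absurd rfl hac
        · exact absurd rfl hbc
        · skip
          rcases fin5 d with rfl | rfl | rfl | rfl | rfl
          · exact absurd rfl hed
          · exact absurd rfl had
          · exact absurd rfl hbd
          · exact absurd rfl hcd
          · skip
            exact tm_12_0_34 m hm s hT
        · skip
          rcases fin5 d with rfl | rfl | rfl | rfl | rfl
          · exact absurd rfl hed
          · exact absurd rfl had
          · exact absurd rfl hbd
          · skip
            exact tm_12_0_34 m hm s hT.swap_cd
          · exact absurd rfl hcd
      · skip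
        rcases fin5 c with rfl | rfl | rfl | rfl | rfl
        · exact absurd rfl hec
        · exact absurd rfl hac
        · skip
          rcases fin5 d with rfl | rfl | rfl | rfl | rfl
          · exact absurd rfl hed
          · exact absurd rfl had
          · exact absurd rfl hcd
          · exact absurd rfl hbd
          · skip
            exact tm_13_0_24 m hm s hT
        · exact absurd rfl hbc
        · skip
          rcases fin5 d with rfl | rfl | rfl | rfl | rfl
          · exact absurd rfl hed
          · exact absurd rfl had
          · skip
            exact tm_13_0_24 m hm s hT.swap_cd
          · exact absurd rfl hbd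
          · exact absurd rfl hcd
      · skip
        rcases fin5 c with rfl | rfl | rfl | rfl | rfl
        · exact absurd rfl hec
        · exact absurd rfl hac
        · skip
          rcases fin5 d with rfl | rfl | rfl | rfl | rfl
          · exact absurd rfl hed
          · exact absurd rfl had
          · exact absurd rfl hcd
          · skip
            exact tm_14_0_23 m hm s hT
          · exact absurd rfl hbd
        · skip
          rcases fin5 d with rfl | rfl | rfl | rfl | rfl
          · exact absurd rfl hed
          · exact absurd rfl had
          · skip
            exact tm_14_0_23 m hm s hT.swap_cd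
          · exact absurd rfl hcd
          · exact absurd rfl hbd
        · exact absurd rfl hbc
    · skip
      rcases fin5 b with rfl | rfl | rfl | rfl | rfl
      · exact absurd rfl heb
      · skip
        rcases fin5 c with rfl | rfl | rfl | rfl | rfl
        · exact absurd rfl hec
        · exact absurd rfl hbc
        · exact absurd rfl hac
        · skip
          rcases fin5 d with rfl | rfl | rfl | rfl | rfl
          · exact absurd rfl hed
          · exact absurd rfl hbd
          · exact absurd rfl had
          · exact absurd rfl hcd
          · skip
            exact tm_12_0_34 m hm s hT.swap_ab
        · skip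
          rcases fin5 d with rfl | rfl | rfl | rfl | rfl
          · exact absurd rfl hed
          · exact absurd rfl hbd
          · exact absurd rfl had
          · skip
            exact tm_12_0_34 m hm s hT.swap_ab.swap_cd
          · exact absurd rfl hcd
      · exact absurd rfl hab
      · skip
        rcases fin5 c with rfl | rfl | rfl | rfl | rfl
        · exact absurd rfl hec
        · skip
          rcases fin5 d with rfl | rfl | rfl | rfl | rfl
          · exact absurd rfl hed
          · exact absurd rfl hcd
          · exact absurd rfl had
          · exact absurd rfl hbd
          · skip
            exact tm_14_0_23 m hm s hT.swap_pairs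
        · exact absurd rfl hac
        · exact absurd rfl hbc
        · skip
          rcases fin5 d with rfl | rfl | rfl | rfl | rfl
          · exact absurd rfl hed
          · skip
            exact tm_14_0_23 m hm s hT.swap_cd.swap_pairs
          · exact absurd rfl had
          · exact absurd rfl hbd
          · exact absurd rfl hcd
      · skip
        rcases fin5 c with rfl | rfl | rfl | rfl | rfl
        · exact absurd rfl hec
        · skip
          rcases fin5 d with rfl | rfl | rfl | rfl | rfl
          · exact absurd rfl hed
          · exact absurd rfl hcd
          · exact absurd rfl had
          · skip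
            exact tm_13_0_24 m hm s hT.swap_pairs
          · exact absurd rfl hbd
        · exact absurd rfl hac
        · skip
          rcases fin5 d with rfl | rfl | rfl | rfl | rfl
          · exact absurd rfl hed
          · skip
            exact tm_13_0_24 m hm s hT.swap_cd.swap_pairs
          · exact absurd rfl had
          · exact absurd rfl hcd
          · exact absurd rfl hbd
        · exact absurd rfl hbc
    · skip
      rcases fin5 b with rfl | rfl | rfl | rfl | rfl
      · exact absurd rfl heb
      · skip
        rcases fin5 c with rfl | rfl | rfl | rfl | rfl
        · exact absurd rfl hec
        · exact absurd rfl hbc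
        · skip
          rcases fin5 d with rfl | rfl | rfl | rfl | rfl
          · exact absurd rfl hed
          · exact absurd rfl hbd
          · exact absurd rfl hcd
          · exact absurd rfl had
          · skip
            exact tm_13_0_24 m hm s hT.swap_ab
        · exact absurd rfl hac
        · skip
          rcases fin5 d with rfl | rfl | rfl | rfl | rfl
          · exact absurd rfl hed
          · exact absurd rfl hbd
          · skip
            exact tm_13_0_24 m hm s hT.swap_ab.swap_cd
          · exact absurd rfl had
          · exact absurd rfl hcd
      · skip
        rcases fin5 c with rfl | rfl | rfl | rfl | rfl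
        · exact absurd rfl hec
        · skip
          rcases fin5 d with rfl | rfl | rfl | rfl | rfl
          · exact absurd rfl hed
          · exact absurd rfl hcd
          · exact absurd rfl hbd
          · exact absurd rfl had
          · skip
            exact tm_14_0_23 m hm s hT.swap_ab.swap_pairs
        · exact absurd rfl hbc
        · exact absurd rfl hac
        · skip
          rcases fin5 d with rfl | rfl | rfl | rfl | rfl
          · exact absurd rfl hed
          · skip
            exact tm_14_0_23 m hm s hT.swap_ab.swap_cd.swap_pairs
          · exact absurd rfl hbd
          · exact absurd rfl had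
          · exact absurd rfl hcd
      · exact absurd rfl hab
      · skip
        rcases fin5 c with rfl | rfl | rfl | rfl | rfl
        · exact absurd rfl hec
        · skip
          rcases fin5 d with rfl | rfl | rfl | rfl | rfl
          · exact absurd rfl hed
          · exact absurd rfl hcd
          · skip
            exact tm_12_0_34 m hm s hT.swap_pairs
          · exact absurd rfl had
          · exact absurd rfl hbd
        · skip
          rcases fin5 d with rfl | rfl | rfl | rfl | rfl
          · exact absurd rfl hed
          · skip
            exact tm_12_0_34 m hm s hT.swap_cd.swap_pairs
          · exact absurd rfl hcd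
          · exact absurd rfl had
          · exact absurd rfl hbd
        · exact absurd rfl hac
        · exact absurd rfl hbc
    · skip
      rcases fin5 b with rfl | rfl | rfl | rfl | rfl
      · exact absurd rfl heb
      · skip
        rcases fin5 c with rfl | rfl | rfl | rfl | rfl
        · exact absurd rfl hec
        · exact absurd rfl hbc
        · skip
          rcases fin5 d with rfl | rfl | rfl | rfl | rfl
          · exact absurd rfl hed
          · exact absurd rfl hbd
          · exact absurd rfl hcd
          · skip
            exact tm_14_0_23 m hm s hT.swap_ab
          · exact absurd rfl had
        · skip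
          rcases fin5 d with rfl | rfl | rfl | rfl | rfl
          · exact absurd rfl hed
          · exact absurd rfl hbd
          · skip
            exact tm_14_0_23 m hm s hT.swap_ab.swap_cd
          · exact absurd rfl hcd
          · exact absurd rfl had
        · exact absurd rfl hac
      · skip
        rcases fin5 c with rfl | rfl | rfl | rfl | rfl
        · exact absurd rfl hec
        · skip
          rcases fin5 d with rfl | rfl | rfl | rfl | rfl
          · exact absurd rfl hed
          · exact absurd rfl hcd
          · exact absurd rfl hbd
          · skip
            exact tm_13_0_24 m hm s hT.swap_ab.swap_pairs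
          · exact absurd rfl had
        · exact absurd rfl hbc
        · skip
          rcases fin5 d with rfl | rfl | rfl | rfl | rfl
          · exact absurd rfl hed
          · skip
            exact tm_13_0_24 m hm s hT.swap_ab.swap_cd.swap_pairs
          · exact absurd rfl hbd
          · exact absurd rfl hcd
          · exact absurd rfl had
        · exact absurd rfl hac
      · skip
        rcases fin5 c with rfl | rfl | rfl | rfl | rfl
        · exact absurd rfl hec
        · skip
          rcases fin5 d with rfl | rfl | rfl | rfl | rfl
          · exact absurd rfl hed
          · exact absurd rfl hcd
          · skip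
            exact tm_12_0_34 m hm s hT.swap_ab.swap_pairs
          · exact absurd rfl hbd
          · exact absurd rfl had
        · skip
          rcases fin5 d with rfl | rfl | rfl | rfl | rfl
          · exact absurd rfl hed
          · skip
            exact tm_12_0_34 m hm s hT.swap_ab.swap_cd.swap_pairs
          · exact absurd rfl hcd
          · exact absurd rfl hbd
          · exact absurd rfl had
        · exact absurd rfl hbc
        · exact absurd rfl hac
      · exact absurd rfl hab
  · skip
    rcases fin5 a with rfl | rfl | rfl | rfl | rfl
    · skip
      rcases fin5 b with rfl | rfl | rfl | rfl | rfl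
      · exact absurd rfl hab
      · exact absurd rfl heb
      · skip
        rcases fin5 c with rfl | rfl | rfl | rfl | rfl
        · exact absurd rfl hac
        · exact absurd rfl hec
        · exact absurd rfl hbc
        · skip
          rcases fin5 d with rfl | rfl | rfl | rfl | rfl
          · exact absurd rfl had
          · exact absurd rfl hed
          · exact absurd rfl hbd
          · exact absurd rfl hcd
          · skip
            exact tm_02_1_34 m hm s hT
        · skip
          rcases fin5 d with rfl | rfl | rfl | rfl | rfl
          · exact absurd rfl had
          · exact absurd rfl hed
          · exact absurd rfl hbd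
          · skip
            exact tm_02_1_34 m hm s hT.swap_cd
          · exact absurd rfl hcd
      · skip
        rcases fin5 c with rfl | rfl | rfl | rfl | rfl
        · exact absurd rfl hac
        · exact absurd rfl hec
        · skip
          rcases fin5 d with rfl | rfl | rfl | rfl | rfl
          · exact absurd rfl had
          · exact absurd rfl hed
          · exact absurd rfl hcd
          · exact absurd rfl hbd
          · skip
            exact tm_03_1_24 m hm s hT
        · exact absurd rfl hbc
        · skip
          rcases fin5 d with rfl | rfl | rfl | rfl | rfl
          · exact absurd rfl had
          · exact absurd rfl hed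
          · skip
            exact tm_03_1_24 m hm s hT.swap_cd
          · exact absurd rfl hbd
          · exact absurd rfl hcd
      · skip
        rcases fin5 c with rfl | rfl | rfl | rfl | rfl
        · exact absurd rfl hac
        · exact absurd rfl hec
        · skip
          rcases fin5 d with rfl | rfl | rfl | rfl | rfl
          · exact absurd rfl had
          · exact absurd rfl hed
          · exact absurd rfl hcd
          · skip
            exact tm_04_1_23 m hm s hT
          · exact absurd rfl hbd
        · skip
          rcases fin5 d with rfl | rfl | rfl | rfl | rfl
          · exact absurd rfl had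
          · exact absurd rfl hed
          · skip
            exact tm_04_1_23 m hm s hT.swap_cd
          · exact absurd rfl hcd
          · exact absurd rfl hbd
        · exact absurd rfl hbc
    · exact absurd rfl hea
    · skip
      rcases fin5 b with rfl | rfl | rfl | rfl | rfl
      · skip
        rcases fin5 c with rfl | rfl | rfl | rfl | rfl
        · exact absurd rfl hbc
        · exact absurd rfl hec
        · exact absurd rfl hac
        · skip
          rcases fin5 d with rfl | rfl | rfl | rfl | rfl
          · exact absurd rfl hbd
          · exact absurd rfl hed
          · exact absurd rfl had
          · exact absurd rfl hcd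
          · skip
            exact tm_02_1_34 m hm s hT.swap_ab
        · skip
          rcases fin5 d with rfl | rfl | rfl | rfl | rfl
          · exact absurd rfl hbd
          · exact absurd rfl hed
          · exact absurd rfl had
          · skip
            exact tm_02_1_34 m hm s hT.swap_ab.swap_cd
          · exact absurd rfl hcd
      · exact absurd rfl heb
      · exact absurd rfl hab
      · skip
        rcases fin5 c with rfl | rfl | rfl | rfl | rfl
        · skip
          rcases fin5 d with rfl | rfl | rfl | rfl | rfl
          · exact absurd rfl hcd
          · exact absurd rfl hed
          · exact absurd rfl had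
          · exact absurd rfl hbd
          · skip
            exact tm_04_1_23 m hm s hT.swap_pairs
        · exact absurd rfl hec
        · exact absurd rfl hac
        · exact absurd rfl hbc
        · skip
          rcases fin5 d with rfl | rfl | rfl | rfl | rfl
          · skip
            exact tm_04_1_23 m hm s hT.swap_cd.swap_pairs
          · exact absurd rfl hed
          · exact absurd rfl had
          · exact absurd rfl hbd
          · exact absurd rfl hcd
      · skip
        rcases fin5 c with rfl | rfl | rfl | rfl | rfl
        · skip
          rcases fin5 d with rfl | rfl | rfl | rfl | rfl
          · exact absurd rfl hcd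
          · exact absurd rfl hed
          · exact absurd rfl had
          · skip
            exact tm_03_1_24 m hm s hT.swap_pairs
          · exact absurd rfl hbd
        · exact absurd rfl hec
        · exact absurd rfl hac
        · skip
          rcases fin5 d with rfl | rfl | rfl | rfl | rfl
          · skip
            exact tm_03_1_24 m hm s hT.swap_cd.swap_pairs
          · exact absurd rfl hed
          · exact absurd rfl had
          · exact absurd rfl hcd
          · exact absurd rfl hbd
        · exact absurd rfl hbc
    · skip
      rcases fin5 b with rfl | rfl | rfl | rfl | rfl
      · skip
        rcases fin5 c with rfl | rfl | rfl | rfl | rfl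
        · exact absurd rfl hbc
        · exact absurd rfl hec
        · skip
          rcases fin5 d with rfl | rfl | rfl | rfl | rfl
          · exact absurd rfl hbd
          · exact absurd rfl hed
          · exact absurd rfl hcd
          · exact absurd rfl had
          · skip
            exact tm_03_1_24 m hm s hT.swap_ab
        · exact absurd rfl hac
        · skip
          rcases fin5 d with rfl | rfl | rfl | rfl | rfl
          · exact absurd rfl hbd
          · exact absurd rfl hed
          · skip
            exact tm_03_1_24 m hm s hT.swap_ab.swap_cd
          · exact absurd rfl had
          · exact absurd rfl hcd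
      · exact absurd rfl heb
      · skip
        rcases fin5 c with rfl | rfl | rfl | rfl | rfl
        · skip
          rcases fin5 d with rfl | rfl | rfl | rfl | rfl
          · exact absurd rfl hcd
          · exact absurd rfl hed
          · exact absurd rfl hbd
          · exact absurd rfl had
          · skip
            exact tm_04_1_23 m hm s hT.swap_ab.swap_pairs
        · exact absurd rfl hec
        · exact absurd rfl hbc
        · exact absurd rfl hac
        · skip
          rcases fin5 d with rfl | rfl | rfl | rfl | rfl
          · skip
            exact tm_04_1_23 m hm s hT.swap_ab.swap_cd.swap_pairs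
          · exact absurd rfl hed
          · exact absurd rfl hbd
          · exact absurd rfl had
          · exact absurd rfl hcd
      · exact absurd rfl hab
      · skip
        rcases fin5 c with rfl | rfl | rfl | rfl | rfl
        · skip
          rcases fin5 d with rfl | rfl | rfl | rfl | rfl
          · exact absurd rfl hcd
          · exact absurd rfl hed
          · skip
            exact tm_02_1_34 m hm s hT.swap_pairs
          · exact absurd rfl had
          · exact absurd rfl hbd
        · exact absurd rfl hec
        · skip
          rcases fin5 d with rfl | rfl | rfl | rfl | rfl
          · skip
            exact tm_02_1_34 m hm s hT.swap_cd.swap_pairs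
          · exact absurd rfl hed
          · exact absurd rfl hcd
          · exact absurd rfl had
          · exact absurd rfl hbd
        · exact absurd rfl hac
        · exact absurd rfl hbc
    · skip
      rcases fin5 b with rfl | rfl | rfl | rfl | rfl
      · skip
        rcases fin5 c with rfl | rfl | rfl | rfl | rfl
        · exact absurd rfl hbc
        · exact absurd rfl hec
        · skip
          rcases fin5 d with rfl | rfl | rfl | rfl | rfl
          · exact absurd rfl hbd
          · exact absurd rfl hed
          · exact absurd rfl hcd
          · skip
            exact tm_04_1_23 m hm s hT.swap_ab
          · exact absurd rfl had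
        · skip
          rcases fin5 d with rfl | rfl | rfl | rfl | rfl
          · exact absurd rfl hbd
          · exact absurd rfl hed
          · skip
            exact tm_04_1_23 m hm s hT.swap_ab.swap_cd
          · exact absurd rfl hcd
          · exact absurd rfl had
        · exact absurd rfl hac
      · exact absurd rfl heb
      · skip
        rcases fin5 c with rfl | rfl | rfl | rfl | rfl
        · skip
          rcases fin5 d with rfl | rfl | rfl | rfl | rfl
          · exact absurd rfl hcd
          · exact absurd rfl hed
          · exact absurd rfl hbd
          · skip
            exact tm_03_1_24 m hm s hT.swap_ab.swap_pairs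
          · exact absurd rfl had
        · exact absurd rfl hec
        · exact absurd rfl hbc
        · skip
          rcases fin5 d with rfl | rfl | rfl | rfl | rfl
          · skip
            exact tm_03_1_24 m hm s hT.swap_ab.swap_cd.swap_pairs
          · exact absurd rfl hed
          · exact absurd rfl hbd
          · exact absurd rfl hcd
          · exact absurd rfl had
        · exact absurd rfl hac
      · skip
        rcases fin5 c with rfl | rfl | rfl | rfl | rfl
        · skip
          rcases fin5 d with rfl | rfl | rfl | rfl | rfl
          · exact absurd rfl hcd
          · exact absurd rfl hed
          · skip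
            exact tm_02_1_34 m hm s hT.swap_ab.swap_pairs
          · exact absurd rfl hbd
          · exact absurd rfl had
        · exact absurd rfl hec
        · skip
          rcases fin5 d with rfl | rfl | rfl | rfl | rfl
          · skip
            exact tm_02_1_34 m hm s hT.swap_ab.swap_cd.swap_pairs
          · exact absurd rfl hed
          · exact absurd rfl hcd
          · exact absurd rfl hbd
          · exact absurd rfl had
        · exact absurd rfl hbc
        · exact absurd rfl hac
      · exact absurd rfl hab
  · skip
    rcases fin5 a with rfl | rfl | rfl | rfl | rfl
    · skip
      rcases fin5 b with rfl | rfl | rfl | rfl | rfl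
      · exact absurd rfl hab
      · skip
        rcases fin5 c with rfl | rfl | rfl | rfl | rfl
        · exact absurd rfl hac
        · exact absurd rfl hbc
        · exact absurd rfl hec
        · skip
          rcases fin5 d with rfl | rfl | rfl | rfl | rfl
          · exact absurd rfl had
          · exact absurd rfl hbd
          · exact absurd rfl hed
          · exact absurd rfl hcd
          · skip
            exact tm_01_2_34 m hm s hT
        · skip
          rcases fin5 d with rfl | rfl | rfl | rfl | rfl
          · exact absurd rfl had
          · exact absurd rfl hbd
          · exact absurd rfl hed
          · skip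
            exact tm_01_2_34 m hm s hT.swap_cd
          · exact absurd rfl hcd
      · exact absurd rfl heb
      · skip
        rcases fin5 c with rfl | rfl | rfl | rfl | rfl
        · exact absurd rfl hac
        · skip
          rcases fin5 d with rfl | rfl | rfl | rfl | rfl
          · exact absurd rfl had
          · exact absurd rfl hcd
          · exact absurd rfl hed
          · exact absurd rfl hbd
          · skip
            exact tm_03_2_14 m hm s hT
        · exact absurd rfl hec
        · exact absurd rfl hbc
        · skip
          rcases fin5 d with rfl | rfl | rfl | rfl | rfl
          · exact absurd rfl had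
          · skip
            exact tm_03_2_14 m hm s hT.swap_cd
          · exact absurd rfl hed
          · exact absurd rfl hbd
          · exact absurd rfl hcd
      · skip
        rcases fin5 c with rfl | rfl | rfl | rfl | rfl
        · exact absurd rfl hac
        · skip
          rcases fin5 d with rfl | rfl | rfl | rfl | rfl
          · exact absurd rfl had
          · exact absurd rfl hcd
          · exact absurd rfl hed
          · skip
            exact tm_04_2_13 m hm s hT
          · exact absurd rfl hbd
        · exact absurd rfl hec
        · skip
          rcases fin5 d with rfl | rfl | rfl | rfl | rfl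
          · exact absurd rfl had
          · skip
            exact tm_04_2_13 m hm s hT.swap_cd
          · exact absurd rfl hed
          · exact absurd rfl hcd
          · exact absurd rfl hbd
        · exact absurd rfl hbc
    · skip
      rcases fin5 b with rfl | rfl | rfl | rfl | rfl
      · skip
        rcases fin5 c with rfl | rfl | rfl | rfl | rfl
        · exact absurd rfl hbc
        · exact absurd rfl hac
        · exact absurd rfl hec
        · skip
          rcases fin5 d with rfl | rfl | rfl | rfl | rfl
          · exact absurd rfl hbd
          · exact absurd rfl had
          · exact absurd rfl hed
          · exact absurd rfl hcd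
          · skip
            exact tm_01_2_34 m hm s hT.swap_ab
        · skip
          rcases fin5 d with rfl | rfl | rfl | rfl | rfl
          · exact absurd rfl hbd
          · exact absurd rfl had
          · exact absurd rfl hed
          · skip
            exact tm_01_2_34 m hm s hT.swap_ab.swap_cd
          · exact absurd rfl hcd
      · exact absurd rfl hab
      · exact absurd rfl heb
      · skip
        rcases fin5 c with rfl | rfl | rfl | rfl | rfl
        · skip
          rcases fin5 d with rfl | rfl | rfl | rfl | rfl
          · exact absurd rfl hcd
          · exact absurd rfl had
          · exact absurd rfl hed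
          · exact absurd rfl hbd
          · skip
            exact tm_04_2_13 m hm s hT.swap_pairs
        · exact absurd rfl hac
        · exact absurd rfl hec
        · exact absurd rfl hbc
        · skip
          rcases fin5 d with rfl | rfl | rfl | rfl | rfl
          · skip
            exact tm_04_2_13 m hm s hT.swap_cd.swap_pairs
          · exact absurd rfl had
          · exact absurd rfl hed
          · exact absurd rfl hbd
          · exact absurd rfl hcd
      · skip
        rcases fin5 c with rfl | rfl | rfl | rfl | rfl
        · skip
          rcases fin5 d with rfl | rfl | rfl | rfl | rfl
          · exact absurd rfl hcd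
          · exact absurd rfl had
          · exact absurd rfl hed
          · skip
            exact tm_03_2_14 m hm s hT.swap_pairs
          · exact absurd rfl hbd
        · exact absurd rfl hac
        · exact absurd rfl hec
        · skip
          rcases fin5 d with rfl | rfl | rfl | rfl | rfl
          · skip
            exact tm_03_2_14 m hm s hT.swap_cd.swap_pairs
          · exact absurd rfl had
          · exact absurd rfl hed
          · exact absurd rfl hcd
          · exact absurd rfl hbd
        · exact absurd rfl hbc
    · exact absurd rfl hea
    · skip
      rcases fin5 b with rfl | rfl | rfl | rfl | rfl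
      · skip
        rcases fin5 c with rfl | rfl | rfl | rfl | rfl
        · exact absurd rfl hbc
        · skip
          rcases fin5 d with rfl | rfl | rfl | rfl | rfl
          · exact absurd rfl hbd
          · exact absurd rfl hcd
          · exact absurd rfl hed
          · exact absurd rfl had
          · skip
            exact tm_03_2_14 m hm s hT.swap_ab
        · exact absurd rfl hec
        · exact absurd rfl hac
        · skip
          rcases fin5 d with rfl | rfl | rfl | rfl | rfl
          · exact absurd rfl hbd
          · skip
            exact tm_03_2_14 m hm s hT.swap_ab.swap_cd
          · exact absurd rfl hed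
          · exact absurd rfl had
          · exact absurd rfl hcd
      · skip
        rcases fin5 c with rfl | rfl | rfl | rfl | rfl
        · skip
          rcases fin5 d with rfl | rfl | rfl | rfl | rfl
          · exact absurd rfl hcd
          · exact absurd rfl hbd
          · exact absurd rfl hed
          · exact absurd rfl had
          · skip
            exact tm_04_2_13 m hm s hT.swap_ab.swap_pairs
        · exact absurd rfl hbc
        · exact absurd rfl hec
        · exact absurd rfl hac
        · skip
          rcases fin5 d with rfl | rfl | rfl | rfl | rfl
          · skip
            exact tm_04_2_13 m hm s hT.swap_ab.swap_cd.swap_pairs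
          · exact absurd rfl hbd
          · exact absurd rfl hed
          · exact absurd rfl had
          · exact absurd rfl hcd
      · exact absurd rfl heb
      · exact absurd rfl hab
      · skip
        rcases fin5 c with rfl | rfl | rfl | rfl | rfl
        · skip
          rcases fin5 d with rfl | rfl | rfl | rfl | rfl
          · exact absurd rfl hcd
          · skip
            exact tm_01_2_34 m hm s hT.swap_pairs
          · exact absurd rfl hed
          · exact absurd rfl had
          · exact absurd rfl hbd
        · skip
          rcases fin5 d with rfl | rfl | rfl | rfl | rfl
          · skip
            exact tm_01_2_34 m hm s hT.swap_cd.swap_pairs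
          · exact absurd rfl hcd
          · exact absurd rfl hed
          · exact absurd rfl had
          · exact absurd rfl hbd
        · exact absurd rfl hec
        · exact absurd rfl hac
        · exact absurd rfl hbc
    · skip
      rcases fin5 b with rfl | rfl | rfl | rfl | rfl
      · skip
        rcases fin5 c with rfl | rfl | rfl | rfl | rfl
        · exact absurd rfl hbc
        · skip
          rcases fin5 d with rfl | rfl | rfl | rfl | rfl
          · exact absurd rfl hbd
          · exact absurd rfl hcd
          · exact absurd rfl hed
          · skip
            exact tm_04_2_13 m hm s hT.swap_ab
          · exact absurd rfl had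
        · exact absurd rfl hec
        · skip
          rcases fin5 d with rfl | rfl | rfl | rfl | rfl
          · exact absurd rfl hbd
          · skip
            exact tm_04_2_13 m hm s hT.swap_ab.swap_cd
          · exact absurd rfl hed
          · exact absurd rfl hcd
          · exact absurd rfl had
        · exact absurd rfl hac
      · skip
        rcases fin5 c with rfl | rfl | rfl | rfl | rfl
        · skip
          rcases fin5 d with rfl | rfl | rfl | rfl | rfl
          · exact absurd rfl hcd
          · exact absurd rfl hbd
          · exact absurd rfl hed
          · skip
            exact tm_03_2_14 m hm s hT.swap_ab.swap_pairs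
          · exact absurd rfl had
        · exact absurd rfl hbc
        · exact absurd rfl hec
        · skip
          rcases fin5 d with rfl | rfl | rfl | rfl | rfl
          · skip
            exact tm_03_2_14 m hm s hT.swap_ab.swap_cd.swap_pairs
          · exact absurd rfl hbd
          · exact absurd rfl hed
          · exact absurd rfl hcd
          · exact absurd rfl had
        · exact absurd rfl hac
      · exact absurd rfl heb
      · skip
        rcases fin5 c with rfl | rfl | rfl | rfl | rfl
        · skip
          rcases fin5 d with rfl | rfl | rfl | rfl | rfl
          · exact absurd rfl hcd
          · skip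
            exact tm_01_2_34 m hm s hT.swap_ab.swap_pairs
          · exact absurd rfl hed
          · exact absurd rfl hbd
          · exact absurd rfl had
        · skip
          rcases fin5 d with rfl | rfl | rfl | rfl | rfl
          · skip
            exact tm_01_2_34 m hm s hT.swap_ab.swap_cd.swap_pairs
          · exact absurd rfl hcd
          · exact absurd rfl hed
          · exact absurd rfl hbd
          · exact absurd rfl had
        · exact absurd rfl hec
        · exact absurd rfl hbc
        · exact absurd rfl hac
      · exact absurd rfl hab
  · skip
    rcases fin5 a with rfl | rfl | rfl | rfl | rfl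
    · skip
      rcases fin5 b with rfl | rfl | rfl | rfl | rfl
      · exact absurd rfl hab
      · skip
        rcases fin5 c with rfl | rfl | rfl | rfl | rfl
        · exact absurd rfl hac
        · exact absurd rfl hbc
        · skip
          rcases fin5 d with rfl | rfl | rfl | rfl | rfl
          · exact absurd rfl had
          · exact absurd rfl hbd
          · exact absurd rfl hcd
          · exact absurd rfl hed
          · skip
            exact tm_01_3_24 m hm s hT
        · exact absurd rfl hec
        · skip
          rcases fin5 d with rfl | rfl | rfl | rfl | rfl
          · exact absurd rfl had
          · exact absurd rfl hbd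
          · skip
            exact tm_01_3_24 m hm s hT.swap_cd
          · exact absurd rfl hed
          · exact absurd rfl hcd
      · skip
        rcases fin5 c with rfl | rfl | rfl | rfl | rfl
        · exact absurd rfl hac
        · skip
          rcases fin5 d with rfl | rfl | rfl | rfl | rfl
          · exact absurd rfl had
          · exact absurd rfl hcd
          · exact absurd rfl hbd
          · exact absurd rfl hed
          · skip
            exact tm_02_3_14 m hm s hT
        · exact absurd rfl hbc
        · exact absurd rfl hec
        · skip
          rcases fin5 d with rfl | rfl | rfl | rfl | rfl
          · exact absurd rfl had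
          · skip
            exact tm_02_3_14 m hm s hT.swap_cd
          · exact absurd rfl hbd
          · exact absurd rfl hed
          · exact absurd rfl hcd
      · exact absurd rfl heb
      · skip
        rcases fin5 c with rfl | rfl | rfl | rfl | rfl
        · exact absurd rfl hac
        · skip
          rcases fin5 d with rfl | rfl | rfl | rfl | rfl
          · exact absurd rfl had
          · exact absurd rfl hcd
          · skip
            exact tm_04_3_12 m hm s hT
          · exact absurd rfl hed
          · exact absurd rfl hbd
        · skip
          rcases fin5 d with rfl | rfl | rfl | rfl | rfl
          · exact absurd rfl had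
          · skip
            exact tm_04_3_12 m hm s hT.swap_cd
          · exact absurd rfl hcd
          · exact absurd rfl hed
          · exact absurd rfl hbd
        · exact absurd rfl hec
        · exact absurd rfl hbc
    · skip
      rcases fin5 b with rfl | rfl | rfl | rfl | rfl
      · skip
        rcases fin5 c with rfl | rfl | rfl | rfl | rfl
        · exact absurd rfl hbc
        · exact absurd rfl hac
        · skip
          rcases fin5 d with rfl | rfl | rfl | rfl | rfl
          · exact absurd rfl hbd
          · exact absurd rfl had
          · exact absurd rfl hcd
          · exact absurd rfl hed
          · skip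
            exact tm_01_3_24 m hm s hT.swap_ab
        · exact absurd rfl hec
        · skip
          rcases fin5 d with rfl | rfl | rfl | rfl | rfl
          · exact absurd rfl hbd
          · exact absurd rfl had
          · skip
            exact tm_01_3_24 m hm s hT.swap_ab.swap_cd
          · exact absurd rfl hed
          · exact absurd rfl hcd
      · exact absurd rfl hab
      · skip
        rcases fin5 c with rfl | rfl | rfl | rfl | rfl
        · skip
          rcases fin5 d with rfl | rfl | rfl | rfl | rfl
          · exact absurd rfl hcd
          · exact absurd rfl had
          · exact absurd rfl hbd
          · exact absurd rfl hed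
          · skip
            exact tm_04_3_12 m hm s hT.swap_pairs
        · exact absurd rfl hac
        · exact absurd rfl hbc
        · exact absurd rfl hec
        · skip
          rcases fin5 d with rfl | rfl | rfl | rfl | rfl
          · skip
            exact tm_04_3_12 m hm s hT.swap_cd.swap_pairs
          · exact absurd rfl had
          · exact absurd rfl hbd
          · exact absurd rfl hed
          · exact absurd rfl hcd
      · exact absurd rfl heb
      · skip
        rcases fin5 c with rfl | rfl | rfl | rfl | rfl
        · skip
          rcases fin5 d with rfl | rfl | rfl | rfl | rfl
          · exact absurd rfl hcd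
          · exact absurd rfl had
          · skip
            exact tm_02_3_14 m hm s hT.swap_pairs
          · exact absurd rfl hed
          · exact absurd rfl hbd
        · exact absurd rfl hac
        · skip
          rcases fin5 d with rfl | rfl | rfl | rfl | rfl
          · skip
            exact tm_02_3_14 m hm s hT.swap_cd.swap_pairs
          · exact absurd rfl had
          · exact absurd rfl hcd
          · exact absurd rfl hed
          · exact absurd rfl hbd
        · exact absurd rfl hec
        · exact absurd rfl hbc
    · skip
      rcases fin5 b with rfl | rfl | rfl | rfl | rfl
      · skip
        rcases fin5 c with rfl | rfl | rfl | rfl | rfl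
        · exact absurd rfl hbc
        · skip
          rcases fin5 d with rfl | rfl | rfl | rfl | rfl
          · exact absurd rfl hbd
          · exact absurd rfl hcd
          · exact absurd rfl had
          · exact absurd rfl hed
          · skip
            exact tm_02_3_14 m hm s hT.swap_ab
        · exact absurd rfl hac
        · exact absurd rfl hec
        · skip
          rcases fin5 d with rfl | rfl | rfl | rfl | rfl
          · exact absurd rfl hbd
          · skip
            exact tm_02_3_14 m hm s hT.swap_ab.swap_cd
          · exact absurd rfl had
          · exact absurd rfl hed
          · exact absurd rfl hcd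
      · skip
        rcases fin5 c with rfl | rfl | rfl | rfl | rfl
        · skip
          rcases fin5 d with rfl | rfl | rfl | rfl | rfl
          · exact absurd rfl hcd
          · exact absurd rfl hbd
          · exact absurd rfl had
          · exact absurd rfl hed
          · skip
            exact tm_04_3_12 m hm s hT.swap_ab.swap_pairs
        · exact absurd rfl hbc
        · exact absurd rfl hac
        · exact absurd rfl hec
        · skip
          rcases fin5 d with rfl | rfl | rfl | rfl | rfl
          · skip
            exact tm_04_3_12 m hm s hT.swap_ab.swap_cd.swap_pairs
          · exact absurd rfl hbd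
          · exact absurd rfl had
          · exact absurd rfl hed
          · exact absurd rfl hcd
      · exact absurd rfl hab
      · exact absurd rfl heb
      · skip
        rcases fin5 c with rfl | rfl | rfl | rfl | rfl
        · skip
          rcases fin5 d with rfl | rfl | rfl | rfl | rfl
          · exact absurd rfl hcd
          · skip
            exact tm_01_3_24 m hm s hT.swap_pairs
          · exact absurd rfl had
          · exact absurd rfl hed
          · exact absurd rfl hbd
        · skip
          rcases fin5 d with rfl | rfl | rfl | rfl | rfl
          · skip
            exact tm_01_3_24 m hm s hT.swap_cd.swap_pairs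
          · exact absurd rfl hcd
          · exact absurd rfl had
          · exact absurd rfl hed
          · exact absurd rfl hbd
        · exact absurd rfl hac
        · exact absurd rfl hec
        · exact absurd rfl hbc
    · exact absurd rfl hea
    · skip
      rcases fin5 b with rfl | rfl | rfl | rfl | rfl
      · skip
        rcases fin5 c with rfl | rfl | rfl | rfl | rfl
        · exact absurd rfl hbc
        · skip
          rcases fin5 d with rfl | rfl | rfl | rfl | rfl
          · exact absurd rfl hbd
          · exact absurd rfl hcd
          · skip
            exact tm_04_3_12 m hm s hT.swap_ab
          · exact absurd rfl hed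
          · exact absurd rfl had
        · skip
          rcases fin5 d with rfl | rfl | rfl | rfl | rfl
          · exact absurd rfl hbd
          · skip
            exact tm_04_3_12 m hm s hT.swap_ab.swap_cd
          · exact absurd rfl hcd
          · exact absurd rfl hed
          · exact absurd rfl had
        · exact absurd rfl hec
        · exact absurd rfl hac
      · skip
        rcases fin5 c with rfl | rfl | rfl | rfl | rfl
        · skip
          rcases fin5 d with rfl | rfl | rfl | rfl | rfl
          · exact absurd rfl hcd
          · exact absurd rfl hbd
          · skip
            exact tm_02_3_14 m hm s hT.swap_ab.swap_pairs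
          · exact absurd rfl hed
          · exact absurd rfl had
        · exact absurd rfl hbc
        · skip
          rcases fin5 d with rfl | rfl | rfl | rfl | rfl
          · skip
            exact tm_02_3_14 m hm s hT.swap_ab.swap_cd.swap_pairs
          · exact absurd rfl hbd
          · exact absurd rfl hcd
          · exact absurd rfl hed
          · exact absurd rfl had
        · exact absurd rfl hec
        · exact absurd rfl hac
      · skip
        rcases fin5 c with rfl | rfl | rfl | rfl | rfl
        · skip
          rcases fin5 d with rfl | rfl | rfl | rfl | rfl
          · exact absurd rfl hcd
          · skip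
            exact tm_01_3_24 m hm s hT.swap_ab.swap_pairs
          · exact absurd rfl hbd
          · exact absurd rfl hed
          · exact absurd rfl had
        · skip
          rcases fin5 d with rfl | rfl | rfl | rfl | rfl
          · skip
            exact tm_01_3_24 m hm s hT.swap_ab.swap_cd.swap_pairs
          · exact absurd rfl hcd
          · exact absurd rfl hbd
          · exact absurd rfl hed
          · exact absurd rfl had
        · exact absurd rfl hbc
        · exact absurd rfl hec
        · exact absurd rfl hac
      · exact absurd rfl heb
      · exact absurd rfl hab
  · skip
    rcases fin5 a with rfl | rfl | rfl | rfl | rfl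
    · skip
      rcases fin5 b with rfl | rfl | rfl | rfl | rfl
      · exact absurd rfl hab
      · skip
        rcases fin5 c with rfl | rfl | rfl | rfl | rfl
        · exact absurd rfl hac
        · exact absurd rfl hbc
        · skip
          rcases fin5 d with rfl | rfl | rfl | rfl | rfl
          · exact absurd rfl had
          · exact absurd rfl hbd
          · exact absurd rfl hcd
          · skip
            exact tm_01_4_23 m hm s hT
          · exact absurd rfl hed
        · skip
          rcases fin5 d with rfl | rfl | rfl | rfl | rfl
          · exact absurd rfl had
          · exact absurd rfl hbd
          · skip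
            exact tm_01_4_23 m hm s hT.swap_cd
          · exact absurd rfl hcd
          · exact absurd rfl hed
        · exact absurd rfl hec
      · skip
        rcases fin5 c with rfl | rfl | rfl | rfl | rfl
        · exact absurd rfl hac
        · skip
          rcases fin5 d with rfl | rfl | rfl | rfl | rfl
          · exact absurd rfl had
          · exact absurd rfl hcd
          · exact absurd rfl hbd
          · skip
            exact tm_02_4_13 m hm s hT
          · exact absurd rfl hed
        · exact absurd rfl hbc
        · skip
          rcases fin5 d with rfl | rfl | rfl | rfl | rfl
          · exact absurd rfl had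
          · skip
            exact tm_02_4_13 m hm s hT.swap_cd
          · exact absurd rfl hbd
          · exact absurd rfl hcd
          · exact absurd rfl hed
        · exact absurd rfl hec
      · skip
        rcases fin5 c with rfl | rfl | rfl | rfl | rfl
        · exact absurd rfl hac
        · skip
          rcases fin5 d with rfl | rfl | rfl | rfl | rfl
          · exact absurd rfl had
          · exact absurd rfl hcd
          · skip
            exact tm_03_4_12 m hm s hT
          · exact absurd rfl hbd
          · exact absurd rfl hed
        · skip
          rcases fin5 d with rfl | rfl | rfl | rfl | rfl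
          · exact absurd rfl had
          · skip
            exact tm_03_4_12 m hm s hT.swap_cd
          · exact absurd rfl hcd
          · exact absurd rfl hbd
          · exact absurd rfl hed
        · exact absurd rfl hbc
        · exact absurd rfl hec
      · exact absurd rfl heb
    · skip
      rcases fin5 b with rfl | rfl | rfl | rfl | rfl
      · skip
        rcases fin5 c with rfl | rfl | rfl | rfl | rfl
        · exact absurd rfl hbc
        · exact absurd rfl hac
        · skip
          rcases fin5 d with rfl | rfl | rfl | rfl | rfl
          · exact absurd rfl hbd
          · exact absurd rfl had
          · exact absurd rfl hcd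
          · skip
            exact tm_01_4_23 m hm s hT.swap_ab
          · exact absurd rfl hed
        · skip
          rcases fin5 d with rfl | rfl | rfl | rfl | rfl
          · exact absurd rfl hbd
          · exact absurd rfl had
          · skip
            exact tm_01_4_23 m hm s hT.swap_ab.swap_cd
          · exact absurd rfl hcd
          · exact absurd rfl hed
        · exact absurd rfl hec
      · exact absurd rfl hab
      · skip
        rcases fin5 c with rfl | rfl | rfl | rfl | rfl
        · skip
          rcases fin5 d with rfl | rfl | rfl | rfl | rfl
          · exact absurd rfl hcd
          · exact absurd rfl had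
          · exact absurd rfl hbd
          · skip
            exact tm_03_4_12 m hm s hT.swap_pairs
          · exact absurd rfl hed
        · exact absurd rfl hac
        · exact absurd rfl hbc
        · skip
          rcases fin5 d with rfl | rfl | rfl | rfl | rfl
          · skip
            exact tm_03_4_12 m hm s hT.swap_cd.swap_pairs
          · exact absurd rfl had
          · exact absurd rfl hbd
          · exact absurd rfl hcd
          · exact absurd rfl hed
        · exact absurd rfl hec
      · skip
        rcases fin5 c with rfl | rfl | rfl | rfl | rfl
        · skip
          rcases fin5 d with rfl | rfl | rfl | rfl | rfl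
          · exact absurd rfl hcd
          · exact absurd rfl had
          · skip
            exact tm_02_4_13 m hm s hT.swap_pairs
          · exact absurd rfl hbd
          · exact absurd rfl hed
        · exact absurd rfl hac
        · skip
          rcases fin5 d with rfl | rfl | rfl | rfl | rfl
          · skip
            exact tm_02_4_13 m hm s hT.swap_cd.swap_pairs
          · exact absurd rfl had
          · exact absurd rfl hcd
          · exact absurd rfl hbd
          · exact absurd rfl hed
        · exact absurd rfl hbc
        · exact absurd rfl hec
      · exact absurd rfl heb
    · skip
      rcases fin5 b with rfl | rfl | rfl | rfl | rfl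
      · skip
        rcases fin5 c with rfl | rfl | rfl | rfl | rfl
        · exact absurd rfl hbc
        · skip
          rcases fin5 d with rfl | rfl | rfl | rfl | rfl
          · exact absurd rfl hbd
          · exact absurd rfl hcd
          · exact absurd rfl had
          · skip
            exact tm_02_4_13 m hm s hT.swap_ab
          · exact absurd rfl hed
        · exact absurd rfl hac
        · skip
          rcases fin5 d with rfl | rfl | rfl | rfl | rfl
          · exact absurd rfl hbd
          · skip
            exact tm_02_4_13 m hm s hT.swap_ab.swap_cd
          · exact absurd rfl had
          · exact absurd rfl hcd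
          · exact absurd rfl hed
        · exact absurd rfl hec
      · skip
        rcases fin5 c with rfl | rfl | rfl | rfl | rfl
        · skip
          rcases fin5 d with rfl | rfl | rfl | rfl | rfl
          · exact absurd rfl hcd
          · exact absurd rfl hbd
          · exact absurd rfl had
          · skip
            exact tm_03_4_12 m hm s hT.swap_ab.swap_pairs
          · exact absurd rfl hed
        · exact absurd rfl hbc
        · exact absurd rfl hac
        · skip
          rcases fin5 d with rfl | rfl | rfl | rfl | rfl
          · skip
            exact tm_03_4_12 m hm s hT.swap_ab.swap_cd.swap_pairs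
          · exact absurd rfl hbd
          · exact absurd rfl had
          · exact absurd rfl hcd
          · exact absurd rfl hed
        · exact absurd rfl hec
      · exact absurd rfl hab
      · skip
        rcases fin5 c with rfl | rfl | rfl | rfl | rfl
        · skip
          rcases fin5 d with rfl | rfl | rfl | rfl | rfl
          · exact absurd rfl hcd
          · skip
            exact tm_01_4_23 m hm s hT.swap_pairs
          · exact absurd rfl had
          · exact absurd rfl hbd
          · exact absurd rfl hed
        · skip
          rcases fin5 d with rfl | rfl | rfl | rfl | rfl
          · skip
            exact tm_01_4_23 m hm s hT.swap_cd.swap_pairs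
          · exact absurd rfl hcd
          · exact absurd rfl had
          · exact absurd rfl hbd
          · exact absurd rfl hed
        · exact absurd rfl hac
        · exact absurd rfl hbc
        · exact absurd rfl hec
      · exact absurd rfl heb
    · skip
      rcases fin5 b with rfl | rfl | rfl | rfl | rfl
      · skip
        rcases fin5 c with rfl | rfl | rfl | rfl | rfl
        · exact absurd rfl hbc
        · skip
          rcases fin5 d with rfl | rfl | rfl | rfl | rfl
          · exact absurd rfl hbd
          · exact absurd rfl hcd
          · skip
            exact tm_03_4_12 m hm s hT.swap_ab
          · exact absurd rfl had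
          · exact absurd rfl hed
        · skip
          rcases fin5 d with rfl | rfl | rfl | rfl | rfl
          · exact absurd rfl hbd
          · skip
            exact tm_03_4_12 m hm s hT.swap_ab.swap_cd
          · exact absurd rfl hcd
          · exact absurd rfl had
          · exact absurd rfl hed
        · exact absurd rfl hac
        · exact absurd rfl hec
      · skip
        rcases fin5 c with rfl | rfl | rfl | rfl | rfl
        · skip
          rcases fin5 d with rfl | rfl | rfl | rfl | rfl
          · exact absurd rfl hcd
          · exact absurd rfl hbd
          · skip
            exact tm_02_4_13 m hm s hT.swap_ab.swap_pairs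
          · exact absurd rfl had
          · exact absurd rfl hed
        · exact absurd rfl hbc
        · skip
          rcases fin5 d with rfl | rfl | rfl | rfl | rfl
          · skip
            exact tm_02_4_13 m hm s hT.swap_ab.swap_cd.swap_pairs
          · exact absurd rfl hbd
          · exact absurd rfl hcd
          · exact absurd rfl had
          · exact absurd rfl hed
        · exact absurd rfl hac
        · exact absurd rfl hec
      · skip
        rcases fin5 c with rfl | rfl | rfl | rfl | rfl
        · skip
          rcases fin5 d with rfl | rfl | rfl | rfl | rfl
          · exact absurd rfl hcd
          · skip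
            exact tm_01_4_23 m hm s hT.swap_ab.swap_pairs
          · exact absurd rfl hbd
          · exact absurd rfl had
          · exact absurd rfl hed
        · skip
          rcases fin5 d with rfl | rfl | rfl | rfl | rfl
          · skip
            exact tm_01_4_23 m hm s hT.swap_ab.swap_cd.swap_pairs
          · exact absurd rfl hcd
          · exact absurd rfl hbd
          · exact absurd rfl had
          · exact absurd rfl hed
        · exact absurd rfl hbc
        · exact absurd rfl hac
        · exact absurd rfl hec
      · exact absurd rfl hab
      · exact absurd rfl heb
    · exact absurd rfl hea

theorem mu_perm_sum (m : ℕ) (s : Fin 5 → ℕ) (hz : ∃ z, s z = 0) (σ : Equiv.Perm (Fin 5)) :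
    mu m s (σ 0) + mu m s (σ 1) + mu m s (σ 2) + mu m s (σ 3) + mu m s (σ 4) = 24 * m := by
  have h := mu_sum m s hz
  have h2 := Equiv.sum_comp σ (mu m s)
  rw [Fin.sum_univ_five, Fin.sum_univ_five] at h2
  omega

theorem comb_K (m : ℕ) (hm : 100000 ≤ m) (A : Fin 5 → ℝ) (σ : Equiv.Perm (Fin 5)) : ¬ KCase m A σ := by
  rintro ⟨h1, h2, h3, h4⟩
  obtain ⟨hL1, hL2, hL3⟩ := levels
  have hsum := mu_perm_sum m (thr m A) (hL1 m A).1 σ
  have e0 := (hL2 m A (σ 0)).1
  have e1 := (hL2 m A (σ 1)).1
  have e2 := (hL2 m A (σ 2)).1
  have e3 := (hL2 m A (σ 3)).1
  have e4 := (hL2 m A (σ 4)).1
  omega

theorem tiny_of (m : ℕ) (hm : 100000 ≤ m) (s : Fin 5 → ℕ) (σ : Equiv.Perm (Fin 5))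
    (i j k l n : Fin 5) (hij : i ≠ j) (hcov : ∀ x, x = i ∨ x = j ∨ x = k ∨ x = l ∨ x = n)
    (hz : ∃ z, s z = 0) (hs : ∀ x, s x ≤ 24 * m)
    (hP : ∃ r, CPath m s (σ i) (σ j) r ∨ CPath m s (σ j) (σ i) r)
    (hi : mu m s (σ i) ≤ 3000) (hj : mu m s (σ j) ≤ 3000)
    (hk : 8 * m ≤ mu m s (σ k) + 3000) (hl : 8 * m ≤ mu m s (σ l) + 3000)
    (hn : 8 * m ≤ mu m s (σ n) + 3000) : False := by
  have hne : σ i ≠ σ j := fun h => hij (σ.injective h)
  have hall : ∀ x, x ≠ σ i → x ≠ σ j → 8 * m ≤ mu m s x + 3000 := by
    intro x hx1 hx2
    obtain ⟨y, rfl⟩ := σ.surjective x
    rcases hcov y with h | h | h | h | h
    · exact absurd (by rw [h]) hx1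
    · exact absurd (by rw [h]) hx2
    · rw [h]; exact hk
    · rw [h]; exact hl
    · rw [h]; exact hn
  obtain ⟨r, hP | hP⟩ := hP
  · exact tiny_false m hm s (σ i) (σ j) hne (Or.inl ⟨hz, hs, ⟨r, hP⟩, hi, hj, hall⟩)
  · exact tiny_false m hm s (σ i) (σ j) hne
      (Or.inr ⟨hz, hs, ⟨r, hP⟩, hj, hi, fun x h1 h2 => hall x h2 h1⟩)

theorem comb_T0 (m : ℕ) (hm : 100000 ≤ m) (A : Fin 5 → ℝ) (σ : Equiv.Perm (Fin 5)) : ¬ T0Case m A σ := by
  rintro ⟨hH, h3, h4, h20, h21⟩
  obtain ⟨hL1, hL2, hL3⟩ := levels
  have hsum := mu_perm_sum m (thr m A) (hL1 m A).1 σ
  have e0 := (hL2 m A (σ 0)).1
  have e1 := (hL2 m A (σ 1)).1
  have e2 := (hL2 m A (σ 2)).1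
  have e3 := (hL2 m A (σ 3)).1
  have e4 := (hL2 m A (σ 4)).1
  have hP := hL3 m A (σ 0) (σ 1) (fun h => absurd (σ.injective h) (by decide)) hH
  exact tiny_of m hm (thr m A) σ 0 1 2 3 4 (by decide) (by decide) (hL1 m A).1 (hL1 m A).2 hP
    (by omega) (by omega) (by omega) (by omega) (by omega)

theorem comb_Tm (m : ℕ) (hm : 100000 ≤ m) (A : Fin 5 → ℝ) (σ : Equiv.Perm (Fin 5)) : ¬ TmCase m A σ := by
  rintro ⟨hH, hH', h2, h03, h04, h13, h14⟩
  obtain ⟨hL1, hL2, hL3⟩ := levels
  have hsum := mu_perm_sum m (thr m A) (hL1 m A).1 σ
  have e0 := (hL2 m A (σ 0)).1
  have e1 := (hL2 m A (σ 1)).1
  have e2 := (hL2 m A (σ 2)).1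
  have e3 := (hL2 m A (σ 3)).1
  have e4 := (hL2 m A (σ 4)).1
  have hinj : ∀ x y : Fin 5, x ≠ y → σ x ≠ σ y := fun x y h h' => h (σ.injective h')
  have hP := hL3 m A (σ 0) (σ 1) (hinj 0 1 (by decide)) hH
  have hP' := hL3 m A (σ 3) (σ 4) (hinj 3 4 (by decide)) hH'
  by_cases c1 : mu m (thr m A) (σ 0) < 2000 ∨ mu m (thr m A) (σ 1) < 2000
  · exact tiny_of m hm (thr m A) σ 0 1 2 3 4 (by decide) (by decide) (hL1 m A).1 (hL1 m A).2 hP
      (by omega) (by omega) (by omega) (by omega) (by omega)
  by_cases c2 : mu m (thr m A) (σ 3) < 2000 ∨ mu m (thr m A) (σ 4) < 2000
  · exact tiny_of m hm (thr m A) σ 3 4 0 1 2 (by decide) (by decide) (hL1 m A).1 (hL1 m A).2 hP'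
      (by omega) (by omega) (by omega) (by omega) (by omega)
  have hall : ∀ i, 2000 ≤ mu m (thr m A) i := by
    intro i
    obtain ⟨y, rfl⟩ := σ.surjective i
    rcases fin5 y with rfl | rfl | rfl | rfl | rfl <;> omega
  refine tmc_false m hm (thr m A) (σ 0) (σ 1) (σ 2) (σ 3) (σ 4)
    (hinj _ _ (by decide)) (hinj _ _ (by decide)) (hinj _ _ (by decide)) (hinj _ _ (by decide))
    (hinj _ _ (by decide)) (hinj _ _ (by decide)) (hinj _ _ (by decide))
    (hinj _ _ (by decide)) (hinj _ _ (by decide)) (hinj _ _ (by decide))
    ⟨(hL1 m A).1, (hL1 m A).2, hP, hP', by omega, by omega, by omega, by omega, by omega, hall⟩

theorem comb : CombStmt :=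
  ⟨100000, by norm_num, fun A s => ⟨comb_K _ le_rfl A s, comb_T0 _ le_rfl A s, comb_Tm _ le_rfl A s⟩⟩

end DeepFlat
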