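import Mathlib
import Pool.Agent.Lib.MP_5d7aef_co.Stmts

/-! Module G: from the normal form to lines in R^4. -/

namespace DeepFlat

open Finset

namespace GeoX

lemma P_pos (m n : ℕ) (i : Fin 5) : 0 < P m n i := by
  unfold P; positivity

lemma P_zero (m n : ℕ) : P m n 0 = 1 := by
  simp [P, rk]

lemma P_four (m n : ℕ) : P m n 4 = (2 ^ 20 : ℝ) ^ (16 ^ n * 4) := by
  simp [P, rk]

lemma P_four_inj {m n n' : ℕ} (h : P m n 4 = P m n' 4) : n = n' := by
  rw [P_four, P_four] at h
  have h1 : 16 ^ n * 4 = 16 ^ n' * 4 :=
    pow_right_injective₀ (by norm_num : (0 : ℝ) < 2 ^ 20) (by norm_num) h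
  have h2 : 16 ^ n = 16 ^ n' := by omega
  exact Nat.pow_right_injective (by norm_num) h2

/-- The main step: a functional vanishing on the line with few points. -/
lemma key (m : ℕ) (hm : 1 ≤ m)
    (hno : ∀ (y t : Fin 5 → ℝ), (∀ i, 0 < y i) → (∃ i j, t i ≠ t j) → ¬ Deep m y t)
    (f g : Fin 5 → ℝ) (hf0 : f 0 = 1) (hg0 : g 0 = 0) (hg : g ≠ 0) :
    ∃ b : Fin 5 → ℝ, b ≠ 0 ∧ ∑ i, b i * f i = 0 ∧ ∑ i, b i * g i = 0 ∧ cnt m b < 8 * m := by
  by_contra hcon
  have hcon' : ∀ b : Fin 5 → ℝ, b ≠ 0 → ∑ i, b i * f i = 0 → ∑ i, b i * g i = 0 →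
      8 * m ≤ cnt m b := by
    intro b hb h1 h2
    by_contra h3
    exact hcon ⟨b, hb, h1, h2, by omega⟩
  let φ : (Fin 5 → ℝ) →ₗ[ℝ] ℝ × ℝ :=
    { toFun := fun w => (∑ i, w i * f i, ∑ i, w i * g i)
      map_add' := by
        intro v w
        simp [add_mul, Finset.sum_add_distrib]
      map_smul' := by
        intro c w
        simp [Finset.mul_sum, mul_assoc] }
  have hφ : ∀ w, φ w = (∑ i, w i * f i, ∑ i, w i * g i) := fun w => rfl
  let T : Set (ℝ × ℝ) := φ '' stdSimplex ℝ (Fin 5)
  have hTconv : Convex ℝ T := (convex_stdSimplex ℝ (Fin 5)).linear_image φ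
  have hTcomp : IsCompact T := (isCompact_stdSimplex ℝ (Fin 5)).image φ.continuous_of_finiteDimensional
  by_cases h0 : (0 : ℝ × ℝ) ∈ T
  · obtain ⟨w, ⟨hw0, hw1⟩, hw⟩ := h0
    rw [hφ] at hw
    have hw2 : ∑ i, w i * f i = 0 := congrArg Prod.fst hw
    have hw3 : ∑ i, w i * g i = 0 := congrArg Prod.snd hw
    have hwne : w ≠ 0 := by
      rintro rfl
      simp at hw1
    have h1 := hcon' (-w) (by simpa using hwne) (by simpa using hw2) (by simpa using hw3)
    have h2 : cnt m (-w) = 0 := by
      unfold cnt
      rw [Finset.card_eq_zero, Finset.filter_eq_empty_iff]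
      intro n _
      push Not
      have h3 : 0 < ∑ i, w i * P m n i := by
        have h4 : ∃ i, w i ≠ 0 := by
          by_contra h5
          push Not at h5
          exact hwne (funext h5)
        obtain ⟨i, hi⟩ := h4
        apply Finset.sum_pos'
        · intro j _
          exact mul_nonneg (hw0 j) (P_pos m n j).le
        · exact ⟨i, Finset.mem_univ _, mul_pos (lt_of_le_of_ne (hw0 i) (Ne.symm hi)) (P_pos m n i)⟩
      have h6 : ∑ i, (-w) i * P m n i = -∑ i, w i * P m n i := by
        simp
      rw [h6]
      linarith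
    omega
  · obtain ⟨F, c, hF0, hF⟩ := geometric_hahn_banach_point_closed hTconv hTcomp.isClosed h0
    rw [map_zero] at hF0
    set α := F (1, 0) with hα
    set β := F (0, 1) with hβ
    have hFval : ∀ a b : ℝ, F (a, b) = a * α + b * β := by
      intro a b
      have : ((a, b) : ℝ × ℝ) = a • ((1, 0) : ℝ × ℝ) + b • ((0, 1) : ℝ × ℝ) := by
        ext <;> simp
      rw [this, map_add, map_smul, map_smul]
      simp [hα, hβ]
    have hy : ∀ i, 0 < α * f i + β * g i := by
      intro i
      have h1 : φ (Pi.single i 1) ∈ T :=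
        ⟨Pi.single i 1, single_mem_stdSimplex ℝ i, rfl⟩
      have h2 := hF _ h1
      rw [hφ, hFval] at h2
      have h3 : ∑ j, (Pi.single i (1 : ℝ) : Fin 5 → ℝ) j * f j = f i := by
        simp [Pi.single_apply]
      have h4 : ∑ j, (Pi.single i (1 : ℝ) : Fin 5 → ℝ) j * g j = g i := by
        simp [Pi.single_apply]
      rw [h3, h4] at h2
      nlinarith
    set y : Fin 5 → ℝ := fun i => α * f i + β * g i with hydef
    set t : Fin 5 → ℝ := fun i => (-β * f i + α * g i) / y i with htdef
    have hyt : ∀ i, t i * y i = -β * f i + α * g i := by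
      intro i
      simp only [htdef]
      exact div_mul_cancel₀ _ (hy i).ne'
    have hαβ : α ^ 2 + β ^ 2 ≠ 0 := by
      intro h
      have h1 : α = 0 := by nlinarith [sq_nonneg α, sq_nonneg β]
      have h2 : β = 0 := by nlinarith [sq_nonneg α, sq_nonneg β]
      have := hy 0
      rw [h1, h2] at this
      simp at this
    refine hno y t hy ?_ ?_
    · by_contra hall
      push Not at hall
      set e := t 0 with he
      have h1 : ∀ i, -β * f i + α * g i = e * (α * f i + β * g i) := by
        intro i
        rw [← hyt i, hall i 0]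
      have h2 := h1 0
      rw [hf0, hg0] at h2
      have h3 : β = -(e * α) := by linarith
      have h4 : ∀ i, (α - e * β) * g i = 0 := by
        intro i
        have := h1 i
        have h5 : (β + e * α) * f i = 0 := by rw [h3]; ring
        linarith
      obtain ⟨i, hi⟩ : ∃ i, g i ≠ 0 := by
        by_contra h5
        push Not at h5
        exact hg (funext h5)
      have h5 : α - e * β = 0 := by
        rcases mul_eq_zero.mp (h4 i) with h | h
        · exact h
        · exact absurd h hi
      have h6 : α = e * β := by linarith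
      have h7 : β * (1 + e ^ 2) = 0 := by
        have : β = -(e * (e * β)) := by rw [← h6]; exact h3
        nlinarith
      have h8 : β = 0 := by
        rcases mul_eq_zero.mp h7 with h | h
        · exact h
        · nlinarith [sq_nonneg e]
      apply hαβ
      rw [h6, h8]; ring
    · intro B hB hB1 hB2
      apply hcon'
      · intro h
        apply hB
        funext i
        have h1 := congrFun h i
        simp only [Pi.zero_apply] at h1 ⊢
        rcases div_eq_zero_iff.mp h1 with h2 | h2
        · exact h2
        · exact absurd h2 (hy i).ne'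
      all_goals
        have e1 : α * (∑ i, B i / y i * f i) + β * (∑ i, B i / y i * g i) = 0 := by
          rw [← hB1, Finset.mul_sum, Finset.mul_sum, ← Finset.sum_add_distrib]
          refine Finset.sum_congr rfl fun i _ => ?_
          have : B i / y i * y i = B i := div_mul_cancel₀ _ (hy i).ne'
          calc α * (B i / y i * f i) + β * (B i / y i * g i) = B i / y i * y i := by
                simp only [hydef]; ring
            _ = B i := this
        have e2 : -β * (∑ i, B i / y i * f i) + α * (∑ i, B i / y i * g i) = 0 := by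
          rw [← hB2, Finset.mul_sum, Finset.mul_sum, ← Finset.sum_add_distrib]
          refine Finset.sum_congr rfl fun i _ => ?_
          have h1 : B i / y i * y i = B i := div_mul_cancel₀ _ (hy i).ne'
          calc -β * (B i / y i * f i) + α * (B i / y i * g i)
              = B i / y i * (-β * f i + α * g i) := by ring
            _ = B i / y i * (t i * y i) := by rw [hyt]
            _ = (B i / y i * y i) * t i := by ring
            _ = B i * t i := by rw [h1]
      · have : (α ^ 2 + β ^ 2) * (∑ i, B i / y i * f i) = 0 := by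
          linear_combination α * e1 - β * e2
        rcases mul_eq_zero.mp this with h | h
        · exact absurd h hαβ
        · exact h
      · have : (α ^ 2 + β ^ 2) * (∑ i, B i / y i * g i) = 0 := by
          linear_combination β * e1 + α * e2
        rcases mul_eq_zero.mp this with h | h
        · exact absurd h hαβ
        · exact h

/-- The point with number n. -/
noncomputable def pt (m n : ℕ) : EuclideanSpace ℝ (Fin 4) := WithLp.toLp 2 (fun i => P m n i.succ)

lemma pt_apply (m n : ℕ) (i : Fin 4) : pt m n i = P m n i.succ := rfl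

lemma pt_inj (m : ℕ) : Function.Injective (pt m) := by
  intro n n' h
  have h1 := congrArg (fun v : EuclideanSpace ℝ (Fin 4) => v 3) h
  simp only [pt_apply] at h1
  exact P_four_inj h1

lemma inner_eq (a x : EuclideanSpace ℝ (Fin 4)) : inner ℝ a x = ∑ i, a i * x i := by
  rw [PiLp.inner_apply]
  refine Finset.sum_congr rfl fun i _ => ?_
  simp [mul_comm]

end GeoX

open GeoX

theorem geo : GeoStmt := by
  intro m hm hno
  refine ⟨(Icc 1 (24 * m)).image (pt m), ?_, ?_⟩
  · rw [Finset.card_image_of_injective _ (pt_inj m)]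
    simp
  intro L ⟨p, hp⟩ hL
  obtain ⟨u, hu0, hu⟩ := finrank_eq_one_iff'.mp hL
  have hu0' : (u : EuclideanSpace ℝ (Fin 4)) ≠ 0 := by
    intro h
    exact hu0 (Subtype.ext h)
  let f : Fin 5 → ℝ := Fin.cons 1 (fun i => p i)
  let g : Fin 5 → ℝ := Fin.cons 0 (fun i => (u : EuclideanSpace ℝ (Fin 4)) i)
  have hg : g ≠ 0 := by
    intro h
    apply hu0'
    ext i
    have := congrFun h i.succ
    simpa [g] using this
  obtain ⟨b, hb, hbf, hbg, hcnt⟩ := key m hm hno f g (by simp [f]) (by simp [g]) hg
  rw [Fin.sum_univ_succ] at hbf hbg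
  simp only [f, g, Fin.cons_zero, Fin.cons_succ, mul_one, mul_zero, zero_add] at hbf hbg
  let a : EuclideanSpace ℝ (Fin 4) := WithLp.toLp 2 (fun i => -b i.succ)
  have ha : ∀ i, a i = -b i.succ := fun i => rfl
  have hin : ∀ x : EuclideanSpace ℝ (Fin 4), inner ℝ a x = -∑ i : Fin 4, b i.succ * x i := by
    intro x
    rw [inner_eq, ← Finset.sum_neg_distrib]
    refine Finset.sum_congr rfl fun i _ => ?_
    rw [ha]; ring
  refine ⟨a, b 0, ?_, ?_, ?_⟩
  · intro h
    apply hb
    have h1 : ∀ i : Fin 4, b i.succ = 0 := by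
      intro i
      have := congrArg (fun v : EuclideanSpace ℝ (Fin 4) => v i) h
      simp only [ha] at this
      simpa using this
    have h2 : b 0 = 0 := by
      rw [Finset.sum_eq_zero (fun i _ => by rw [h1 i]; ring)] at hbf
      linarith
    funext i
    refine Fin.cases h2 (fun j => h1 j) i
  · intro x hx
    have h1 : x -ᵥ p ∈ L.direction := AffineSubspace.vsub_mem_direction hx hp
    obtain ⟨c, hc⟩ := hu ⟨x -ᵥ p, h1⟩
    have h2 : c • (u : EuclideanSpace ℝ (Fin 4)) = x - p := by
      have := congrArg Subtype.val hc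
      simpa using this
    have h3 : ∀ i, x i = p i + c * (u : EuclideanSpace ℝ (Fin 4)) i := by
      intro i
      have := congrArg (fun v : EuclideanSpace ℝ (Fin 4) => v i) h2
      simp at this
      linarith
    rw [hin]
    have h4 : ∑ i : Fin 4, b i.succ * x i = ∑ i : Fin 4, b i.succ * p i +
        c * ∑ i : Fin 4, b i.succ * (u : EuclideanSpace ℝ (Fin 4)) i := by
      rw [Finset.mul_sum, ← Finset.sum_add_distrib]
      refine Finset.sum_congr rfl fun i _ => ?_
      rw [h3 i]; ring
    rw [h4, hbg]
    linarith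
  · rw [Finset.card_image_of_injective _ (pt_inj m), Finset.filter_image,
      Finset.card_image_of_injective _ (pt_inj m)]
    have h1 : ((Icc 1 (24 * m)).filter (fun n => inner ℝ a (pt m n) ≤ b 0)).card = cnt m b := by
      unfold cnt
      congr 1
      apply Finset.filter_congr
      intro n _
      have h5 : ∑ i : Fin 5, b i * P m n i = b 0 + ∑ i : Fin 4, b i.succ * P m n i.succ := by
        rw [Fin.sum_univ_succ, P_zero, mul_one]
      rw [hin, h5]
      simp only [pt_apply]
      constructor <;> intro h <;> linarith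
    rw [h1]
    simp only [Nat.card_Icc, Nat.add_sub_cancel]
    omega

end DeepFlat
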