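import Mathlib
import Pool.Agent.Lib.MP_5d7aef_co.Defs
import Pool.Agent.Lib.MP_5d7aef_co.Stmts

/-! Module Pl: the planar case analysis. -/

namespace DeepFlat

open Finset

namespace Pl

/-- the vector A belonging to the weights w (given in sorted positions) -/
noncomputable def AA (y : Fin 5 → ℝ) (s : Equiv.Perm (Fin 5)) (w : Fin 5 → ℝ) : Fin 5 → ℝ :=
  fun j => Real.logb (2 ^ 20) (w (s.symm j) / y j)

lemma P_pos (m n : ℕ) (i : Fin 5) : 0 < P m n i := by
  unfold P; positivity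

lemma mem_MS_of {m n : ℕ} {y : Fin 5 → ℝ} (hy : ∀ i, 0 < y i) {s : Equiv.Perm (Fin 5)}
    {w : Fin 5 → ℝ} (hw : ∀ i, 0 < w i) (hn : n ∈ Icc 1 (24 * m)) (i : Fin 5)
    (h : ∀ j, w j * (P m n (s j) / y (s j)) ≤ 2 ^ 20 * (w i * (P m n (s i) / y (s i)))) :
    n ∈ MS m (AA y s w) (s i) := by
  unfold MS
  rw [mem_filter]
  refine ⟨hn, ?_⟩
  intro j
  obtain ⟨j, rfl⟩ := s.surjective j
  have key : ∀ l : Fin 5, AA y s w (s l) + (16 : ℝ) ^ n * (rk m n (s l) : ℝ)
      = Real.logb (2 ^ 20) (w l * (P m n (s l) / y (s l))) := by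
    intro l
    have h1 : w l * (P m n (s l) / y (s l)) = (w l / y (s l)) * P m n (s l) := by
      field_simp
    rw [h1, Real.logb_mul (by have := hw l; have := hy (s l); positivity) (P_pos m n (s l)).ne']
    congr 1
    · simp [AA]
    · unfold P
      rw [Real.logb_pow, Real.logb_self_eq_one (by norm_num)]
      push_cast
      ring
  have h2 : Real.logb (2 ^ 20) (2 ^ 20 * (w i * (P m n (s i) / y (s i))))
      = 1 + Real.logb (2 ^ 20) (w i * (P m n (s i) / y (s i))) := by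
    rw [Real.logb_mul (by norm_num)
      (by have := hw i; have := hy (s i); have := P_pos m n (s i); positivity),
      Real.logb_self_eq_one (by norm_num)]
  have h3 : Real.logb (2 ^ 20) (w j * (P m n (s j) / y (s j))) ≤
      Real.logb (2 ^ 20) (2 ^ 20 * (w i * (P m n (s i) / y (s i)))) := by
    apply Real.logb_le_logb_of_le (by norm_num)
    · have := hw j; have := hy (s j); have := P_pos m n (s j); positivity
    · exact h j
  rw [key j, key i]
  linarith [h2, h3]

/-- pattern lemma -/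
lemma pattern {m : ℕ} {y t : Fin 5 → ℝ} (hy : ∀ i, 0 < y i) (hD : Deep m y t)
    (s : Equiv.Perm (Fin 5)) (w B : Fin 5 → ℝ) (hw : ∀ i, 0 < w i)
    (hB : B ≠ 0) (hs : ∑ j, B j = 0) (hst : ∑ j, B j * t (s j) = 0) (i k : Fin 5)
    (hi : B i ≤ 128 * w i) (hk : B k ≤ 128 * w k)
    (hj : ∀ j, j ≠ i → j ≠ k → B j ≤ - w j / 128 ∨
      (B j ≤ 0 ∧ ∀ n ∈ Icc 1 (24 * m), w j * (P m n (s j) / y (s j)) ≤
          w i * (P m n (s i) / y (s i)) ∧
        w j * (P m n (s j) / y (s j)) ≤ w k * (P m n (s k) / y (s k)))) :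
    8 * m ≤ (MS m (AA y s w) (s i) ∪ MS m (AA y s w) (s k)).card := by
  have h1 := hD (fun l => B (s.symm l)) (by
      intro h
      apply hB
      funext j
      have := congrFun h (s j)
      simpa using this) (by
      rw [← Equiv.sum_comp s]; simpa using hs) (by
      rw [← Equiv.sum_comp s]; simpa using hst)
  refine h1.trans ?_
  unfold cnt
  apply card_le_card
  intro n hn
  rw [mem_filter] at hn
  obtain ⟨hn, h0⟩ := hn
  rw [← Equiv.sum_comp s] at h0
  simp only [Equiv.symm_apply_apply] at h0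
  set u : Fin 5 → ℝ := fun j => P m n (s j) / y (s j) with hu
  have hu0 : ∀ j, 0 < u j := fun j => div_pos (P_pos m n (s j)) (hy (s j))
  have h2 : 0 ≤ ∑ j, B j * u j := by
    have : ∑ j, B j / y (s j) * P m n (s j) = ∑ j, B j * u j := by
      apply sum_congr rfl
      intro j _
      simp only [hu]
      field_simp
    rw [← this]; exact h0
  -- main bound
  have h3 : ∀ j, j ≠ i → j ≠ k → w j * u j ≤ 2 ^ 14 * (w i * u i) + 2 ^ 14 * (w k * u k) ∨
      (w j * u j ≤ w i * u i ∧ w j * u j ≤ w k * u k) := by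
    intro j hji hjk
    rcases hj j hji hjk with h | h
    · left
      have h4 : ∑ l, B l * u l = B j * u j + ∑ l ∈ univ.erase j, B l * u l :=
        (add_sum_erase univ (fun l => B l * u l) (mem_univ j)).symm
      have h5 : ∑ l ∈ univ.erase j, B l * u l ≤ ∑ l ∈ univ.erase j,
          ((if l = i then 128 * (w i * u i) else 0) + (if l = k then 128 * (w k * u k) else 0)) := by
        apply sum_le_sum
        intro l hl
        have hwi : 0 < w i * u i := mul_pos (hw i) (hu0 i)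
        have hwk : 0 < w k * u k := mul_pos (hw k) (hu0 k)
        by_cases hli : l = i
        · subst hli
          have : B l * u l ≤ 128 * (w l * u l) := by nlinarith [hu0 l]
          rw [if_pos rfl]
          split_ifs with h6
          · linarith
          · linarith
        · by_cases hlk : l = k
          · subst hlk
            have : B l * u l ≤ 128 * (w l * u l) := by nlinarith [hu0 l]
            rw [if_neg hli, if_pos rfl]
            linarith
          · rw [if_neg hli, if_neg hlk]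
            have : B l ≤ 0 := by
              rcases hj l hli hlk with h7 | h7
              · have := hw l; linarith
              · exact h7.1
            nlinarith [hu0 l]
      have h6 : ∑ l ∈ univ.erase j,
          ((if l = i then 128 * (w i * u i) else 0) + (if l = k then 128 * (w k * u k) else 0))
          = 128 * (w i * u i) + 128 * (w k * u k) := by
        rw [sum_add_distrib, sum_ite_eq' , sum_ite_eq']
        rw [if_pos (mem_erase.2 ⟨hji.symm, mem_univ _⟩), if_pos (mem_erase.2 ⟨hjk.symm, mem_univ _⟩)]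
      have h7 : B j * u j ≤ - (w j * u j) / 128 := by
        have := hu0 j
        have h8 : B j * u j ≤ (- w j / 128) * u j := mul_le_mul_of_nonneg_right h this.le
        linarith [h8]
      linarith
    · right
      exact h.2 n hn
  rw [mem_union]
  have hwi : 0 < w i * u i := mul_pos (hw i) (hu0 i)
  have hwk : 0 < w k * u k := mul_pos (hw k) (hu0 k)
  rcases le_total (w k * u k) (w i * u i) with hik | hik
  · left
    apply mem_MS_of hy hw hn
    intro j
    by_cases hji : j = i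
    · subst hji
      show w j * u j ≤ 2 ^ 20 * (w j * u j)
      nlinarith
    · by_cases hjk : j = k
      · subst hjk
        show w j * u j ≤ 2 ^ 20 * (w i * u i)
        nlinarith
      · show w j * u j ≤ 2 ^ 20 * (w i * u i)
        rcases h3 j hji hjk with h | h
        · linarith
        · linarith [h.1]
  · right
    apply mem_MS_of hy hw hn
    intro j
    by_cases hji : j = i
    · subst hji
      show w j * u j ≤ 2 ^ 20 * (w k * u k)
      nlinarith
    · by_cases hjk : j = k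
      · subst hjk
        show w j * u j ≤ 2 ^ 20 * (w j * u j)
        nlinarith
      · show w j * u j ≤ 2 ^ 20 * (w k * u k)
        rcases h3 j hji hjk with h | h
        · linarith
        · linarith [h.2]

/-- the weights with the positions a and b multiplied by E -/
noncomputable def W (w : Fin 5 → ℝ) (a b : Fin 5) (E : ℝ) : Fin 5 → ℝ :=
  fun j => if j = a ∨ j = b then w j * E else w j

lemma shift_AA {y : Fin 5 → ℝ} (hy : ∀ i, 0 < y i) (s : Equiv.Perm (Fin 5)) {w : Fin 5 → ℝ}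
    (hw : ∀ i, 0 < w i) (a b : Fin 5) (X : ℝ) :
    shift (AA y s w) (s a) (s b) X = AA y s (W w a b ((2 ^ 20 : ℝ) ^ X)) := by
  funext j
  obtain ⟨j, rfl⟩ := s.surjective j
  have h1 : ((2 : ℝ) ^ 20) ^ X ≠ 0 := (Real.rpow_pos_of_pos (by norm_num) X).ne'
  have h2 : w j / y (s j) ≠ 0 := (div_pos (hw j) (hy (s j))).ne'
  unfold shift AA W
  simp only [EmbeddingLike.apply_eq_iff_eq, Equiv.symm_apply_apply]
  split_ifs with h
  · have h3 : w j * ((2 : ℝ) ^ 20) ^ X / y (s j) = (w j / y (s j)) * ((2 : ℝ) ^ 20) ^ X := by ring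
    rw [h3, Real.logb_mul h2 h1, Real.logb_rpow (by norm_num) (by norm_num)]
  · rfl

lemma M_mono (m : ℕ) (A : Fin 5 → ℝ) (a b : Fin 5) {X Y : ℝ} (h : X ≤ Y) :
    M m (shift A a b X) a ≤ M m (shift A a b Y) a := by
  unfold M MS
  apply card_le_card
  intro n hn
  rw [mem_filter] at hn ⊢
  refine ⟨hn.1, ?_⟩
  intro j
  have h1 := hn.2 j
  unfold shift at h1 ⊢
  rw [if_pos (Or.inl rfl)] at h1 ⊢
  split_ifs at h1 ⊢ <;> linarith

lemma shift_comm (A : Fin 5 → ℝ) (a b : Fin 5) (X : ℝ) : shift A a b X = shift A b a X := by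
  funext i
  unfold shift
  simp only [or_comm]

lemma HPath_comm {m : ℕ} {A : Fin 5 → ℝ} {a b : Fin 5} (h : HPath m A a b) : HPath m A b a := by
  intro X hX
  rcases h X hX with h | h | h
  · right; left; rw [shift_comm]; exact h
  · left; rw [shift_comm]; exact h
  · right; right
    intro k hk1 hk2
    rw [shift_comm A b a]
    exact (h k hk2 hk1).symm

lemma HPath_of {m : ℕ} {y : Fin 5 → ℝ} (hy : ∀ i, 0 < y i) (s : Equiv.Perm (Fin 5))
    {w : Fin 5 → ℝ} (hw : ∀ i, 0 < w i) (a b : Fin 5) (q c : ℝ) (hq : 0 ≤ q) (hqc : q ≤ c)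
    (h1 : ∀ E : ℝ, 1 ≤ E → E * q ≤ c → ∀ k, k ≠ a → k ≠ b →
      8 * m ≤ (MS m (AA y s (W w a b E)) (s a) ∪ MS m (AA y s (W w a b E)) (s k)).card ∧
      8 * m ≤ (MS m (AA y s (W w a b E)) (s b) ∪ MS m (AA y s (W w a b E)) (s k)).card)
    (h2 : ∀ E : ℝ, 1 ≤ E → E * q = c → 0 < q →
      8 * m ≤ (MS m (AA y s (W w a b E)) (s a)).card) :
    HPath m (AA y s w) (s a) (s b) := by
  intro X hX
  have hE : 1 ≤ (2 ^ 20 : ℝ) ^ X := Real.one_le_rpow (by norm_num) hX
  by_cases hc : (2 ^ 20 : ℝ) ^ X * q ≤ c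
  · right; right
    intro k hka hkb
    obtain ⟨k, rfl⟩ := s.surjective k
    rw [shift_AA hy s hw]
    obtain ⟨h3, h4⟩ := h1 _ hE hc k (fun h => hka (by rw [h])) (fun h => hkb (by rw [h]))
    exact ⟨h3.trans (card_union_le _ _), h4.trans (card_union_le _ _)⟩
  · left
    have hq0 : 0 < q := by
      rcases hq.lt_or_eq with h | h
      · exact h
      · exfalso
        apply hc
        rw [← h]
        linarith
    push Not at hc
    have hE1 : 1 ≤ c / q := by rw [le_div_iff₀ hq0]; linarith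
    have h3 := h2 (c / q) hE1 (by field_simp) hq0
    have h4 : (2 ^ 20 : ℝ) ^ (Real.logb (2 ^ 20) (c / q)) = c / q := by
      apply Real.rpow_logb (by norm_num) (by norm_num) (by linarith)
    rw [← h4, ← shift_AA hy s hw] at h3
    refine le_trans h3 (M_mono m _ _ _ ?_)
    have h5 : c / q ≤ (2 ^ 20 : ℝ) ^ X := by
      rw [div_le_iff₀ hq0]; exact hc.le
    rw [← h4] at h5
    exact (Real.rpow_le_rpow_left_iff (by norm_num)).1 h5

/-- the condition on the entries at a position -/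
def Lim (i k j : Fin 5) (B w : ℝ) : Prop :=
  if j = i ∨ j = k then B ≤ 128 * w else B ≤ - w / 128

/-- data of case I -/
structure CI (t : Fin 5 → ℝ) (s : Equiv.Perm (Fin 5)) where
  a0 : ℝ
  a1 : ℝ
  c3 : ℝ
  c4 : ℝ
  p0 : ℝ
  p4 : ℝ
  u1 : ℝ
  u3 : ℝ
  r1 : ℝ
  r3 : ℝ
  g1 : ℝ
  g3 : ℝ
  ht0 : t (s 0) = t (s 2) - a0
  ht1 : t (s 1) = t (s 2) - a1
  ht3 : t (s 3) = t (s 2) + c3
  ht4 : t (s 4) = t (s 2) + c4
  hp0 : p0 * a0 = 1
  hp4 : p4 * c4 = 1
  hr1 : r1 = a1 * u1
  hr3 : r3 = c3 * u3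
  hu1 : u1 = p0 * r1 + g1
  hu3 : u3 = p4 * r3 + g3
  hp0' : 0 < p0
  hp4' : 0 < p4

lemma exists_ne2 : ∀ i k : Fin 5, ∃ j : Fin 5, j ≠ i ∧ j ≠ k := by decide

lemma patI {m : ℕ} {y t : Fin 5 → ℝ} (hy : ∀ i, 0 < y i) (hD : Deep m y t)
    {s : Equiv.Perm (Fin 5)} (c : CI t s) (w : Fin 5 → ℝ) (hw : ∀ i, 0 < w i) (i k : Fin 5)
    (S β1 β3 : ℝ)
    (h : Lim i k 0 (c.p0 * (S - c.r1 * β1)) (w 0) ∧ Lim i k 1 (β1 * c.u1) (w 1) ∧
      Lim i k 2 (-((c.p0 + c.p4) * S + c.g1 * β1 + c.g3 * β3)) (w 2) ∧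
      Lim i k 3 (β3 * c.u3) (w 3) ∧ Lim i k 4 (c.p4 * (S - c.r3 * β3)) (w 4)) :
    8 * m ≤ (MS m (AA y s w) (s i) ∪ MS m (AA y s w) (s k)).card := by
  set B : Fin 5 → ℝ := ![c.p0 * (S - c.r1 * β1), β1 * c.u1,
    -((c.p0 + c.p4) * S + c.g1 * β1 + c.g3 * β3), β3 * c.u3, c.p4 * (S - c.r3 * β3)] with hBdef
  have hB0 : B 0 = c.p0 * (S - c.r1 * β1) := rfl
  have hB1 : B 1 = β1 * c.u1 := rfl
  have hB2 : B 2 = -((c.p0 + c.p4) * S + c.g1 * β1 + c.g3 * β3) := rfl
  have hB3 : B 3 = β3 * c.u3 := rfl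
  have hB4 : B 4 = c.p4 * (S - c.r3 * β3) := rfl
  have hall : ∀ j, Lim i k j (B j) (w j) := by
    obtain ⟨h0, h1, h2, h3, h4⟩ := h
    intro j
    fin_cases j
    · exact h0
    · exact h1
    · exact h2
    · exact h3
    · exact h4
  have hin : ∀ j, j = i ∨ j = k → B j ≤ 128 * w j := by
    intro j hj
    have := hall j
    unfold Lim at this
    rwa [if_pos hj] at this
  have hout : ∀ j, j ≠ i → j ≠ k → B j ≤ - w j / 128 := by
    intro j h1 h2
    have := hall j
    unfold Lim at this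
    rwa [if_neg (by tauto)] at this
  have hB : B ≠ 0 := by
    intro h0
    obtain ⟨j, hj1, hj2⟩ := exists_ne2 i k
    have h1 := hout j hj1 hj2
    rw [h0] at h1
    have h2 := hw j
    simp only [Pi.zero_apply] at h1
    linarith
  apply pattern hy hD s w B hw hB _ _ i k (hin i (Or.inl rfl)) (hin k (Or.inr rfl))
  · intro j h1 h2
    exact Or.inl (hout j h1 h2)
  · rw [Fin.sum_univ_five, hB0, hB1, hB2, hB3, hB4]
    have h1 := c.hu1
    have h3 := c.hu3
    linear_combination β1 * h1 + β3 * h3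
  · rw [Fin.sum_univ_five, hB0, hB1, hB2, hB3, hB4, c.ht0, c.ht1, c.ht3, c.ht4]
    have h1 := c.hu1
    have h3 := c.hu3
    have h5 := c.hr1
    have h6 := c.hr3
    have h7 := c.hp0
    have h8 := c.hp4
    linear_combination (t (s 2)) * (β1 * h1 + β3 * h3) - (S - c.r1 * β1) * h7 +
      (S - c.r3 * β3) * h8 + β1 * h5 - β3 * h6

lemma W_34 (a b c d e E : ℝ) : W ![a, b, c, d, e] 3 4 E = ![a, b, c, d * E, e * E] := by
  funext j
  fin_cases j <;> simp [W]

lemma W_01 (a b c d e E : ℝ) : W ![a, b, c, d, e] 0 1 E = ![a * E, b * E, c, d, e] := by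
  funext j
  fin_cases j <;> simp [W]

lemma pos5 {a b c d e : ℝ} (ha : 0 < a) (hb : 0 < b) (hc : 0 < c) (hd : 0 < d) (he : 0 < e) :
    ∀ i : Fin 5, 0 < (![a, b, c, d, e] : Fin 5 → ℝ) i := by
  intro i
  fin_cases i <;> assumption

/-- the weights of case I -/
noncomputable def wI {t : Fin 5 → ℝ} {s : Equiv.Perm (Fin 5)} (c : CI t s) : Fin 5 → ℝ :=
  ![c.p0, c.u1, c.p0 + c.p4, c.u3, c.p4]

lemma caseK {m : ℕ} {y t : Fin 5 → ℝ} (hy : ∀ i, 0 < y i) (hD : Deep m y t)
    {s : Equiv.Perm (Fin 5)} (c : CI t s) (h1 : 0 ≤ c.r1) (h1' : c.r1 ≤ 1 / 8)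
    (h1g : c.g1 = c.p0 + c.p4) (h3 : 0 ≤ c.r3) (h3' : c.r3 ≤ 1 / 8) (h3g : c.g3 = c.p0 + c.p4) :
    KCase m (AA y s (wI c)) s := by
  have hp0 := c.hp0'
  have hp4 := c.hp4'
  have hu1 : c.p0 + c.p4 ≤ c.u1 := by
    have := c.hu1
    rw [h1g] at this
    nlinarith [mul_nonneg hp0.le h1]
  have hu3 : c.p0 + c.p4 ≤ c.u3 := by
    have := c.hu3
    rw [h3g] at this
    nlinarith [mul_nonneg hp4.le h3]
  have hw : ∀ i, 0 < wI c i := pos5 hp0 (by linarith) (by linarith) (by linarith) hp4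
  have e1 : 0 ≤ c.p0 * c.r1 := mul_nonneg hp0.le h1
  have e2 : c.p0 * c.r1 ≤ c.p0 * (1 / 8) := mul_le_mul_of_nonneg_left h1' hp0.le
  have e3 : 0 ≤ c.p4 * c.r3 := mul_nonneg hp4.le h3
  have e4 : c.p4 * c.r3 ≤ c.p4 * (1 / 8) := mul_le_mul_of_nonneg_left h3' hp4.le
  refine ⟨?_, ?_, ?_, ?_⟩
  · have := patI hy hD c (wI c) hw 1 1 (-1) 4 (-1) ?_
    · rwa [union_self] at this
    · unfold Lim wI
      simp only [h1g, h3g]
      refine ⟨?_, ?_, ?_, ?_, ?_⟩ <;> simp <;> linarith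
  · have := patI hy hD c (wI c) hw 2 2 (-1) (-1) (-1) ?_
    · rwa [union_self] at this
    · unfold Lim wI
      simp only [h1g, h3g]
      refine ⟨?_, ?_, ?_, ?_, ?_⟩ <;> simp <;> linarith
  · have := patI hy hD c (wI c) hw 3 3 (-1) (-1) 4 ?_
    · rwa [union_self] at this
    · unfold Lim wI
      simp only [h1g, h3g]
      refine ⟨?_, ?_, ?_, ?_, ?_⟩ <;> simp <;> linarith
  · refine le_trans ?_ (card_union_le _ _)
    apply patI hy hD c (wI c) hw 0 4 1 (-1/4) (-1/4)
    unfold Lim wI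
    simp only [h1g, h3g]
    refine ⟨?_, ?_, ?_, ?_, ?_⟩ <;> simp <;> linarith

lemma ne34 {k : Fin 5} (h3 : k ≠ 3) (h4 : k ≠ 4) : k = 0 ∨ k = 1 ∨ k = 2 := by
  revert k; decide

lemma ne01 {k : Fin 5} (h3 : k ≠ 0) (h4 : k ≠ 1) : k = 2 ∨ k = 3 ∨ k = 4 := by
  revert k; decide

lemma caseT0 {m : ℕ} {y t : Fin 5 → ℝ} (hy : ∀ i, 0 < y i) (hD : Deep m y t)
    {s : Equiv.Perm (Fin 5)} (c : CI t s) (h1 : 0 ≤ c.r1) (h1' : c.r1 ≤ 1 / 8)
    (h1g : c.g1 = c.p0 + c.p4) (h3 : c.r3 = 1) (h3g : 0 ≤ c.g3)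
    (h3g' : c.g3 ≤ 8 * (c.p0 + c.p4)) :
    T0Case m (AA y s (wI c)) ((Equiv.addRight 3).trans s) := by
  have hp0 := c.hp0'
  have hp4 := c.hp4'
  have hu1 : c.p0 + c.p4 ≤ c.u1 := by
    have := c.hu1
    rw [h1g] at this
    nlinarith [mul_nonneg hp0.le h1]
  have hu3 : c.u3 = c.p4 + c.g3 := by
    have := c.hu3
    rw [h3] at this
    linarith
  have hw : ∀ i, 0 < wI c i := pos5 hp0 (by linarith) (by linarith) (by linarith) hp4
  have e1 : 0 ≤ c.p0 * c.r1 := mul_nonneg hp0.le h1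
  have e2 : c.p0 * c.r1 ≤ c.p0 * (1 / 8) := mul_le_mul_of_nonneg_left h1' hp0.le
  have hpath : HPath m (AA y s (wI c)) (s 3) (s 4) := by
    apply HPath_of hy s hw 3 4 c.g3 (8 * (c.p0 + c.p4)) h3g h3g'
    · intro E hE hEg k hk3 hk4
      have f1 : c.p4 ≤ c.p4 * E := le_mul_of_one_le_right hp4.le hE
      have f2 : c.u3 ≤ c.u3 * E := le_mul_of_one_le_right (by linarith) hE
      have f3 : c.g3 ≤ c.g3 * E := le_mul_of_one_le_right h3g hE
      have hw' : ∀ i, 0 < (![c.p0, c.u1, c.p0 + c.p4, c.u3 * E, c.p4 * E] : Fin 5 → ℝ) i :=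
        pos5 hp0 (by linarith) (by linarith) (by linarith) (by linarith)
      unfold wI
      rw [W_34]
      rcases ne34 hk3 hk4 with rfl | rfl | rfl
      · refine ⟨?_, ?_⟩
        · apply patI hy hD c _ hw' 3 0 1 (-1/2) (2 * E)
          unfold Lim
          simp only [h1g, h3]
          refine ⟨?_, ?_, ?_, ?_, ?_⟩ <;> simp <;> linarith
        · apply patI hy hD c _ hw' 4 0 1 (-1/4) (-E/32)
          unfold Lim
          simp only [h1g, h3]
          refine ⟨?_, ?_, ?_, ?_, ?_⟩ <;> simp <;> linarith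
      · refine ⟨?_, ?_⟩
        · apply patI hy hD c _ hw' 3 1 (-1) 4 E
          unfold Lim
          simp only [h1g, h3]
          refine ⟨?_, ?_, ?_, ?_, ?_⟩ <;> simp <;> linarith
        · apply patI hy hD c _ hw' 4 1 (-1) 32 (-(1+E))
          unfold Lim
          simp only [h1g, h3]
          refine ⟨?_, ?_, ?_, ?_, ?_⟩ <;> simp <;> linarith
      · refine ⟨?_, ?_⟩
        · apply patI hy hD c _ hw' 3 2 (-5) (-16) E
          unfold Lim
          simp only [h1g, h3]
          refine ⟨?_, ?_, ?_, ?_, ?_⟩ <;> simp <;> linarith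
        · apply patI hy hD c _ hw' 4 2 (-5) (-16) (-(5+E))
          unfold Lim
          simp only [h1g, h3]
          refine ⟨?_, ?_, ?_, ?_, ?_⟩ <;> simp <;> linarith
    · intro E hE hEg _
      have f1 : c.p4 ≤ c.p4 * E := le_mul_of_one_le_right hp4.le hE
      have f2 : c.u3 ≤ c.u3 * E := le_mul_of_one_le_right (by linarith) hE
      have f3 : c.g3 ≤ c.g3 * E := le_mul_of_one_le_right h3g hE
      have hw' : ∀ i, 0 < (![c.p0, c.u1, c.p0 + c.p4, c.u3 * E, c.p4 * E] : Fin 5 → ℝ) i :=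
        pos5 hp0 (by linarith) (by linarith) (by linarith) (by linarith)
      unfold wI
      rw [W_34]
      have := patI hy hD c _ hw' 3 3 (-1) (-1) E ?_
      · rwa [union_self] at this
      · unfold Lim
        simp only [h1g, h3]
        refine ⟨?_, ?_, ?_, ?_, ?_⟩ <;> simp <;> linarith
  refine ⟨hpath, ?_, ?_, ?_, ?_⟩
  · show 8 * m ≤ (MS m (AA y s (wI c)) (s 1)).card
    have := patI hy hD c (wI c) hw 1 1 (-2) 16 (-1) ?_
    · rwa [union_self] at this
    · unfold Lim wI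
      simp only [h1g, h3]
      refine ⟨?_, ?_, ?_, ?_, ?_⟩ <;> simp <;> linarith
  · show 8 * m ≤ (MS m (AA y s (wI c)) (s 2)).card
    have := patI hy hD c (wI c) hw 2 2 (-2) (-1) (-1) ?_
    · rwa [union_self] at this
    · unfold Lim wI
      simp only [h1g, h3]
      refine ⟨?_, ?_, ?_, ?_, ?_⟩ <;> simp <;> linarith
  · show 8 * m ≤ (MS m (AA y s (wI c)) (s 0)).card + (MS m (AA y s (wI c)) (s 3)).card
    refine le_trans ?_ (card_union_le _ _)
    apply patI hy hD c (wI c) hw 0 3 1 (-1/2) 2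
    unfold Lim wI
    simp only [h1g, h3]
    refine ⟨?_, ?_, ?_, ?_, ?_⟩ <;> simp <;> linarith
  · show 8 * m ≤ (MS m (AA y s (wI c)) (s 0)).card + (MS m (AA y s (wI c)) (s 4)).card
    refine le_trans ?_ (card_union_le _ _)
    apply patI hy hD c (wI c) hw 0 4 1 (-1/4) (-1/32)
    unfold Lim wI
    simp only [h1g, h3]
    refine ⟨?_, ?_, ?_, ?_, ?_⟩ <;> simp <;> linarith

lemma W_10 (a b c d e E : ℝ) : W ![a, b, c, d, e] 1 0 E = ![a * E, b * E, c, d, e] := by
  funext j
  fin_cases j <;> simp [W]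

lemma caseTm {m : ℕ} {y t : Fin 5 → ℝ} (hy : ∀ i, 0 < y i) (hD : Deep m y t)
    {s : Equiv.Perm (Fin 5)} (c : CI t s) (h1 : c.r1 = 1) (h1g : 0 ≤ c.g1)
    (h1g' : c.g1 ≤ 8 * (c.p0 + c.p4)) (h3 : c.r3 = 1) (h3g : 0 ≤ c.g3)
    (h3g' : c.g3 ≤ 8 * (c.p0 + c.p4)) :
    TmCase m (AA y s (wI c)) s := by
  have hp0 := c.hp0'
  have hp4 := c.hp4'
  have hu1 : c.u1 = c.p0 + c.g1 := by
    have := c.hu1
    rw [h1] at this
    linarith
  have hu3 : c.u3 = c.p4 + c.g3 := by
    have := c.hu3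
    rw [h3] at this
    linarith
  have hw : ∀ i, 0 < wI c i := pos5 hp0 (by linarith) (by linarith) (by linarith) hp4
  have hpath1 : HPath m (AA y s (wI c)) (s 1) (s 0) := by
    apply HPath_of hy s hw 1 0 c.g1 (8 * (c.p0 + c.p4)) h1g h1g'
    · intro E hE hEg k hk1 hk0
      have f1 : c.p0 ≤ c.p0 * E := le_mul_of_one_le_right hp0.le hE
      have f2 : c.u1 ≤ c.u1 * E := le_mul_of_one_le_right (by linarith) hE
      have f3 : c.g1 ≤ c.g1 * E := le_mul_of_one_le_right h1g hE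
      have hw' : ∀ i, 0 < (![c.p0 * E, c.u1 * E, c.p0 + c.p4, c.u3, c.p4] : Fin 5 → ℝ) i :=
        pos5 (by linarith) (by linarith) (by linarith) (by linarith) hp4
      unfold wI
      rw [W_10]
      rcases ne01 hk0 hk1 with rfl | rfl | rfl
      · refine ⟨?_, ?_⟩
        · apply patI hy hD c _ hw' 1 2 (-2) (E/8) (-1)
          unfold Lim
          simp only [h1, h3]
          refine ⟨?_, ?_, ?_, ?_, ?_⟩ <;> simp <;> linarith
        · apply patI hy hD c _ hw' 0 2 (-2) (-(2+E)) (-1)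
          unfold Lim
          simp only [h1, h3]
          refine ⟨?_, ?_, ?_, ?_, ?_⟩ <;> simp <;> linarith
      · refine ⟨?_, ?_⟩
        · apply patI hy hD c _ hw' 1 3 (1) (2*E) (2)
          unfold Lim
          simp only [h1, h3]
          refine ⟨?_, ?_, ?_, ?_, ?_⟩ <;> simp <;> linarith
        · apply patI hy hD c _ hw' 0 3 (1) (-E/16) (17/16)
          unfold Lim
          simp only [h1, h3]
          refine ⟨?_, ?_, ?_, ?_, ?_⟩ <;> simp <;> linarith
      · refine ⟨?_, ?_⟩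
        · apply patI hy hD c _ hw' 1 4 (1) (2*E) (-1/32)
          unfold Lim
          simp only [h1, h3]
          refine ⟨?_, ?_, ?_, ?_, ?_⟩ <;> simp <;> linarith
        · apply patI hy hD c _ hw' 0 4 (1) (-E/32) (-1/32)
          unfold Lim
          simp only [h1, h3]
          refine ⟨?_, ?_, ?_, ?_, ?_⟩ <;> simp <;> linarith
    · intro E hE hEg _
      have f1 : c.p0 ≤ c.p0 * E := le_mul_of_one_le_right hp0.le hE
      have f2 : c.u1 ≤ c.u1 * E := le_mul_of_one_le_right (by linarith) hE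
      have f3 : c.g1 ≤ c.g1 * E := le_mul_of_one_le_right h1g hE
      have hw' : ∀ i, 0 < (![c.p0 * E, c.u1 * E, c.p0 + c.p4, c.u3, c.p4] : Fin 5 → ℝ) i :=
        pos5 (by linarith) (by linarith) (by linarith) (by linarith) hp4
      unfold wI
      rw [W_10]
      have := patI hy hD c _ hw' 1 1 (-2) (2*E) (-1) ?_
      · rwa [union_self] at this
      · unfold Lim
        simp only [h1, h3]
        refine ⟨?_, ?_, ?_, ?_, ?_⟩ <;> simp <;> linarith
  have hpath2 : HPath m (AA y s (wI c)) (s 3) (s 4) := by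
    apply HPath_of hy s hw 3 4 c.g3 (8 * (c.p0 + c.p4)) h3g h3g'
    · intro E hE hEg k hk3 hk4
      have f1 : c.p4 ≤ c.p4 * E := le_mul_of_one_le_right hp4.le hE
      have f2 : c.u3 ≤ c.u3 * E := le_mul_of_one_le_right (by linarith) hE
      have f3 : c.g3 ≤ c.g3 * E := le_mul_of_one_le_right h3g hE
      have hw' : ∀ i, 0 < (![c.p0, c.u1, c.p0 + c.p4, c.u3 * E, c.p4 * E] : Fin 5 → ℝ) i :=
        pos5 hp0 (by linarith) (by linarith) (by linarith) (by linarith)
      unfold wI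
      rw [W_34]
      rcases ne34 hk3 hk4 with rfl | rfl | rfl
      · refine ⟨?_, ?_⟩
        · apply patI hy hD c _ hw' 3 0 (1) (-1/32) (2*E)
          unfold Lim
          simp only [h1, h3]
          refine ⟨?_, ?_, ?_, ?_, ?_⟩ <;> simp <;> linarith
        · apply patI hy hD c _ hw' 4 0 (1) (-1/32) (-E/32)
          unfold Lim
          simp only [h1, h3]
          refine ⟨?_, ?_, ?_, ?_, ?_⟩ <;> simp <;> linarith
      · refine ⟨?_, ?_⟩
        · apply patI hy hD c _ hw' 3 1 (1) (2) (2*E)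
          unfold Lim
          simp only [h1, h3]
          refine ⟨?_, ?_, ?_, ?_, ?_⟩ <;> simp <;> linarith
        · apply patI hy hD c _ hw' 4 1 (1) (17/16) (-E/16)
          unfold Lim
          simp only [h1, h3]
          refine ⟨?_, ?_, ?_, ?_, ?_⟩ <;> simp <;> linarith
      · refine ⟨?_, ?_⟩
        · apply patI hy hD c _ hw' 3 2 (-2) (-1) (E/8)
          unfold Lim
          simp only [h1, h3]
          refine ⟨?_, ?_, ?_, ?_, ?_⟩ <;> simp <;> linarith
        · apply patI hy hD c _ hw' 4 2 (-2) (-1) (-(2+E))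
          unfold Lim
          simp only [h1, h3]
          refine ⟨?_, ?_, ?_, ?_, ?_⟩ <;> simp <;> linarith
    · intro E hE hEg _
      have f1 : c.p4 ≤ c.p4 * E := le_mul_of_one_le_right hp4.le hE
      have f2 : c.u3 ≤ c.u3 * E := le_mul_of_one_le_right (by linarith) hE
      have f3 : c.g3 ≤ c.g3 * E := le_mul_of_one_le_right h3g hE
      have hw' : ∀ i, 0 < (![c.p0, c.u1, c.p0 + c.p4, c.u3 * E, c.p4 * E] : Fin 5 → ℝ) i :=
        pos5 hp0 (by linarith) (by linarith) (by linarith) (by linarith)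
      unfold wI
      rw [W_34]
      have := patI hy hD c _ hw' 3 3 (-2) (-1) (2*E) ?_
      · rwa [union_self] at this
      · unfold Lim
        simp only [h1, h3]
        refine ⟨?_, ?_, ?_, ?_, ?_⟩ <;> simp <;> linarith
  refine ⟨HPath_comm hpath1, hpath2, ?_, ?_, ?_, ?_, ?_⟩
  · show 8 * m ≤ (MS m (AA y s (wI c)) (s 2)).card
    have := patI hy hD c (wI c) hw 2 2 (-2) (-1) (-1) ?_
    · rwa [union_self] at this
    · unfold Lim wI
      simp only [h1, h3]
      refine ⟨?_, ?_, ?_, ?_, ?_⟩ <;> simp <;> linarith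
  · refine le_trans ?_ (card_union_le _ _)
    apply patI hy hD c (wI c) hw 0 3 (1) (-1/16) (17/16)
    unfold Lim wI
    simp only [h1, h3]
    refine ⟨?_, ?_, ?_, ?_, ?_⟩ <;> simp <;> linarith
  · refine le_trans ?_ (card_union_le _ _)
    apply patI hy hD c (wI c) hw 0 4 (1) (-1/32) (-1/32)
    unfold Lim wI
    simp only [h1, h3]
    refine ⟨?_, ?_, ?_, ?_, ?_⟩ <;> simp <;> linarith
  · refine le_trans ?_ (card_union_le _ _)
    apply patI hy hD c (wI c) hw 1 3 (1) (2) (2)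
    unfold Lim wI
    simp only [h1, h3]
    refine ⟨?_, ?_, ?_, ?_, ?_⟩ <;> simp <;> linarith
  · refine le_trans ?_ (card_union_le _ _)
    apply patI hy hD c (wI c) hw 1 4 (1) (17/16) (-1/16)
    unfold Lim wI
    simp only [h1, h3]
    refine ⟨?_, ?_, ?_, ?_, ?_⟩ <;> simp <;> linarith

lemma deep_neg {m : ℕ} {y t : Fin 5 → ℝ} (hD : Deep m y t) : Deep m y (fun i => - t i) := by
  intro B hB h1 h2
  apply hD B hB h1
  have h3 : ∑ i, B i * -t i = - ∑ i, B i * t i := by
    rw [← sum_neg_distrib]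
    exact sum_congr rfl (fun i _ => by ring)
  rw [h3] at h2
  linarith

/-- the mirror image of the data of case I -/
noncomputable def CI.mirror {t : Fin 5 → ℝ} {s : Equiv.Perm (Fin 5)} (c : CI t s) :
    CI (fun i => - t i) (Fin.revPerm.trans s) where
  a0 := c.c4
  a1 := c.c3
  c3 := c.a1
  c4 := c.a0
  p0 := c.p4
  p4 := c.p0
  u1 := c.u3
  u3 := c.u1
  r1 := c.r3
  r3 := c.r1
  g1 := c.g3
  g3 := c.g1
  ht0 := by
    show - t (s 4) = - t (s 2) - c.c4
    rw [c.ht4]; ring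
  ht1 := by
    show - t (s 3) = - t (s 2) - c.c3
    rw [c.ht3]; ring
  ht3 := by
    show - t (s 1) = - t (s 2) + c.a1
    rw [c.ht1]; ring
  ht4 := by
    show - t (s 0) = - t (s 2) + c.a0
    rw [c.ht0]; ring
  hp0 := c.hp4
  hp4 := c.hp0
  hr1 := c.hr3
  hr3 := c.hr1
  hu1 := c.hu3
  hu3 := c.hu1
  hp0' := c.hp4'
  hp4' := c.hp0'

lemma side (a0 a1 η : ℝ) (h0 : 0 < a0) (h1 : 0 ≤ a1) (h10 : a1 ≤ a0) (hη : 0 < η) :
    ∃ u r g : ℝ, r = a1 * u ∧ u = (1 / a0) * r + g ∧
      ((r = 1 ∧ 0 ≤ g ∧ g ≤ 8 * η) ∨ (0 ≤ r ∧ r ≤ 1 / 8 ∧ g = η)) := by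
  by_cases hc : 1 - a1 / a0 < 8 * η * a1
  · have h1p : 0 < a1 := by
      rcases h1.lt_or_eq with h | h
      · exact h
      · rw [← h] at hc
        norm_num at hc
    refine ⟨1 / a1, 1, 1 / a1 - 1 / a0, by field_simp, by ring, Or.inl ⟨rfl, ?_, ?_⟩⟩
    · have := one_div_le_one_div_of_le h1p h10
      linarith
    · have h2 : 1 / a1 - 1 / a0 = (1 - a1 / a0) / a1 := by field_simp
      rw [h2, div_le_iff₀ h1p]
      exact hc.le
  · push Not at hc
    have hth : 0 < 1 - a1 / a0 := by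
      rcases h1.lt_or_eq with h | h
      · have : 0 < 8 * η * a1 := by positivity
        linarith
      · rw [← h]
        norm_num
    refine ⟨η / (1 - a1 / a0), a1 * (η / (1 - a1 / a0)), η, rfl, ?_, Or.inr ⟨by positivity, ?_, rfl⟩⟩
    · have h3 : η / (1 - a1 / a0) * (1 - a1 / a0) = η := div_mul_cancel₀ _ hth.ne'
      have h4 : a1 / a0 = a1 * (1 / a0) := by ring
      rw [h4] at h3 ⊢
      linear_combination h3
    · rw [mul_div_assoc', div_le_iff₀ hth]
      linarith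

lemma caseI {m : ℕ} {y t : Fin 5 → ℝ} (hy : ∀ i, 0 < y i) (hD : Deep m y t)
    (s : Equiv.Perm (Fin 5)) (h01 : t (s 0) ≤ t (s 1)) (h12 : t (s 1) ≤ t (s 2))
    (h23 : t (s 2) ≤ t (s 3)) (h34 : t (s 3) ≤ t (s 4)) (h02 : t (s 0) < t (s 2))
    (h24 : t (s 2) < t (s 4)) :
    ∃ (A : Fin 5 → ℝ) (s : Equiv.Perm (Fin 5)), KCase m A s ∨ T0Case m A s ∨ TmCase m A s := by
  have ha0 : 0 < t (s 2) - t (s 0) := by linarith
  have hc4 : 0 < t (s 4) - t (s 2) := by linarith
  have hη : 0 < 1 / (t (s 2) - t (s 0)) + 1 / (t (s 4) - t (s 2)) := by positivity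
  obtain ⟨u1, r1, g1, hr1, hu1, hleft⟩ := side (t (s 2) - t (s 0)) (t (s 2) - t (s 1)) _ ha0
    (by linarith) (by linarith) hη
  obtain ⟨u3, r3, g3, hr3, hu3, hright⟩ := side (t (s 4) - t (s 2)) (t (s 3) - t (s 2)) _ hc4
    (by linarith) (by linarith) hη
  let c : CI t s :=
    { a0 := t (s 2) - t (s 0)
      a1 := t (s 2) - t (s 1)
      c3 := t (s 3) - t (s 2)
      c4 := t (s 4) - t (s 2)
      p0 := 1 / (t (s 2) - t (s 0))
      p4 := 1 / (t (s 4) - t (s 2))
      u1 := u1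
      u3 := u3
      r1 := r1
      r3 := r3
      g1 := g1
      g3 := g3
      ht0 := by ring
      ht1 := by ring
      ht3 := by ring
      ht4 := by ring
      hp0 := by field_simp
      hp4 := by field_simp
      hr1 := hr1
      hr3 := hr3
      hu1 := hu1
      hu3 := hu3
      hp0' := by positivity
      hp4' := by positivity }
  rcases hleft with ⟨l1, l2, l3⟩ | ⟨l1, l2, l3⟩
  · rcases hright with ⟨k1, k2, k3⟩ | ⟨k1, k2, k3⟩
    · exact ⟨_, _, Or.inr (Or.inr (caseTm hy hD c l1 l2 l3 k1 k2 k3))⟩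
    · refine ⟨_, _, Or.inr (Or.inl (caseT0 hy (deep_neg hD) c.mirror k1 k2 ?_ l1 l2 ?_))⟩
      · show g3 = 1 / (t (s 4) - t (s 2)) + 1 / (t (s 2) - t (s 0))
        rw [k3]; ring
      · show g1 ≤ 8 * (1 / (t (s 4) - t (s 2)) + 1 / (t (s 2) - t (s 0)))
        linarith
  · rcases hright with ⟨k1, k2, k3⟩ | ⟨k1, k2, k3⟩
    · exact ⟨_, _, Or.inr (Or.inl (caseT0 hy hD c l1 l2 l3 k1 k2 k3))⟩
    · exact ⟨_, _, Or.inl (caseK hy hD c l1 l2 l3 k1 k2 k3)⟩

lemma exists_small {ι : Type*} (F : Finset ι) (f g : ι → ℝ) (hf : ∀ x, 0 < f x)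
    (hg : ∀ x, 0 < g x) : ∃ d : ℝ, 0 < d ∧ d ≤ 1 ∧ ∀ x ∈ F, d * f x ≤ g x := by
  classical
  induction F using Finset.induction_on with
  | empty => exact ⟨1, one_pos, le_rfl, by simp⟩
  | insert a F ha ih =>
    obtain ⟨d, hd0, hd1, hd⟩ := ih
    refine ⟨min d (g a / f a), lt_min hd0 (div_pos (hg a) (hf a)), (min_le_left _ _).trans hd1, ?_⟩
    intro x hx
    rcases mem_insert.1 hx with rfl | hx
    · have h1 : min d (g x / f x) ≤ g x / f x := min_le_right _ _
      calc min d (g x / f x) * f x ≤ g x / f x * f x := mul_le_mul_of_nonneg_right h1 (hf x).le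
        _ = g x := div_mul_cancel₀ _ (hf x).ne'
    · exact (mul_le_mul_of_nonneg_right (min_le_left _ _) (hf x).le).trans (hd x hx)

lemma exists_d (m : ℕ) {y : Fin 5 → ℝ} (hy : ∀ i, 0 < y i) (s : Equiv.Perm (Fin 5)) :
    ∃ d : ℝ, 0 < d ∧ d ≤ 1 ∧ ∀ n ∈ Icc 1 (24 * m), ∀ i j : Fin 5,
      d * (P m n (s j) / y (s j)) ≤ P m n (s i) / y (s i) := by
  obtain ⟨d, h0, h1, h⟩ := exists_small (Icc 1 (24 * m) ×ˢ (univ : Finset (Fin 5 × Fin 5)))
    (fun x => P m x.1 (s x.2.2) / y (s x.2.2)) (fun x => P m x.1 (s x.2.1) / y (s x.2.1))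
    (fun x => div_pos (P_pos _ _ _) (hy _)) (fun x => div_pos (P_pos _ _ _) (hy _))
  exact ⟨d, h0, h1, fun n hn i j => h (n, (i, j)) (by simp only [mem_product]; exact ⟨hn, mem_univ _⟩)⟩

lemma caseIIa {m : ℕ} {y t : Fin 5 → ℝ} (hy : ∀ i, 0 < y i) (hD : Deep m y t)
    (s : Equiv.Perm (Fin 5)) (h1 : t (s 1) = t (s 0)) (h2 : t (s 2) = t (s 0))
    (h3 : t (s 3) = t (s 0)) :
    ∃ (A : Fin 5 → ℝ) (s : Equiv.Perm (Fin 5)), KCase m A s ∨ T0Case m A s ∨ TmCase m A s := by
  obtain ⟨d, hd0, hd1, hd⟩ := exists_d m hy s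
  have hw : ∀ i, 0 < (![1, 1, 1, 1, d] : Fin 5 → ℝ) i :=
    pos5 one_pos one_pos one_pos one_pos hd0
  have key : ∀ i : Fin 5, i ≠ 4 → 8 * m ≤ (MS m (AA y s ![1, 1, 1, 1, d]) (s i)).card := by
    intro i hi
    set B : Fin 5 → ℝ := fun j => if j = 4 then 0 else if j = i then 3 else -1 with hB
    have hwi : (![1, 1, 1, 1, d] : Fin 5 → ℝ) i = 1 := by
      revert hi; fin_cases i <;> simp
    have := pattern hy hD s ![1, 1, 1, 1, d] B hw ?_ ?_ ?_ i i ?_ ?_ ?_
    · rwa [union_self] at this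
    · intro h
      have h5 := congrFun h i
      simp [hB, hi] at h5
    · rw [Fin.sum_univ_five]
      revert hi
      fin_cases i <;> simp [hB] <;> norm_num
    · rw [Fin.sum_univ_five, h1, h2, h3]
      revert hi
      fin_cases i <;> simp [hB] <;> ring
    · rw [hwi]; simp [hB, hi]; norm_num
    · rw [hwi]; simp [hB, hi]; norm_num
    · intro j hji _
      by_cases hj4 : j = 4
      · right
        subst hj4
        refine ⟨by simp [hB], ?_⟩
        intro n hn
        rw [hwi]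
        have := hd n hn i 4
        have h6 : (![1, 1, 1, 1, d] : Fin 5 → ℝ) 4 = d := rfl
        rw [h6]
        constructor <;> linarith
      · left
        have hwj : (![1, 1, 1, 1, d] : Fin 5 → ℝ) j = 1 := by
          revert hj4; fin_cases j <;> simp
        rw [hwj]
        simp [hB, hj4, hji]
        norm_num
  refine ⟨AA y s ![1, 1, 1, 1, d], s, Or.inl ⟨key 1 (by decide), key 2 (by decide),
    key 3 (by decide), le_trans (key 0 (by decide)) (Nat.le_add_right _ _)⟩⟩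

lemma caseIIb {m : ℕ} {y t : Fin 5 → ℝ} (hy : ∀ i, 0 < y i) (hD : Deep m y t)
    (s : Equiv.Perm (Fin 5)) (h1 : t (s 1) = t (s 0)) (h2 : t (s 2) = t (s 0))
    (h3 : t (s 0) < t (s 3)) (h4 : t (s 3) ≤ t (s 4)) :
    ∃ (A : Fin 5 → ℝ) (s : Equiv.Perm (Fin 5)), KCase m A s ∨ T0Case m A s ∨ TmCase m A s := by
  obtain ⟨d, hd0, hd1, hd⟩ := exists_d m hy s
  have hc4 : 0 < t (s 4) - t (s 0) := by linarith
  have hc3 : 0 < t (s 3) - t (s 0) := by linarith
  obtain ⟨k, hk⟩ : ∃ k, k = (t (s 3) - t (s 0)) / (t (s 4) - t (s 0)) := ⟨_, rfl⟩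
  have hk0 : 0 < k := by rw [hk]; positivity
  have hk1 : k ≤ 1 := by rw [hk, div_le_one hc4]; linarith
  have hkk : k * (t (s 4) - t (s 0)) = t (s 3) - t (s 0) := by
    rw [hk]; field_simp
  -- general pattern
  have pat : ∀ (w : Fin 5 → ℝ) (_ : ∀ i, 0 < w i) (i l : Fin 5) (b0 b1 b2 b3 : ℝ),
      b0 + b1 + b2 + (1 - k) * b3 = 0 →
      Lim i l 0 b0 (w 0) ∧ Lim i l 1 b1 (w 1) ∧ Lim i l 2 b2 (w 2) ∧ Lim i l 3 b3 (w 3) ∧
        Lim i l 4 (-(k * b3)) (w 4) →
      8 * m ≤ (MS m (AA y s w) (s i) ∪ MS m (AA y s w) (s l)).card := by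
    intro w hw i l b0 b1 b2 b3 hsum h
    set B : Fin 5 → ℝ := ![b0, b1, b2, b3, -(k * b3)] with hBdef
    have hB0 : B 0 = b0 := rfl
    have hB1 : B 1 = b1 := rfl
    have hB2 : B 2 = b2 := rfl
    have hB3 : B 3 = b3 := rfl
    have hB4 : B 4 = -(k * b3) := rfl
    have hall : ∀ j, Lim i l j (B j) (w j) := by
      obtain ⟨g0, g1, g2, g3, g4⟩ := h
      intro j
      fin_cases j
      · exact g0
      · exact g1
      · exact g2
      · exact g3
      · exact g4
    have hin : ∀ j, j = i ∨ j = l → B j ≤ 128 * w j := by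
      intro j hj
      have := hall j
      unfold Lim at this
      rwa [if_pos hj] at this
    have hout : ∀ j, j ≠ i → j ≠ l → B j ≤ - w j / 128 := by
      intro j h1 h2
      have := hall j
      unfold Lim at this
      rwa [if_neg (by tauto)] at this
    have hB : B ≠ 0 := by
      intro h0
      obtain ⟨j, hj1, hj2⟩ := exists_ne2 i l
      have h1 := hout j hj1 hj2
      rw [h0] at h1
      have h2 := hw j
      simp only [Pi.zero_apply] at h1
      linarith
    apply pattern hy hD s w B hw hB _ _ i l (hin i (Or.inl rfl)) (hin l (Or.inr rfl))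
    · intro j h1 h2
      exact Or.inl (hout j h1 h2)
    · rw [Fin.sum_univ_five, hB0, hB1, hB2, hB3, hB4]
      linarith
    · rw [Fin.sum_univ_five, hB0, hB1, hB2, hB3, hB4, h1, h2]
      linear_combination t (s 0) * hsum - b3 * hkk
  -- the weights
  have hkd : 0 < k * d := mul_pos hk0 hd0
  have hw : ∀ i, 0 < (![1, 1, 1, d, k * d] : Fin 5 → ℝ) i :=
    pos5 one_pos one_pos one_pos hd0 hkd
  have hth : 0 ≤ 1 - k := by linarith
  have key : ∀ i : Fin 5, i ≠ 3 → i ≠ 4 →
      8 * m ≤ (MS m (AA y s ![1, 1, 1, d, k * d]) (s i)).card := by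
    intro i hi3 hi4
    set B : Fin 5 → ℝ := fun j => if j = 3 ∨ j = 4 then 0 else if j = i then 2 else -1 with hB
    have hwi : (![1, 1, 1, d, k * d] : Fin 5 → ℝ) i = 1 := by
      rcases ne34 hi3 hi4 with rfl | rfl | rfl <;> simp
    have hBi : B i = 2 := by simp [hB, hi3, hi4]
    have := pattern hy hD s ![1, 1, 1, d, k * d] B hw ?_ ?_ ?_ i i ?_ ?_ ?_
    · rwa [union_self] at this
    · intro h
      have h5 := congrFun h i
      rw [hBi] at h5
      norm_num at h5
    · rw [Fin.sum_univ_five]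
      rcases ne34 hi3 hi4 with rfl | rfl | rfl <;> simp [hB] <;> norm_num
    · rw [Fin.sum_univ_five, h1, h2]
      rcases ne34 hi3 hi4 with rfl | rfl | rfl <;> simp [hB] <;> ring
    · rw [hwi, hBi]; norm_num
    · rw [hwi, hBi]; norm_num
    · intro j hji _
      by_cases hj3 : j = 3
      · right
        subst hj3
        refine ⟨by simp [hB], ?_⟩
        intro n hn
        rw [hwi]
        have := hd n hn i 3
        have h6 : (![1, 1, 1, d, k * d] : Fin 5 → ℝ) 3 = d := rfl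
        rw [h6]
        constructor <;> linarith
      · by_cases hj4 : j = 4
        · right
          subst hj4
          refine ⟨by simp [hB], ?_⟩
          intro n hn
          rw [hwi]
          have h5 := hd n hn i 4
          have h6 : (![1, 1, 1, d, k * d] : Fin 5 → ℝ) 4 = k * d := rfl
          rw [h6]
          have h7 : 0 < P m n (s 4) / y (s 4) := div_pos (P_pos _ _ _) (hy _)
          have h8 : k * d * (P m n (s 4) / y (s 4)) ≤ d * (P m n (s 4) / y (s 4)) := by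
            apply mul_le_mul_of_nonneg_right _ h7.le
            nlinarith
          constructor <;> linarith
        · left
          have hwj : (![1, 1, 1, d, k * d] : Fin 5 → ℝ) j = 1 := by
            rcases ne34 hj3 hj4 with rfl | rfl | rfl <;> simp
          rw [hwj]
          simp [hB, hj3, hj4, hji]
          norm_num
  have hpath : HPath m (AA y s ![1, 1, 1, d, k * d]) (s 3) (s 4) := by
    apply HPath_of hy s hw 3 4 ((1 - k) * d) 1 (by positivity) (by nlinarith)
    · intro E hE hEg i hi3 hi4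
      have f1 : 0 < d * E := by positivity
      have f2 : 0 < k * d * E := by positivity
      have f3 : 0 ≤ (1 - k) * (d * E) := by positivity
      have f4 : (1 - k) * (d * E) ≤ 1 := by linarith
      have hw' : ∀ i, 0 < (![1, 1, 1, d * E, k * d * E] : Fin 5 → ℝ) i :=
        pos5 one_pos one_pos one_pos f1 f2
      rw [W_34]
      rcases ne34 hi3 hi4 with rfl | rfl | rfl
      · refine ⟨?_, ?_⟩
        · apply pat _ hw' 3 0 (2 - (1 - k) * (d * E)) (-1) (-1) (d * E) (by ring)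
          unfold Lim
          refine ⟨?_, ?_, ?_, ?_, ?_⟩ <;> simp <;> linarith
        · apply pat _ hw' 4 0 (2 + (1 - k) * (d * E)) (-1) (-1) (-(d * E)) (by ring)
          unfold Lim
          refine ⟨?_, ?_, ?_, ?_, ?_⟩ <;> simp <;> linarith
      · refine ⟨?_, ?_⟩
        · apply pat _ hw' 3 1 (-1) (2 - (1 - k) * (d * E)) (-1) (d * E) (by ring)
          unfold Lim
          refine ⟨?_, ?_, ?_, ?_, ?_⟩ <;> simp <;> linarith
        · apply pat _ hw' 4 1 (-1) (2 + (1 - k) * (d * E)) (-1) (-(d * E)) (by ring)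
          unfold Lim
          refine ⟨?_, ?_, ?_, ?_, ?_⟩ <;> simp <;> linarith
      · refine ⟨?_, ?_⟩
        · apply pat _ hw' 3 2 (-1) (-1) (2 - (1 - k) * (d * E)) (d * E) (by ring)
          unfold Lim
          refine ⟨?_, ?_, ?_, ?_, ?_⟩ <;> simp <;> linarith
        · apply pat _ hw' 4 2 (-1) (-1) (2 + (1 - k) * (d * E)) (-(d * E)) (by ring)
          unfold Lim
          refine ⟨?_, ?_, ?_, ?_, ?_⟩ <;> simp <;> linarith
    · intro E hE hEg _
      have f1 : 0 < d * E := by positivity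
      have f2 : 0 < k * d * E := by positivity
      have hw' : ∀ i, 0 < (![1, 1, 1, d * E, k * d * E] : Fin 5 → ℝ) i :=
        pos5 one_pos one_pos one_pos f1 f2
      rw [W_34]
      have := pat _ hw' 3 3 (-1) (-1) (-1) (3 * (d * E)) (by linear_combination 3 * hEg) ?_
      · rwa [union_self] at this
      · unfold Lim
        refine ⟨?_, ?_, ?_, ?_, ?_⟩ <;> simp <;> linarith
  refine ⟨AA y s ![1, 1, 1, d, k * d], (Equiv.addRight 3).trans s, Or.inr (Or.inl ⟨hpath, ?_, ?_, ?_, ?_⟩)⟩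
  · exact key 1 (by decide) (by decide)
  · exact key 2 (by decide) (by decide)
  · exact le_trans (key 0 (by decide) (by decide)) (Nat.le_add_right _ _)
  · exact le_trans (key 0 (by decide) (by decide)) (Nat.le_add_right _ _)

lemma caseII {m : ℕ} {y t : Fin 5 → ℝ} (hy : ∀ i, 0 < y i) (hD : Deep m y t)
    (s : Equiv.Perm (Fin 5)) (h01 : t (s 0) ≤ t (s 1)) (h12 : t (s 1) ≤ t (s 2))
    (h23 : t (s 2) ≤ t (s 3)) (h34 : t (s 3) ≤ t (s 4)) (h02 : t (s 0) = t (s 2)) :
    ∃ (A : Fin 5 → ℝ) (s : Equiv.Perm (Fin 5)), KCase m A s ∨ T0Case m A s ∨ TmCase m A s := by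
  rcases h23.lt_or_eq with h | h
  · exact caseIIb hy hD s (by linarith) (by linarith) (by linarith) h34
  · exact caseIIa hy hD s (by linarith) (by linarith) (by linarith)

end Pl

theorem planar : PlanarStmt := by
  intro m y t _ hy hne hD
  obtain ⟨s, hs⟩ : ∃ s : Equiv.Perm (Fin 5), Monotone (t ∘ s) := ⟨Tuple.sort t, Tuple.monotone_sort t⟩
  have h01 : t (s 0) ≤ t (s 1) := hs (by decide)
  have h12 : t (s 1) ≤ t (s 2) := hs (by decide)
  have h23 : t (s 2) ≤ t (s 3) := hs (by decide)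
  have h34 : t (s 3) ≤ t (s 4) := hs (by decide)
  rcases (h01.trans h12).lt_or_eq with h | h
  · rcases (h23.trans h34).lt_or_eq with h' | h'
    · exact Pl.caseI hy hD s h01 h12 h23 h34 h h'
    · apply Pl.caseII hy (Pl.deep_neg hD) (Fin.revPerm.trans s)
      · show - t (s 4) ≤ - t (s 3); linarith
      · show - t (s 3) ≤ - t (s 2); linarith
      · show - t (s 2) ≤ - t (s 1); linarith
      · show - t (s 1) ≤ - t (s 0); linarith
      · show - t (s 4) = - t (s 2); linarith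
  · exact Pl.caseII hy hD s h01 h12 h23 h34 h

end DeepFlat
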